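import Mathlib

/-!
Combinatorics on regular well-orders: an ultrafilter none of whose interval quotients is rapid.
-/

set_option autoImplicit false

namespace Pool.Agent.H87.CloneA

universe u

section Thin

variable {X : Type u} [LinearOrder X]

/-- On every interval `[y, f y)` the set `A` is covered by `N` clusters `[c, g c]`, `c ≥ y`. -/
def P (A : Set X) (f g : X → X) (N : ℕ) : Prop :=
  ∀ y, ∃ c : Fin N → X, (∀ j, y ≤ c j) ∧ ∀ p ∈ A, y ≤ p → p < f y → ∃ j, c j ≤ p ∧ p ≤ g (c j)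

lemma P_subset {A A' : Set X} {f g : X → X} {N : ℕ} (h : P A' f g N) (hA : A ⊆ A') :
    P A f g N := by
  intro y
  obtain ⟨c, h1, h2⟩ := h y
  exact ⟨c, h1, fun p hp => h2 p (hA hp)⟩

lemma P_empty (f g : X → X) (N : ℕ) : P (∅ : Set X) f g N :=
  fun y => ⟨fun _ => y, fun _ => le_rfl, fun _ hp => absurd hp (Set.notMem_empty _)⟩

lemma P_union {A A' : Set X} {f g : X → X} {N N' : ℕ} (h : P A f g N) (h' : P A' f g N') :
    P (A ∪ A') f g (N + N') := by
  intro y
  obtain ⟨c, h1, h2⟩ := h y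
  obtain ⟨c', h1', h2'⟩ := h' y
  refine ⟨Fin.append c c', ?_, ?_⟩
  · intro j
    refine Fin.addCases (fun i => ?_) (fun i => ?_) j
    · rw [Fin.append_left]; exact h1 i
    · rw [Fin.append_right]; exact h1' i
  · rintro p (hp | hp) hyp hpf
    · obtain ⟨j, hj⟩ := h2 p hp hyp hpf
      exact ⟨Fin.castAdd N' j, by rw [Fin.append_left]; exact hj⟩
    · obtain ⟨j, hj⟩ := h2' p hp hyp hpf
      exact ⟨Fin.natAdd N j, by rw [Fin.append_right]; exact hj⟩

lemma P_mono {A : Set X} {f g : X → X} {N N' : ℕ} (h : P A f g N) (hN : N ≤ N') :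
    P A f g N' := by
  obtain ⟨k, rfl⟩ := Nat.exists_eq_add_of_le hN
  have := P_union h (P_empty f g k)
  rwa [Set.union_empty] at this

lemma P_mono_g {A : Set X} {f g g' : X → X} {N : ℕ} (h : P A f g N) (hg : ∀ x, g x ≤ g' x) :
    P A f g' N := by
  intro y
  obtain ⟨c, h1, h2⟩ := h y
  refine ⟨c, h1, fun p hp hyp hpf => ?_⟩
  obtain ⟨j, hj, hj'⟩ := h2 p hp hyp hpf
  exact ⟨j, hj, hj'.trans (hg _)⟩

/-- Unions of one thin set for each pair of the list. -/
def Cov : List ((X → X) × (X → X)) → ℕ → Set X → Prop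
  | [], _ => fun B => B = ∅
  | (f, g) :: ℓ, N => fun B => ∃ A B', P A f g N ∧ Cov ℓ N B' ∧ B = A ∪ B'

/-- no set in `Cov ℓ N` covers `[x, z)`. -/
def Free (ℓ : List ((X → X) × (X → X))) (N : ℕ) (x z : X) : Prop :=
  ∀ B, Cov ℓ N B → ∃ p, x ≤ p ∧ p < z ∧ p ∉ B

/-- `Bd ℓ N`: every point `x` starts an interval that is not covered. -/
def Bd (ℓ : List ((X → X) × (X → X))) (N : ℕ) : Prop := ∀ x, ∃ z, Free ℓ N x z

open Classical in
/-- A choice of the end of the uncovered interval. -/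
noncomputable def Psi (ℓ : List ((X → X) × (X → X))) (N : ℕ) (x : X) : X :=
  if h : ∃ z, Free ℓ N x z then Classical.choose h else x

lemma Psi_spec {ℓ : List ((X → X) × (X → X))} {N : ℕ} (h : Bd ℓ N) (x : X) :
    Free ℓ N x (Psi ℓ N x) := by
  rw [Psi, dif_pos (h x)]
  exact Classical.choose_spec (h x)

variable [NoMaxOrder X]

/-- A strictly larger element. -/
noncomputable def nx (x : X) : X := Classical.choose (exists_gt x)

lemma lt_nx (x : X) : x < nx x := Classical.choose_spec (exists_gt x)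

/-- Iterated uncovered intervals and clusters. -/
noncomputable def zseq (ψ g : X → X) (y : X) : ℕ → X
  | 0 => y
  | i + 1 => nx (g (ψ (zseq ψ g y i)))

/-- The bound. -/
noncomputable def Z (ℓ : List ((X → X) × (X → X))) (N : ℕ) (g : X → X) (y : X) : X :=
  zseq (Psi ℓ N) g y (N + 1)

lemma bd_step {ℓ : List ((X → X) × (X → X))} {N : ℕ} {f g : X → X} (hℓ : Bd ℓ N)
    (hg : Monotone g) (hg' : ∀ x, x ≤ g x) (hf : ∀ x, ∃ y, x ≤ y ∧ Z ℓ N g y ≤ f y) :
    Bd ((f, g) :: ℓ) N := by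
  intro x
  obtain ⟨y, hxy, hy⟩ := hf x
  refine ⟨Z ℓ N g y, ?_⟩
  rintro B ⟨A, B', hA, hB', rfl⟩
  set ψ := Psi ℓ N with hψ
  set z := zseq ψ g y with hz
  have hcore : ∀ i, ∃ p, z i ≤ p ∧ p < ψ (z i) ∧ p ∉ B' := fun i => Psi_spec hℓ (z i) B' hB'
  have h1 : ∀ i, z i < ψ (z i) := fun i => by
    obtain ⟨p, h1, h2, -⟩ := hcore i
    exact h1.trans_lt h2
  have h2 : ∀ i, g (ψ (z i)) < z (i + 1) := fun i => lt_nx _
  have h3 : ∀ i, ψ (z i) < z (i + 1) := fun i => (hg' _).trans_lt (h2 i)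
  have hzm : StrictMono z := strictMono_nat_of_lt_succ fun i => (h1 i).trans (h3 i)
  obtain ⟨c, hc1, hc2⟩ := hA y
  -- find a free core
  have hfree : ∃ i : Fin (N + 1), ∀ j : Fin N, ∀ p, z i ≤ p → p < ψ (z i) →
      ¬ (c j ≤ p ∧ p ≤ g (c j)) := by
    by_contra hcon
    push Not at hcon
    choose j p hp1 hp2 hp3 hp4 using hcon
    obtain ⟨i, i', hne, hij⟩ := Fintype.exists_ne_map_eq_of_card_lt j (by simp)
    wlog hlt : i < i' generalizing i i'
    · exact this i' i hne.symm hij.symm (lt_of_le_of_ne (not_lt.1 hlt) hne.symm)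
    have e1 : g (c (j i)) < z (i + 1) :=
      (hg ((hp3 i).trans (hp2 i).le)).trans_lt (h2 i)
    have e2 : z (i' : ℕ) ≤ g (c (j i)) := by
      rw [hij]; exact (hp1 i').trans (hp4 i')
    have e3 : z (i + 1) ≤ z i' := hzm.monotone (by
      have : (i : ℕ) < i' := hlt
      omega)
    exact absurd (e3.trans e2) (not_le.2 e1)
  obtain ⟨i, hi⟩ := hfree
  obtain ⟨p, hp1, hp2, hp3⟩ := hcore i
  have hyz : y ≤ z i := by
    have : z 0 ≤ z i := hzm.monotone (Nat.zero_le _)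
    exact this
  have hpZ : p < z (N + 1) := by
    refine (hp2.trans (h3 i)).trans_le (hzm.monotone ?_)
    have := i.2
    omega
  refine ⟨p, hxy.trans (hyz.trans hp1), hpZ, ?_⟩
  rintro (hpA | hpB)
  · obtain ⟨j, hj⟩ := hc2 p hpA (hyz.trans hp1) (hpZ.trans_le hy)
    exact hi j p hp1 hp2 hj
  · exact hp3 hpB

lemma bd_nil (N : ℕ) : Bd ([] : List ((X → X) × (X → X))) N := by
  intro x
  refine ⟨nx x, ?_⟩
  rintro B rfl
  exact ⟨x, le_rfl, lt_nx x, Set.notMem_empty _⟩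

end Thin

/-- Recursive choice along a well-order. -/
lemma rec_choice {Λ : Type*} [LT Λ] [WellFoundedLT Λ] {V : Type*}
    (Q : ∀ β : Λ, (∀ α : Λ, α < β → V) → V → Prop) (hQ : ∀ β h, ∃ v, Q β h v) :
    ∃ f : Λ → V, ∀ β, Q β (fun α _ => f α) (f β) := by
  let F : Λ → V := WellFounded.fix (C := fun _ => V) (wellFounded_lt (α := Λ))
    (fun β ih => Classical.choose (hQ β ih))
  refine ⟨F, fun β => ?_⟩
  have h1 : F β = Classical.choose (hQ β (fun α _ => F α)) := by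
    simp only [F]
    rw [WellFounded.fix_eq]
  have h2 := Classical.choose_spec (hQ β (fun α _ => F α))
  rw [← h1] at h2
  exact h2

section Main

variable {X : Type u} [LinearOrder X] [NoMaxOrder X]

/-- Non-domination hypothesis gives the functions `f`. -/
lemma exists_f {Λ : Type*} [LinearOrder Λ] [WellFoundedLT Λ] (g : Λ → X → X)
    (henv : ∀ h : X → X, ∃ v : X → X, Monotone v ∧ ∀ x, h x ≤ v x)
    (hND : ∀ (β : Λ) (Φ : List (Set.Iio β) × ℕ × X → X → X), ∃ h : X → X, ∀ i, ∃ x, Φ i x < h x) :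
    ∃ f : Λ → X → X, ∀ (β : Λ) (s : List (Set.Iio β)) (N : ℕ) (x : X), ∃ y, x ≤ y ∧
      Z (s.map fun α : Set.Iio β => (f α, g α)) N (g β) y ≤ f β y := by
  apply rec_choice (Q := fun β f' v => ∀ (s : List (Set.Iio β)) (N : ℕ) (x : X), ∃ y, x ≤ y ∧
      Z (s.map fun α : Set.Iio β => (f' α α.2, g α)) N (g β) y ≤ v y)
  intro β f'
  obtain ⟨h, hh⟩ := hND β (fun i x => Z (i.1.map fun α : Set.Iio β => (f' α α.2, g α)) i.2.1 (g β)
    (max x i.2.2))
  obtain ⟨v, hv1, hv2⟩ := henv h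
  refine ⟨v, fun s N b => ?_⟩
  obtain ⟨x, hx⟩ := hh (s, N, b)
  refine ⟨max x b, le_max_right _ _, ?_⟩
  exact hx.le.trans ((hv2 x).trans (hv1 (le_max_left _ _)))

/-- The ultrafilter. -/
theorem exists_ultrafilter [Nonempty X] {Λ : Type*} [LinearOrder Λ] [WellFoundedLT Λ] (g : Λ → X → X)
    (hg : ∀ α, Monotone (g α)) (hg' : ∀ α x, x ≤ g α x)
    (henv : ∀ h : X → X, ∃ v : X → X, Monotone v ∧ ∀ x, h x ≤ v x)
    (hND : ∀ (β : Λ) (Φ : List (Set.Iio β) × ℕ × X → X → X), ∃ h : X → X, ∀ i, ∃ x, Φ i x < h x) :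
    ∃ 𝒱 : Ultrafilter X, ∀ α : Λ, ∃ f : X → X, ∀ A ∈ 𝒱, ∀ N, ¬ P A f (g α) N := by
  classical
  obtain ⟨f, hf⟩ := exists_f g henv hND
  -- every finite set of indices is bounded
  have hBd : ∀ (N : ℕ) (s : Finset Λ), ∃ t : List Λ, (∀ α, α ∈ s ↔ α ∈ t) ∧
      Bd (t.map fun α => (f α, g α)) N := by
    intro N s
    induction s using Finset.induction_on_max with
    | empty => exact ⟨[], by simp, bd_nil N⟩
    | insert β s hβ ih =>
      obtain ⟨t, ht1, ht2⟩ := ih
      refine ⟨β :: t, ?_, ?_⟩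
      · intro α
        rw [Finset.mem_insert, List.mem_cons, ht1]
      · rw [List.map_cons]
        apply bd_step ht2 (hg β) (hg' β)
        intro x
        have hmem : ∀ α ∈ t, α < β := fun α hα => hβ α ((ht1 α).2 hα)
        have ht' : ∃ t' : List (Set.Iio β), t'.map (fun α : Set.Iio β => (f α, g α))
            = t.map fun α => (f α, g α) := by
          refine ⟨t.attach.map fun α : {a // a ∈ t} => ⟨α.1, hmem α.1 α.2⟩, ?_⟩
          rw [List.map_map]
          conv_rhs => rw [← List.attach_map_subtype_val t, List.map_map]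
          rfl
        obtain ⟨t', ht'⟩ := ht'
        obtain ⟨y, hy1, hy2⟩ := hf β t' N x
        rw [ht'] at hy2
        exact ⟨y, hy1, hy2⟩
  let J : Set X → Prop := fun B => ∃ (s : Finset Λ) (N : ℕ) (A : Λ → Set X),
    (∀ α, P (A α) (f α) (g α) N) ∧ B ⊆ ⋃ α ∈ s, A α
  have hJempty : J ∅ := ⟨∅, 0, fun _ => ∅, fun α => P_empty _ _ _, Set.empty_subset _⟩
  have hJmono : ∀ t, J t → ∀ s ⊆ t, J s := by
    rintro t ⟨s', N, A, h1, h2⟩ s hs
    exact ⟨s', N, A, h1, hs.trans h2⟩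
  have hJunion : ∀ s, J s → ∀ t, J t → J (s ∪ t) := by
    rintro s ⟨s1, N1, A1, h1, h1'⟩ t ⟨s2, N2, A2, h2, h2'⟩
    refine ⟨s1 ∪ s2, N1 + N2, fun α => A1 α ∪ A2 α, fun α => P_union (h1 α) (h2 α), ?_⟩
    rintro x (hx | hx)
    · have := h1' hx
      simp only [Set.mem_iUnion] at this ⊢
      obtain ⟨α, hα, hx⟩ := this
      exact ⟨α, Finset.mem_union_left _ hα, Or.inl hx⟩
    · have := h2' hx
      simp only [Set.mem_iUnion] at this ⊢
      obtain ⟨α, hα, hx⟩ := this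
      exact ⟨α, Finset.mem_union_right _ hα, Or.inr hx⟩
  have hJuniv : ¬ J Set.univ := by
    rintro ⟨s, N, A, h1, h2⟩
    obtain ⟨t, ht1, ht2⟩ := hBd N s
    have hcov : ∀ t : List Λ, Cov (t.map fun α => (f α, g α)) N (⋃ α ∈ t, A α) := by
      intro t
      induction t with
      | nil => simp [Cov]
      | cons β t ih =>
        refine ⟨A β, _, h1 β, ih, ?_⟩
        ext x; simp
    obtain ⟨x⟩ := ‹Nonempty X›
    obtain ⟨z, hz⟩ := ht2 x
    obtain ⟨p, -, -, hp⟩ := hz _ (hcov t)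
    apply hp
    have := h2 (Set.mem_univ p)
    simp only [Set.mem_iUnion] at this ⊢
    obtain ⟨α, hα, hp⟩ := this
    exact ⟨α, (ht1 α).1 hα, hp⟩
  let F : Filter X := Filter.comk J hJempty hJmono hJunion
  have : F.NeBot := by
    rw [Filter.neBot_iff]
    intro hF
    have : (∅ : Set X) ∈ F := by rw [hF]; exact Filter.mem_bot
    rw [Filter.mem_comk, Set.compl_empty] at this
    exact hJuniv this
  refine ⟨Ultrafilter.of F, fun α => ⟨f α, fun A hA N hP => ?_⟩⟩
  have h1 : J A := ⟨{α}, N, fun β => if β = α then A else ∅, fun β => by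
    by_cases hβ : β = α
    · subst hβ; simpa using hP
    · simpa [hβ] using P_empty _ _ _, by
      intro x hx
      simp only [Set.mem_iUnion]
      exact ⟨α, Finset.mem_singleton_self _, by simpa using hx⟩⟩
  have h2 : Aᶜ ∈ F := by
    rw [Filter.mem_comk, compl_compl]; exact h1
  have h3 : Aᶜ ∈ Ultrafilter.of F := Ultrafilter.of_le F h2
  exact (Ultrafilter.compl_notMem_iff.2 hA) h3

end Main

end Pool.Agent.H87.CloneA
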