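import Pool.Agent.H87.CloneA

/-!
The well-order of a regular cardinal, and the ultrafilter without generating functions.
-/

set_option autoImplicit false

namespace Pool.Agent.H87.CloneB

open Cardinal Pool.Agent.H87.CloneA

universe u

section Order

variable {X : Type u} [LinearOrder X] [WellFoundedLT X]

/-- Standing hypotheses: `X` has regular cardinality and proper initial segments are small. -/
structure Reg (X : Type u) [LinearOrder X] : Prop where
  reg : (Cardinal.mk X).IsRegular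
  small : ∀ a : X, Cardinal.mk (Set.Iio a) < Cardinal.mk X

lemma Reg.aleph0_le (h : Reg X) : ℵ₀ ≤ Cardinal.mk X := h.reg.aleph0_le

lemma Reg.small' (h : Reg X) (a : X) : Cardinal.mk (Set.Iic a) < Cardinal.mk X := by
  have h1 : Set.Iic a ⊆ insert a (Set.Iio a) := by
    intro x hx
    rcases lt_or_eq_of_le (Set.mem_Iic.1 hx) with h | h
    · exact Or.inr h
    · exact Or.inl h
  refine (Cardinal.mk_le_mk_of_subset h1).trans_lt ?_
  refine (Cardinal.mk_insert_le).trans_lt ?_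
  exact Cardinal.add_lt_of_lt h.aleph0_le (h.small a)
    (Cardinal.one_lt_aleph0.trans_le h.aleph0_le)

lemma Reg.noMax (h : Reg X) : NoMaxOrder X := by
  refine ⟨fun a => ?_⟩
  by_contra hcon
  push Not at hcon
  have : Set.Iic a = Set.univ := Set.eq_univ_of_forall hcon
  have h2 := h.small' a
  rw [this, Cardinal.mk_univ] at h2
  exact lt_irrefl _ h2

lemma Reg.bounded (h : Reg X) {ι : Type u} (hι : Cardinal.mk ι < Cardinal.mk X) (k : ι → X) :
    ∃ b, ∀ i, k i ≤ b := by
  by_contra hcon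
  push Not at hcon
  have h1 : (⋃ i, Set.Iio (k i)) = Set.univ := by
    rw [Set.eq_univ_iff_forall]
    intro b
    obtain ⟨i, hi⟩ := hcon b
    exact Set.mem_iUnion.2 ⟨i, hi⟩
  have h2 := (Cardinal.card_iUnion_lt_iff_forall_of_isRegular h.reg hι).2
    (fun i => h.small (k i))
  rw [h1, Cardinal.mk_univ] at h2
  exact lt_irrefl _ h2

lemma Reg.bounded_op (h : Reg X) (n : ℕ) (a : X) (k : (Fin n → X) → X) :
    ∃ b, ∀ x : Fin n → X, (∀ i, x i ≤ a) → k x ≤ b := by
  have h1 : Cardinal.mk (Fin n → Set.Iic a) < Cardinal.mk X := by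
    have h0 : Cardinal.mk (Fin n → Set.Iic a) = Cardinal.mk (Set.Iic a) ^ (n : Cardinal.{u}) := by
      simp
    rw [h0]
    rcases lt_or_ge (Cardinal.mk (Set.Iic a)) ℵ₀ with h2 | h2
    · exact (Cardinal.power_lt_aleph0 h2 Cardinal.natCast_lt_aleph0).trans_le h.aleph0_le
    · exact (Cardinal.power_nat_le h2).trans_lt (h.small' a)
  obtain ⟨b, hb⟩ := h.bounded h1 (fun x => k (fun i => (x i : X)))
  exact ⟨b, fun x hx => hb (fun i => ⟨x i, hx i⟩)⟩

lemma Reg.bounded_fun (h : Reg X) (a : X) (k : X → X) : ∃ b, ∀ x ≤ a, k x ≤ b := by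
  obtain ⟨b, hb⟩ := h.bounded (h.small' a) (fun x => k (x : X))
  exact ⟨b, fun x hx => hb ⟨x, hx⟩⟩

/-- Monotone inflationary envelope of a function. -/
lemma Reg.envelope (h : Reg X) (k : X → X) :
    ∃ v : X → X, Monotone v ∧ (∀ x, x ≤ v x) ∧ ∀ x, k x ≤ v x := by
  classical
  have hb : ∀ a, ∃ b, (∀ x ≤ a, k x ≤ b) ∧ a ≤ b := by
    intro a
    obtain ⟨b, hb⟩ := h.bounded_fun a k
    exact ⟨max a b, fun x hx => (hb x hx).trans (le_max_right _ _), le_max_left _ _⟩
  let S : X → Set X := fun a => {b | (∀ x ≤ a, k x ≤ b) ∧ a ≤ b}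
  have hS : ∀ a, (S a).Nonempty := hb
  let v : X → X := fun a => (wellFounded_lt (α := X)).min (S a) (hS a)
  have hv : ∀ a, v a ∈ S a := fun a => WellFounded.min_mem _ _ _
  refine ⟨v, ?_, fun a => (hv a).2, fun a => (hv a).1 a le_rfl⟩
  intro a a' haa'
  have hmem : v a' ∈ S a :=
    ⟨fun x hx => (hv a').1 x (hx.trans haa'), haa'.trans (hv a').2⟩
  exact not_lt.1 ((wellFounded_lt (α := X)).not_lt_min (S a) hmem)

/-- An everywhere dominating family has more than `#X` members. -/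
lemma Reg.lt_of_dominating (h : Reg X) {ι : Type u} (g : ι → X → X)
    (hdom : ∀ k : X → X, ∃ i, ∀ x, k x ≤ g i x) : Cardinal.mk X < Cardinal.mk ι := by
  classical
  have := h.noMax
  by_contra hcon
  rw [not_lt] at hcon
  obtain ⟨e⟩ := (Cardinal.le_def _ _).1 hcon
  have h1 : ∀ x : X, ∃ b, ∀ i, e i ≤ x → g i x < b := by
    intro x
    have hc : Cardinal.mk {i // e i ≤ x} < Cardinal.mk X := by
      refine lt_of_le_of_lt ?_ (h.small' x)
      exact Cardinal.mk_le_of_injective (f := fun i : {i // e i ≤ x} => (⟨e i.1, i.2⟩ : Set.Iic x))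
        (fun i j hij => Subtype.ext (e.injective (congrArg Subtype.val hij)))
    obtain ⟨b, hb⟩ := h.bounded hc (fun i => g i.1 x)
    obtain ⟨b', hb'⟩ := exists_gt b
    exact ⟨b', fun i hi => (hb ⟨i, hi⟩).trans_lt hb'⟩
  choose k hk using h1
  obtain ⟨i, hi⟩ := hdom k
  exact absurd (hi (e i)) (not_le.2 (hk (e i) i le_rfl))

/-- The ultrafilter without generating functions. -/
theorem Reg.exists_ultrafilter (h : Reg X) :
    ∃ 𝒱 : Ultrafilter X, ∀ g : X → X, ∃ f : X → X, ∀ A ∈ 𝒱, ∀ N, ¬ P A f g N := by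
  classical
  have := h.noMax
  have hne : Nonempty X := by
    rw [← Cardinal.mk_ne_zero_iff]
    intro e
    have := h.aleph0_le
    rw [e] at this
    exact absurd this (not_le.2 Cardinal.aleph0_pos)
  let S : Set Cardinal.{u} := {c | ∃ (ι : Type u) (g : ι → X → X), Cardinal.mk ι = c ∧
    ∀ k : X → X, ∃ i, ∀ x, k x ≤ g i x}
  have hS : S.Nonempty := ⟨_, X → X, id, rfl, fun k => ⟨k, fun x => le_rfl⟩⟩
  obtain ⟨ι, g0, hι, hdom⟩ := csInf_mem hS
  set lam : Cardinal.{u} := sInf S with hlam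
  have hmin : ∀ (ι' : Type u) (g' : ι' → X → X), (∀ k : X → X, ∃ i, ∀ x, k x ≤ g' i x) →
      lam ≤ Cardinal.mk ι' := fun ι' g' hg' => csInf_le' ⟨ι', g', rfl, hg'⟩
  have hlamX : Cardinal.mk X < lam := by rw [← hι]; exact h.lt_of_dominating g0 hdom
  have hlam0 : ℵ₀ ≤ lam := h.aleph0_le.trans hlamX.le
  -- index by the well-order of type `lam.ord`
  obtain ⟨e⟩ : Nonempty (lam.ord.ToType ≃ ι) := by
    rw [← Cardinal.eq, Cardinal.mk_ord_toType, hι]
  choose v hv1 hv2 hv3 using fun i => h.envelope (g0 i)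
  have hexu := CloneA.exists_ultrafilter (X := X) (Λ := lam.ord.ToType) (fun α => v (e α))
    (fun α => hv1 _) (fun α => hv2 _)
    (fun k => by
      obtain ⟨w, hw1, -, hw3⟩ := h.envelope k
      exact ⟨w, hw1, hw3⟩)
    (by
      intro β Φ
      by_contra hcon
      push Not at hcon
      have h1 := hmin _ Φ hcon
      refine absurd h1 (not_le.2 ?_)
      rw [Cardinal.mk_prod, Cardinal.mk_prod]
      simp only [Cardinal.lift_id, Cardinal.mk_nat, Cardinal.lift_uzero]
      refine Cardinal.mul_lt_of_lt hlam0 ?_ (Cardinal.mul_lt_of_lt hlam0 ?_ hlamX)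
      · refine (Cardinal.mk_list_le_max _).trans_lt (max_lt ?_ (Cardinal.mk_Iio_toType_ord_lt β))
        exact h.aleph0_le.trans_lt hlamX
      · simpa using h.aleph0_le.trans_lt hlamX)
  obtain ⟨𝒱, hV⟩ := hexu
  refine ⟨𝒱, fun g => ?_⟩
  obtain ⟨i, hi⟩ := hdom g
  obtain ⟨f, hf⟩ := hV (e.symm i)
  refine ⟨f, fun A hA N hP => hf A hA N (P_mono_g hP fun x => ?_)⟩
  rw [Equiv.apply_symm_apply]
  exact (hi x).trans (hv3 i x)

end Order

end Pool.Agent.H87.CloneB
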