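import Mathlib

/-!
Colouring theorem for locally commutative actions of free groups.
-/

set_option autoImplicit false

namespace Pool.Agent.H87.Col

open FreeGroup

section Words

variable {X : Type*}

/-- The inverse letter. -/
def linv (l : X × Bool) : X × Bool := (l.1, !l.2)

@[simp] lemma linv_linv (l : X × Bool) : linv (linv l) = l := by
  simp [linv]

lemma linv_injective : Function.Injective (linv : X × Bool → X × Bool) := by
  intro a b h
  have := congrArg linv h
  simpa using this

/-- two adjacent letters do not cancel. -/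
def jOK (a b : X × Bool) : Prop := a.1 = b.1 → a.2 = b.2

lemma jOK_iff (a b : X × Bool) : jOK a b ↔ a ≠ linv b := by
  obtain ⟨a1, a2⟩ := a
  obtain ⟨b1, b2⟩ := b
  simp only [jOK, linv, ne_eq, Prod.mk.injEq, not_and]
  constructor
  · intro h h1 h2
    have := h h1
    cases b2 <;> simp_all
  · intro h h1
    have := h h1
    cases a2 <;> cases b2 <;> simp_all

lemma mk_linv (l : X × Bool) : (FreeGroup.mk [linv l] : FreeGroup X) = (FreeGroup.mk [l])⁻¹ := by
  simp [linv, FreeGroup.inv_mk, FreeGroup.invRev]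

lemma red_append {A B : List (X × Bool)} (hA : IsReduced A) (hB : IsReduced B)
    (h : ∀ a ∈ A.getLast?, ∀ b ∈ B.head?, jOK a b) : IsReduced (A ++ B) := by
  rw [FreeGroup.IsReduced, List.isChain_append]
  exact ⟨hA, hB, h⟩

lemma red_cons {a : X × Bool} {B : List (X × Bool)} (hB : IsReduced B)
    (h : ∀ b ∈ B.head?, jOK a b) : IsReduced (a :: B) := by
  have := red_append (A := [a]) IsReduced.singleton hB (by simpa using h)
  simpa using this

lemma red_mid {A B C U : List (X × Bool)} (h : IsReduced U) (e : A ++ B ++ C = U) :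
    IsReduced B := by
  subst e
  rw [FreeGroup.IsReduced, List.isChain_append] at h
  have h1 := h.1
  rw [List.isChain_append] at h1
  exact h1.2.1

lemma red_of_cons {a : X × Bool} {B : List (X × Bool)} (h : IsReduced (a :: B)) : IsReduced B :=
  red_mid (A := [a]) (C := []) h (by simp)

lemma red_unique {A B : List (X × Bool)} (hA : IsReduced A) (hB : IsReduced B)
    (h : FreeGroup.mk A = FreeGroup.mk B) : A = B := by
  classical
  have := FreeGroup.reduce.sound h
  rwa [hA.reduce_eq, hB.reduce_eq] at this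

lemma red_invRev {A : List (X × Bool)} (hA : IsReduced A) : IsReduced (invRev A) := by
  classical
  rw [isReduced_iff_reduce_eq, FreeGroup.reduce_invRev, hA.reduce_eq]

lemma head?_invRev (A : List (X × Bool)) : (invRev A).head? = A.getLast?.map linv := by
  simp only [invRev, List.head?_reverse, List.getLast?_map]
  rfl

lemma getLast?_invRev (A : List (X × Bool)) : (invRev A).getLast? = A.head?.map linv := by
  simp only [invRev, List.getLast?_reverse, List.head?_map]
  rfl

end Words

section Act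

variable {X Ω K : Type*} [MulAction (FreeGroup X) Ω]

lemma mk_cons_smul (l : X × Bool) (L : List (X × Bool)) (ω : Ω) :
    (FreeGroup.mk (l :: L) : FreeGroup X) • ω
      = (FreeGroup.mk [l] : FreeGroup X) • (FreeGroup.mk L : FreeGroup X) • ω := by
  rw [← mul_smul, FreeGroup.mul_mk]
  rfl

lemma mk_append_smul (L L' : List (X × Bool)) (ω : Ω) :
    (FreeGroup.mk (L ++ L') : FreeGroup X) • ω
      = (FreeGroup.mk L : FreeGroup X) • (FreeGroup.mk L' : FreeGroup X) • ω := by
  rw [← mul_smul, FreeGroup.mul_mk]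

lemma mk_nil_smul (ω : Ω) : (FreeGroup.mk [] : FreeGroup X) • ω = ω := by
  rw [← FreeGroup.one_eq_mk, one_smul]

lemma linv_smul_smul (l : X × Bool) (ω : Ω) :
    (FreeGroup.mk [linv l] : FreeGroup X) • (FreeGroup.mk [l] : FreeGroup X) • ω = ω := by
  rw [mk_linv, inv_smul_smul]

lemma smul_linv_smul (l : X × Bool) (ω : Ω) :
    (FreeGroup.mk [l] : FreeGroup X) • (FreeGroup.mk [linv l] : FreeGroup X) • ω = ω := by
  rw [mk_linv, smul_inv_smul]

/-- From each point outside `S`, all reduced words leading into `S` start (at the right end) with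
the same letter. -/
def Dir (X : Type*) {Ω : Type*} [MulAction (FreeGroup X) Ω] (S : Set Ω) : Prop :=
  ∀ y, y ∉ S → ∀ L L' : List (X × Bool), IsReduced L → IsReduced L' →
    (FreeGroup.mk L : FreeGroup X) • y ∈ S → (FreeGroup.mk L' : FreeGroup X) • y ∈ S →
    L.getLast? = L'.getLast?

lemma dir_insert {S : Set Ω} (hS : Dir X S) {y' : Ω} {l : X × Bool}
    (hl : (FreeGroup.mk [l] : FreeGroup X) • y' ∈ S) : Dir X (insert y' S) := by
  have key : ∀ y, y ∉ insert y' S → ∀ L : List (X × Bool), IsReduced L →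
      (FreeGroup.mk L : FreeGroup X) • y ∈ insert y' S →
      ∃ L₁ : List (X × Bool), IsReduced L₁ ∧ (FreeGroup.mk L₁ : FreeGroup X) • y ∈ S ∧
        L₁.getLast? = L.getLast? := by
    intro y hy L hL hLy
    rw [Set.mem_insert_iff, not_or] at hy
    rcases (Set.mem_insert_iff.1 hLy) with h | h
    · cases L with
      | nil => rw [mk_nil_smul] at h; exact absurd h hy.1
      | cons a L'' =>
        by_cases hj : jOK l a
        · refine ⟨l :: a :: L'', red_cons hL (by simpa using hj), ?_, by simp⟩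
          rw [mk_cons_smul, h]; exact hl
        · rw [jOK_iff, not_not] at hj
          have ha : a = linv l := by rw [hj, linv_linv]
          subst ha
          refine ⟨L'', red_of_cons hL, ?_, ?_⟩
          · rw [mk_cons_smul] at h
            rw [← h, smul_linv_smul] at hl
            exact hl
          · cases L'' with
            | nil =>
              rw [mk_cons_smul, mk_nil_smul] at h
              rw [← h, smul_linv_smul] at hl
              exact absurd hl hy.2
            | cons b M => simp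
    · exact ⟨L, hL, h, rfl⟩
  intro y hy L L' hL hL' h h'
  obtain ⟨L₁, h1, h2, h3⟩ := key y hy L hL h
  obtain ⟨L₂, h4, h5, h6⟩ := key y hy L' hL' h'
  rw [← h3, ← h6]
  exact hS y (fun hh => hy (Set.mem_insert_of_mem _ hh)) L₁ L₂ h1 h4 h2 h5

lemma trim {Z : Set Ω} : ∀ (L : List (X × Bool)) (y : Ω), y ∉ Z → IsReduced L →
    (FreeGroup.mk L : FreeGroup X) • y ∈ Z →
    ∃ (a : X × Bool) (L₁ : List (X × Bool)), IsReduced (a :: L₁) ∧
      (FreeGroup.mk (a :: L₁) : FreeGroup X) • y ∈ Z ∧
      (FreeGroup.mk L₁ : FreeGroup X) • y ∉ Z ∧ (a :: L₁).getLast? = L.getLast? := by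
  intro L
  induction L with
  | nil => intro y hy _ h; rw [mk_nil_smul] at h; exact absurd h hy
  | cons a L ih =>
    intro y hy hL h
    by_cases h' : (FreeGroup.mk L : FreeGroup X) • y ∈ Z
    · obtain ⟨b, L₁, h1, h2, h3, h4⟩ := ih y hy (red_of_cons hL) h'
      refine ⟨b, L₁, h1, h2, h3, ?_⟩
      rw [h4]
      cases L with
      | nil => rw [mk_nil_smul] at h'; exact absurd h' hy
      | cons c M => simp
    · exact ⟨a, L, hL, h, h', rfl⟩

/-- A set all of whose points lie on closed reduced loops whose first and last steps stay in the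
set, has the direction property, if point stabilisers are commutative. -/
lemma dir_core {Z : Set Ω}
    (hc : ∀ (z : Ω) (g h : FreeGroup X), g • z = z → h • z = z → g * h = h * g)
    (hP : ∀ z ∈ Z, ∃ (U : List (X × Bool)) (h s : X × Bool), IsReduced U ∧
      (FreeGroup.mk U : FreeGroup X) • z = z ∧ U.head? = some h ∧ U.getLast? = some s ∧
      (FreeGroup.mk [linv h] : FreeGroup X) • z ∈ Z ∧ (FreeGroup.mk [s] : FreeGroup X) • z ∈ Z) :
    Dir X Z := by
  have key : ∀ y, y ∉ Z → ∀ L : List (X × Bool), IsReduced L →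
      (FreeGroup.mk L : FreeGroup X) • y ∈ Z → ∃ (V : List (X × Bool)) (l : X × Bool),
        IsReduced V ∧ (FreeGroup.mk V : FreeGroup X) • y = y ∧ V.getLast? = some l ∧
        V.head? = some (linv l) ∧ L.getLast? = some l := by
    intro y hy L hL hLy
    obtain ⟨a, L₁, h1, h2, h3, h4⟩ := trim L y hy hL hLy
    obtain ⟨U, h, s, hU, hUz, hh, hs, hhZ, hsZ⟩ := hP _ h2
    have hz : (FreeGroup.mk [linv a] : FreeGroup X) • (FreeGroup.mk (a :: L₁) : FreeGroup X) • y
        = (FreeGroup.mk L₁ : FreeGroup X) • y := by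
      rw [mk_cons_smul a L₁, linv_smul_smul]
    have hsa : s ≠ linv a := by
      rintro rfl
      rw [hz] at hsZ; exact h3 hsZ
    have hha : linv h ≠ linv a := by
      intro e
      rw [e, hz] at hhZ; exact h3 hhZ
    obtain ⟨l, hl⟩ : ∃ l, (a :: L₁).getLast? = some l := by
      simp [List.getLast?_cons]
    have hVr : IsReduced (invRev (a :: L₁) ++ (U ++ (a :: L₁))) := by
      refine red_append (red_invRev h1) (red_append hU h1 ?_) ?_
      · intro x hx b hb
        rw [hs] at hx
        simp only [List.head?_cons, Option.mem_def, Option.some.injEq] at hx hb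
        subst hx; subst hb
        rw [jOK_iff]; exact hsa
      · intro x hx b hb
        rw [getLast?_invRev] at hx
        have hU0 : U ≠ [] := by rintro rfl; simp at hh
        rw [List.head?_append_of_ne_nil _ hU0, hh] at hb
        simp only [List.head?_cons, Option.map_some, Option.mem_def, Option.some.injEq] at hx hb
        subst hx; subst hb
        rw [jOK_iff]
        exact fun e => hha e.symm
    refine ⟨_, l, hVr, ?_, ?_, ?_, ?_⟩
    · rw [mk_append_smul, mk_append_smul, hUz, ← FreeGroup.inv_mk, inv_smul_smul]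
    · rw [List.getLast?_append, List.getLast?_append, hl]; simp
    · rw [List.head?_append, head?_invRev, hl]; simp
    · rw [← h4, hl]
  intro y hy L L' hL hL' h h'
  obtain ⟨V, l, hV1, hV2, hV3, hV4, hV5⟩ := key y hy L hL h
  obtain ⟨V', l', hV1', hV2', hV3', hV4', hV5'⟩ := key y hy L' hL' h'
  rw [hV5, hV5']
  by_contra hne
  have hne' : l ≠ l' := fun e => hne (by rw [e])
  have hcomm := hc y _ _ hV2 hV2'
  rw [FreeGroup.mul_mk, FreeGroup.mul_mk] at hcomm
  have e := red_unique (red_append hV1 hV1' ?_) (red_append hV1' hV1 ?_) hcomm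
  · have e' := congrArg List.getLast? e
    rw [List.getLast?_append, List.getLast?_append, hV3, hV3'] at e'
    simp at e'
    exact hne' e'.symm
  · intro a ha b hb
    rw [hV3] at ha; rw [hV4'] at hb
    simp only [Option.mem_def, Option.some.injEq] at ha hb
    subst ha; subst hb
    rw [jOK_iff, linv_linv]; exact hne'
  · intro a ha b hb
    rw [hV3'] at ha; rw [hV4] at hb
    simp only [Option.mem_def, Option.some.injEq] at ha hb
    subst ha; subst hb
    rw [jOK_iff, linv_linv]; exact hne'.symm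

variable (R : X × Bool → K → K → Prop)

/-- A consistent partial colouring (as a functional relation) with the direction property. -/
structure Good (G : Set (Ω × K)) : Prop where
  func : ∀ ω k k', (ω, k) ∈ G → (ω, k') ∈ G → k = k'
  dir : Dir X {ω : Ω | ∃ k, (ω, k) ∈ G}
  cons : ∀ ω k l k', (ω, k) ∈ G → ((FreeGroup.mk [l] : FreeGroup X) • ω, k') ∈ G → R l k k'

variable {R}

lemma good_union {G G' : Set (Ω × K)} (hG : Good R G) (hG' : Good R G')
    (hd : ∀ ω k ω' k', (ω, k) ∈ G → (ω', k') ∈ G' → ∀ g : FreeGroup X, g • ω ≠ ω') :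
    Good R (G ∪ G') := by
  have hd' : ∀ ω k ω' k', (ω, k) ∈ G' → (ω', k') ∈ G → ∀ g : FreeGroup X, g • ω ≠ ω' := by
    intro ω k ω' k' h1 h2 g hg
    apply hd ω' k' ω k h2 h1 g⁻¹
    rw [← hg, inv_smul_smul]
  refine ⟨?_, ?_, ?_⟩
  · intro ω k k' h h'
    rcases h with h | h <;> rcases h' with h' | h'
    · exact hG.func _ _ _ h h'
    · exact absurd (one_smul _ _) (hd _ _ _ _ h h' 1)
    · exact absurd (one_smul _ _) (hd' _ _ _ _ h h' 1)
    · exact hG'.func _ _ _ h h'
  · intro y hy L L' hL hL' h h'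
    have hy1 : y ∉ {ω : Ω | ∃ k, (ω, k) ∈ G} := by
      rintro ⟨k, hk⟩; exact hy ⟨k, Or.inl hk⟩
    have hy2 : y ∉ {ω : Ω | ∃ k, (ω, k) ∈ G'} := by
      rintro ⟨k, hk⟩; exact hy ⟨k, Or.inr hk⟩
    obtain ⟨k, hk⟩ := h
    obtain ⟨k', hk'⟩ := h'
    have aux : ∀ (A B : List (X × Bool)),
        ((FreeGroup.mk B : FreeGroup X) * (FreeGroup.mk A)⁻¹) • (FreeGroup.mk A : FreeGroup X) • y
          = (FreeGroup.mk B : FreeGroup X) • y := by
      intro A B
      rw [mul_smul, inv_smul_smul]
    rcases hk with hk | hk <;> rcases hk' with hk' | hk'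
    · exact hG.dir y hy1 L L' hL hL' ⟨k, hk⟩ ⟨k', hk'⟩
    · exact absurd (aux L L') (hd _ _ _ _ hk hk' _)
    · exact absurd (aux L L') (hd' _ _ _ _ hk hk' _)
    · exact hG'.dir y hy2 L L' hL hL' ⟨k, hk⟩ ⟨k', hk'⟩
  · intro ω k l k' h h'
    rcases h with h | h <;> rcases h' with h' | h'
    · exact hG.cons _ _ _ _ h h'
    · exact absurd rfl (hd _ _ _ _ h h' _)
    · exact absurd rfl (hd' _ _ _ _ h h' _)
    · exact hG'.cons _ _ _ _ h h'

/-- Extension of a good partial colouring by a neighbouring point. -/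
lemma good_insert {G : Set (Ω × K)} (hG : Good R G)
    (hsymm : ∀ l k k', R l k k' → R (linv l) k' k)
    (htot : ∀ l k, ∃ k', R l k k')
    {y : Ω} (hy : ∀ k, (y, k) ∉ G) {l : X × Bool} {kz : K}
    (hl : ((FreeGroup.mk [l] : FreeGroup X) • y, kz) ∈ G) :
    ∃ k, Good R (insert (y, k) G) := by
  obtain ⟨k, hk⟩ := htot (linv l) kz
  have hk' : R l k kz := by simpa using hsymm _ _ _ hk
  have hdom : {ω : Ω | ∃ k', (ω, k') ∈ insert (y, k) G}
      = insert y {ω : Ω | ∃ k, (ω, k) ∈ G} := by
    ext ω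
    simp only [Set.mem_insert_iff, Prod.mk.injEq, Set.mem_ofPred_eq]
    constructor
    · rintro ⟨k', h | h⟩
      · exact Or.inl h.1
      · exact Or.inr ⟨k', h⟩
    · rintro (h | ⟨k', h⟩)
      · exact ⟨k, Or.inl ⟨h, rfl⟩⟩
      · exact ⟨k', Or.inr h⟩
  have hy' : y ∉ {ω : Ω | ∃ k, (ω, k) ∈ G} := by rintro ⟨k, h⟩; exact hy k h
  -- uniqueness of the letter into the domain
  have huniq : ∀ l' : X × Bool, (∃ k', ((FreeGroup.mk [l'] : FreeGroup X) • y, k') ∈ G) → l' = l := by
    intro l' h'
    have := hG.dir y hy' [l'] [l] IsReduced.singleton IsReduced.singleton h' ⟨kz, hl⟩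
    simpa using this
  have hnoloop : ∀ l' : X × Bool, (FreeGroup.mk [l'] : FreeGroup X) • y ≠ y := by
    intro l' e
    by_cases hj : jOK l l'
    · have hred : IsReduced [l, l'] := red_cons IsReduced.singleton (by simpa using hj)
      have := hG.dir y hy' [l] [l, l'] IsReduced.singleton hred ⟨kz, hl⟩
        ⟨kz, by rw [mk_cons_smul, e]; exact hl⟩
      simp at this
      subst this
      rw [e] at hl
      exact hy _ hl
    · rw [jOK_iff, not_not] at hj
      subst hj
      have : (FreeGroup.mk [linv l'] : FreeGroup X) • y = y := by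
        conv_lhs => rw [← e]
        rw [linv_smul_smul]
      rw [this] at hl
      exact hy _ hl
  refine ⟨k, ?_, ?_, ?_⟩
  · intro ω k1 k2 h1 h2
    simp only [Set.mem_insert_iff, Prod.mk.injEq] at h1 h2
    rcases h1 with ⟨h1, h1'⟩ | h1 <;> rcases h2 with ⟨h2, h2'⟩ | h2
    · rw [h1', h2']
    · subst h1; exact absurd h2 (hy _)
    · subst h2; exact absurd h1 (hy _)
    · exact hG.func _ _ _ h1 h2
  · rw [hdom]
    exact dir_insert hG.dir (l := l) ⟨kz, hl⟩
  · intro ω k1 l1 k2 h1 h2
    simp only [Set.mem_insert_iff, Prod.mk.injEq] at h1 h2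
    rcases h1 with ⟨h1, h1'⟩ | h1 <;> rcases h2 with ⟨h2, h2'⟩ | h2
    · subst h1
      exact absurd h2 (hnoloop l1)
    · subst h1
      have e := huniq l1 ⟨k2, h2⟩
      subst e
      rw [h1', hG.func _ _ _ h2 hl]
      exact hk'
    · have e1 : ω = (FreeGroup.mk [linv l1] : FreeGroup X) • y := by
        rw [← h2, linv_smul_smul]
      rw [e1] at h1
      have e := huniq (linv l1) ⟨k1, h1⟩
      rw [e] at h1
      have e2 := hG.func _ _ _ h1 hl
      rw [h2', e2]
      have e3 : l1 = linv l := by rw [← e, linv_linv]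
      rw [e3]
      exact hk
    · exact hG.cons _ _ _ _ h1 h2

/-- The good partial colouring of a single free orbit point. -/
lemma good_single {y : Ω} (hy : ∀ g : FreeGroup X, g • y = y → g = 1) (k : K) :
    Good R ({(y, k)} : Set (Ω × K)) := by
  refine ⟨?_, ?_, ?_⟩
  · intro ω k1 k2 h1 h2
    simp only [Set.mem_singleton_iff, Prod.mk.injEq] at h1 h2
    rw [h1.2, h2.2]
  · intro w _ L L' hL hL' h h'
    obtain ⟨k1, h1⟩ := h
    obtain ⟨k2, h2⟩ := h'
    simp only [Set.mem_singleton_iff, Prod.mk.injEq] at h1 h2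
    have e : ((FreeGroup.mk L : FreeGroup X) * (FreeGroup.mk L')⁻¹) • y = y := by
      nth_rewrite 1 [← h2.1]
      rw [mul_smul, inv_smul_smul, h1.1]
    have e' := hy _ e
    rw [mul_inv_eq_one] at e'
    rw [red_unique hL hL' e']
  · intro ω k1 l k2 h1 h2
    simp only [Set.mem_singleton_iff, Prod.mk.injEq] at h1 h2
    obtain ⟨h1, -⟩ := h1
    subst h1
    have e := hy _ h2.1
    rw [FreeGroup.one_eq_mk] at e
    have := red_unique IsReduced.singleton IsReduced.nil e
    simp at this

/-- General criterion: a functional set of coloured points, each on a reduced loop staying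
(at its ends) in the set and consistent there, is good. -/
lemma good_of_loops {G : Set (Ω × K)}
    (hc : ∀ (z : Ω) (g h : FreeGroup X), g • z = z → h • z = z → g * h = h * g)
    (hsymm : ∀ l k k', R l k k' → R (linv l) k' k)
    (hfunc : ∀ ω k k', (ω, k) ∈ G → (ω, k') ∈ G → k = k')
    (hP : ∀ ω k, (ω, k) ∈ G → ∃ (U : List (X × Bool)) (h s : X × Bool) (k₁ k₂ : K),
      IsReduced U ∧ (FreeGroup.mk U : FreeGroup X) • ω = ω ∧ U.head? = some h ∧
      U.getLast? = some s ∧ ((FreeGroup.mk [s] : FreeGroup X) • ω, k₁) ∈ G ∧ R s k k₁ ∧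
      ((FreeGroup.mk [linv h] : FreeGroup X) • ω, k₂) ∈ G ∧ R (linv h) k k₂) :
    Good R G := by
  refine ⟨hfunc, ?_, ?_⟩
  · apply dir_core hc
    rintro z ⟨k, hk⟩
    obtain ⟨U, h, s, k₁, k₂, hU, hUz, hh, hs, h1, -, h2, -⟩ := hP z k hk
    exact ⟨U, h, s, hU, hUz, hh, hs, ⟨k₂, h2⟩, ⟨k₁, h1⟩⟩
  · intro ω k l k' h1 h2
    obtain ⟨U, h, s, k₁, k₂, hU, hUz, hh, hs, hs1, hs2, hh1, hh2⟩ := hP _ _ h1
    obtain ⟨U', h', s', k₁', k₂', hU', hUz', hh', hs', hs1', hs2', hh1', hh2'⟩ := hP _ _ h2
    by_cases e1 : l = s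
    · subst e1
      rw [hfunc _ _ _ h2 hs1]; exact hs2
    by_cases e2 : l = linv h
    · subst e2
      rw [hfunc _ _ _ h2 hh1]; exact hh2
    by_cases e3 : s' = linv l
    · subst e3
      rw [linv_smul_smul] at hs1'
      rw [← hfunc _ _ _ h1 hs1'] at hs2'
      simpa using hsymm _ _ _ hs2'
    by_cases e4 : linv h' = linv l
    · rw [e4, linv_smul_smul] at hh1'
      rw [← hfunc _ _ _ h1 hh1', e4] at hh2'
      simpa using hsymm _ _ _ hh2'
    exfalso
    have hU0 : U' ≠ [] := by rintro rfl; simp at hh'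
    have hV : IsReduced ([linv l] ++ (U' ++ [l])) := by
      refine red_append IsReduced.singleton (red_append hU' IsReduced.singleton ?_) ?_
      · intro a ha b hb
        rw [hs'] at ha
        simp only [List.head?_cons, Option.mem_def, Option.some.injEq] at ha hb
        subst ha; subst hb
        rw [jOK_iff]; exact e3
      · intro a ha b hb
        rw [List.head?_append_of_ne_nil _ hU0, hh'] at hb
        simp only [List.getLast?_singleton, Option.mem_def, Option.some.injEq] at ha hb
        subst ha; subst hb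
        rw [jOK_iff]; exact fun e => e4 e.symm
    have hVz : (FreeGroup.mk ([linv l] ++ (U' ++ [l])) : FreeGroup X) • ω = ω := by
      rw [mk_append_smul, mk_append_smul, hUz', linv_smul_smul]
    have hVl : ([linv l] ++ (U' ++ [l])).getLast? = some l := by
      rw [← List.append_assoc, List.getLast?_append]; simp
    have hVh : ([linv l] ++ (U' ++ [l])).head? = some (linv l) := by simp
    generalize [linv l] ++ (U' ++ [l]) = V at hV hVz hVl hVh
    have hcomm := hc ω _ _ hVz hUz
    rw [FreeGroup.mul_mk, FreeGroup.mul_mk] at hcomm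
    have e := red_unique (red_append hV hU ?_) (red_append hU hV ?_) hcomm
    · have e' := congrArg List.getLast? e
      rw [List.getLast?_append, List.getLast?_append, hVl, hs] at e'
      simp at e'
      exact e1 e'.symm
    · intro a ha b hb
      rw [hVl] at ha; rw [hh] at hb
      simp only [Option.mem_def, Option.some.injEq] at ha hb
      subst ha; subst hb
      rw [jOK_iff]; exact e2
    · intro a ha b hb
      rw [hs] at ha; rw [hVh] at hb
      simp only [Option.mem_def, Option.some.injEq] at ha hb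
      subst ha; subst hb
      rw [jOK_iff, linv_linv]; exact fun e => e1 e.symm

lemma good_cycle
    (hc : ∀ (z : Ω) (g h : FreeGroup X), g • z = z → h • z = z → g * h = h * g)
    (hsymm : ∀ l k k', R l k k' → R (linv l) k' k)
    {U : List (X × Bool)} (hU0 : U ≠ []) (hU : IsCyclicallyReduced U) {z : Ω}
    (hz : (FreeGroup.mk U : FreeGroup X) • z = z)
    (hmin : ∀ (M : List (X × Bool)) (g : FreeGroup X), M ≠ [] → IsReduced M →
      (FreeGroup.mk M : FreeGroup X) • g • z = g • z → U.length ≤ M.length)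
    (κ : ℕ → K) (hκ : κ 0 = κ U.length)
    (hedge : ∀ L₁ l L₂, U = L₁ ++ l :: L₂ → R l (κ L₂.length) (κ (L₂.length + 1))) :
    Good R {p : Ω × K | ∃ L₂, L₂ <:+ U ∧ p = ((FreeGroup.mk L₂ : FreeGroup X) • z, κ L₂.length)} := by
  have hf0 : ∀ L₂ L₂' : List (X × Bool), L₂ <:+ L₂' → L₂' <:+ U →
      (FreeGroup.mk L₂ : FreeGroup X) • z = (FreeGroup.mk L₂' : FreeGroup X) • z →
      κ L₂.length = κ L₂'.length := by
    rintro L₂ L₂' ⟨M, rfl⟩ h e
    by_cases hM : M = []
    · subst hM; simp
    · rw [mk_append_smul] at e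
      have hMr : IsReduced M := by
        obtain ⟨T, hT⟩ := h
        exact red_mid (A := T) (C := L₂) hU.isReduced (by simpa using hT)
      have h1 := hmin M (FreeGroup.mk L₂) hM hMr e.symm
      have h2 := h.length_le
      rw [List.length_append] at h2
      have h3 : L₂.length = 0 := by omega
      have h4 : (M ++ L₂).length = U.length := by rw [List.length_append]; omega
      rw [h3, h4, hκ]
  apply good_of_loops hc hsymm
  · rintro ω k k' ⟨L₂, h1, h2⟩ ⟨L₂', h1', h2'⟩
    simp only [Prod.mk.injEq] at h2 h2'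
    obtain ⟨h2, rfl⟩ := h2
    obtain ⟨h2', rfl⟩ := h2'
    rcases List.suffix_or_suffix_of_suffix h1 h1' with h | h
    · exact hf0 _ _ h h1' (by rw [← h2, ← h2'])
    · exact (hf0 _ _ h h1 (by rw [← h2, ← h2'])).symm
  · have base : ∃ (V : List (X × Bool)) (h s : X × Bool) (k₁ k₂ : K),
      IsReduced V ∧ (FreeGroup.mk V : FreeGroup X) • z = z ∧ V.head? = some h ∧
      V.getLast? = some s ∧ ((FreeGroup.mk [s] : FreeGroup X) • z, k₁) ∈
        {p : Ω × K | ∃ L₂, L₂ <:+ U ∧ p = ((FreeGroup.mk L₂ : FreeGroup X) • z, κ L₂.length)} ∧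
      R s (κ 0) k₁ ∧
      ((FreeGroup.mk [linv h] : FreeGroup X) • z, k₂) ∈
        {p : Ω × K | ∃ L₂, L₂ <:+ U ∧ p = ((FreeGroup.mk L₂ : FreeGroup X) • z, κ L₂.length)} ∧
      R (linv h) (κ 0) k₂ := by
      obtain ⟨h, U', hU'⟩ := List.exists_cons_of_ne_nil hU0
      obtain ⟨s, U'', hU''⟩ : ∃ s U'', U = U'' ++ [s] :=
        ⟨U.getLast hU0, U.dropLast, (List.dropLast_append_getLast hU0).symm⟩
      refine ⟨U, h, s, κ 1, κ U'.length, hU.isReduced, hz, by rw [hU']; simp, by rw [hU'']; simp,
        ⟨[s], ⟨U'', hU''.symm⟩, by simp⟩, ?_, ⟨U', ⟨[h], by rw [hU']; simp⟩, ?_⟩, ?_⟩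
      · have := hedge U'' s [] hU''
        simpa using this
      · rw [Prod.mk.injEq]
        refine ⟨?_, rfl⟩
        conv_lhs => rw [← hz]
        rw [hU', mk_cons_smul h U', linv_smul_smul]
      · have := hsymm _ _ _ (hedge [] h U' hU')
        rw [hκ, hU']
        simpa using this
    rintro ω k ⟨L₂, ⟨L₁, h1⟩, h2⟩
    simp only [Prod.mk.injEq] at h2
    obtain ⟨h2, rfl⟩ := h2
    by_cases hL₁ : L₁ = []
    · subst hL₁
      simp only [List.nil_append] at h1
      subst h1
      rw [hz] at h2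
      subst h2
      rw [← hκ]
      exact base
    by_cases hL₂ : L₂ = []
    · subst hL₂
      rw [mk_nil_smul] at h2
      subst h2
      simpa using base
    obtain ⟨h, L₂'', hL₂''⟩ := List.exists_cons_of_ne_nil hL₂
    obtain ⟨s, L₁'', hL₁''⟩ : ∃ s L₁'', L₁ = L₁'' ++ [s] :=
        ⟨L₁.getLast hL₁, L₁.dropLast, (List.dropLast_append_getLast hL₁).symm⟩
    refine ⟨L₂ ++ L₁, h, s, κ (L₂.length + 1), κ L₂''.length, ?_, ?_, ?_, ?_,
      ⟨s :: L₂, ⟨L₁'', ?_⟩, ?_⟩, ?_, ⟨L₂'', ⟨L₁ ++ [h], ?_⟩, ?_⟩, ?_⟩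
    · refine red_append (red_mid (A := L₁) (C := []) hU.isReduced (by simpa using h1))
        (red_mid (A := []) (C := L₂) hU.isReduced (by simpa using h1)) ?_
      intro a ha b hb
      refine hU.2 a ?_ b ?_
      · rw [← h1, List.getLast?_append]
        rw [Option.mem_def] at ha
        rw [ha]; simp
      · rw [← h1, List.head?_append]
        rw [Option.mem_def] at hb
        rw [hb]; simp
    · rw [h2, mk_append_smul, ← mk_append_smul L₁ L₂, h1, hz]
    · rw [hL₂'']; simp
    · rw [hL₁'', ← List.append_assoc]; simp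
    · rw [← h1, hL₁'']; simp
    · rw [h2, Prod.mk.injEq]
      refine ⟨(mk_cons_smul s L₂ z).symm, by simp⟩
    · exact hedge L₁'' s L₂ (by rw [← h1, hL₁'']; simp)
    · rw [← h1, hL₂'']; simp
    · rw [h2, Prod.mk.injEq]
      refine ⟨?_, rfl⟩
      rw [hL₂'', mk_cons_smul h L₂'', linv_smul_smul]
    · have := hsymm _ _ _ (hedge L₁ h L₂'' (by rw [← h1, hL₂'']))
      rw [hL₂'']
      simpa using this

/-- If some word leads from outside the set into the set, some point outside the set has a
neighbour inside. -/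
lemma exists_neighbour {S : Set Ω} : ∀ (L : List (X × Bool)) (y : Ω), y ∉ S →
    (FreeGroup.mk L : FreeGroup X) • y ∈ S →
    ∃ (y' : Ω) (l : X × Bool), y' ∉ S ∧ (FreeGroup.mk [l] : FreeGroup X) • y' ∈ S := by
  intro L
  induction L with
  | nil => intro y hy h; rw [mk_nil_smul] at h; exact absurd h hy
  | cons a L ih =>
    intro y hy h
    by_cases h' : (FreeGroup.mk L : FreeGroup X) • y ∈ S
    · exact ih y hy h'
    · exact ⟨_, a, h', by rw [← mk_cons_smul]; exact h⟩

lemma cyc_of_red (M : List (X × Bool)) (hM0 : M ≠ []) (hM : IsReduced M) :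
    ∃ (M' : List (X × Bool)) (g : FreeGroup X), M' ≠ [] ∧ IsCyclicallyReduced M' ∧
      M'.length ≤ M.length ∧ FreeGroup.mk M' = g * FreeGroup.mk M * g⁻¹ := by
  classical
  have h1 := reduceCyclically.conj_conjugator_reduceCyclically M
  have h2 : (FreeGroup.mk (reduceCyclically M) : FreeGroup X)
      = (FreeGroup.mk (reduceCyclically.conjugator M))⁻¹ * FreeGroup.mk M *
        ((FreeGroup.mk (reduceCyclically.conjugator M))⁻¹)⁻¹ := by
    have h3 : (FreeGroup.mk M : FreeGroup X) = FreeGroup.mk (reduceCyclically.conjugator M) *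
        FreeGroup.mk (reduceCyclically M) * (FreeGroup.mk (reduceCyclically.conjugator M))⁻¹ := by
      rw [FreeGroup.inv_mk, FreeGroup.mul_mk, FreeGroup.mul_mk, h1]
    rw [h3]
    group
  refine ⟨reduceCyclically M, _, ?_, reduceCyclically.isCyclicallyReduced hM, ?_, h2⟩
  · intro e
    rw [e, ← FreeGroup.one_eq_mk] at h2
    have h3 : (FreeGroup.mk M : FreeGroup X) = 1 := by
      have := h2.symm
      rw [mul_inv_eq_one] at this
      exact mul_left_cancel (this.trans (mul_one _).symm)
    rw [FreeGroup.one_eq_mk] at h3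
    exact hM0 (red_unique hM IsReduced.nil h3)
  · have := congrArg List.length h1
    simp only [List.length_append] at this
    omega

variable (R)

/-- **Colouring theorem.**  Let a free group act with commutative point stabilisers, and let `R l`
be a constraint relation for each letter `l`, symmetric under inversion and total.  If every
cyclically reduced nonempty word with a fixed point has a consistent closed colouring, then the
whole space has a consistent colouring. -/
theorem exists_colouring [Nonempty K]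
    (hc : ∀ (z : Ω) (g h : FreeGroup X), g • z = z → h • z = z → g * h = h * g)
    (hsymm : ∀ l k k', R l k k' → R (linv l) k' k)
    (htot : ∀ l k, ∃ k', R l k k')
    (hcl : ∀ U : List (X × Bool), U ≠ [] → IsCyclicallyReduced U →
      (∃ z : Ω, (FreeGroup.mk U : FreeGroup X) • z = z) →
      ∃ κ : ℕ → K, κ 0 = κ U.length ∧
        ∀ L₁ l L₂, U = L₁ ++ l :: L₂ → R l (κ L₂.length) (κ (L₂.length + 1))) :
    ∃ c : Ω → K, ∀ ω l, R l (c ω) (c ((FreeGroup.mk [l] : FreeGroup X) • ω)) := by
  classical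
  obtain ⟨G, hG⟩ := zorn_subset {G : Set (Ω × K) | Good R G} (by
    intro C hC hchain
    refine ⟨⋃₀ C, ?_, fun s hs => Set.subset_sUnion_of_mem hs⟩
    have pair : ∀ p q : Ω × K, p ∈ ⋃₀ C → q ∈ ⋃₀ C → ∃ G ∈ C, p ∈ G ∧ q ∈ G := by
      rintro p q ⟨G, hG, hp⟩ ⟨G', hG', hq⟩
      rcases hchain.total hG hG' with h | h
      · exact ⟨G', hG', h hp, hq⟩
      · exact ⟨G, hG, hp, h hq⟩
    refine ⟨?_, ?_, ?_⟩
    · intro ω k k' h h'
      obtain ⟨G, hG, h1, h2⟩ := pair _ _ h h'
      exact (hC hG).func _ _ _ h1 h2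
    · intro y hy L L' hL hL' h h'
      obtain ⟨k, hk⟩ := h
      obtain ⟨k', hk'⟩ := h'
      obtain ⟨G, hG, h1, h2⟩ := pair _ _ hk hk'
      exact (hC hG).dir y (fun ⟨k, hk⟩ => hy ⟨k, G, hG, hk⟩) L L' hL hL' ⟨_, h1⟩ ⟨_, h2⟩
    · intro ω k l k' h h'
      obtain ⟨G, hG, h1, h2⟩ := pair _ _ h h'
      exact (hC hG).cons _ _ _ _ h1 h2)
  have hGg : Good R G := hG.prop
  have hmax : ∀ G', Good R G' → G ⊆ G' → G' ⊆ G := fun G' h1 h2 => hG.le_of_ge h1 h2
  have hfull : ∀ y, ∃ k, (y, k) ∈ G := by
    by_contra hcon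
    push Not at hcon
    obtain ⟨y, hy⟩ := hcon
    have hy' : y ∉ {ω : Ω | ∃ k, (ω, k) ∈ G} := by rintro ⟨k, hk⟩; exact hy k hk
    by_cases horb : ∃ L : List (X × Bool), (FreeGroup.mk L : FreeGroup X) • y ∈
        {ω : Ω | ∃ k, (ω, k) ∈ G}
    · obtain ⟨L, hL⟩ := horb
      obtain ⟨y', l, h1, kz, h2⟩ := exists_neighbour L y hy' hL
      have h1' : ∀ k, (y', k) ∉ G := fun k hk => h1 ⟨k, hk⟩
      obtain ⟨k, hk⟩ := good_insert hGg hsymm htot h1' h2
      exact h1' k (hmax _ hk (Set.subset_insert _ _) (Set.mem_insert _ _))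
    · push Not at horb
      -- it suffices to find a nonempty good set inside the orbit of `y`
      suffices h : ∃ G' : Set (Ω × K), Good R G' ∧ G'.Nonempty ∧
          ∀ ω k, (ω, k) ∈ G' → ∃ g : FreeGroup X, g • y = ω by
        obtain ⟨G', h1, ⟨⟨w, kw⟩, hw⟩, h3⟩ := h
        have hd : ∀ ω k ω' k', (ω, k) ∈ G → (ω', k') ∈ G' → ∀ g : FreeGroup X, g • ω ≠ ω' := by
          intro ω k ω' k' h h' g e
          obtain ⟨g', hg'⟩ := h3 _ _ h'
          obtain ⟨L, hL⟩ : ∃ L, FreeGroup.mk L = g⁻¹ * g' := ⟨_, FreeGroup.mk_toWord⟩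
          apply horb L
          refine ⟨k, ?_⟩
          rw [hL, mul_smul, hg', ← e, inv_smul_smul]
          exact h
        have hw2 := hmax _ (good_union hGg h1 hd) Set.subset_union_left (Or.inr hw)
        exact hd _ _ _ _ hw2 hw 1 (one_smul _ _)
      by_cases hst : ∀ g : FreeGroup X, g • y = y → g = 1
      · obtain ⟨k⟩ := ‹Nonempty K›
        refine ⟨{(y, k)}, good_single hst k, Set.singleton_nonempty _, ?_⟩
        rintro ω k' h
        simp only [Set.mem_singleton_iff, Prod.mk.injEq] at h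
        exact ⟨1, by rw [one_smul, h.1]⟩
      · push Not at hst
        obtain ⟨g, hg1, hg2⟩ := hst
        -- minimal length cyclically reduced word fixing a point of the orbit
        let P : ℕ → Prop := fun n => ∃ (U : List (X × Bool)) (h : FreeGroup X),
          U ≠ [] ∧ IsCyclicallyReduced U ∧ (FreeGroup.mk U : FreeGroup X) • h • y = h • y ∧
            U.length = n
        have hPred : ∀ (M : List (X × Bool)) (h : FreeGroup X), M ≠ [] → IsReduced M →
            (FreeGroup.mk M : FreeGroup X) • h • y = h • y → ∃ n, P n ∧ n ≤ M.length := by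
          intro M h hM0 hM hMh
          obtain ⟨M', g', h1, h2, h3, h4⟩ := cyc_of_red M hM0 hM
          refine ⟨M'.length, ⟨M', g' * h, h1, h2, ?_, rfl⟩, h3⟩
          rw [h4, mul_smul, mul_smul, mul_smul, inv_smul_smul, hMh]
        have hex : ∃ n, P n := by
          obtain ⟨n, hn, -⟩ := hPred g.toWord 1 (by
            intro e
            exact hg2 (FreeGroup.toWord_eq_nil_iff.1 e)) isReduced_toWord (by
            rw [FreeGroup.mk_toWord, one_smul, hg1])
          exact ⟨n, hn⟩
        obtain ⟨U, h, hU0, hU, hUz, hUn⟩ := Nat.find_spec hex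
        obtain ⟨κ, hκ, hedge⟩ := hcl U hU0 hU ⟨_, hUz⟩
        refine ⟨_, good_cycle hc hsymm hU0 hU hUz ?_ κ hκ hedge, ?_, ?_⟩
        · intro M g' hM0 hM hMg
          obtain ⟨n, hn, hn'⟩ := hPred M (g' * h) hM0 hM (by rw [mul_smul]; exact hMg)
          rw [hUn]
          exact (Nat.find_min' hex hn).trans hn'
        · exact ⟨_, [], List.nil_suffix, rfl⟩
        · rintro ω k ⟨L₂, -, h2⟩
          simp only [Prod.mk.injEq] at h2
          exact ⟨FreeGroup.mk L₂ * h, by rw [mul_smul, h2.1]⟩
  choose c hcG using hfull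
  exact ⟨c, fun ω l => hGg.cons _ _ _ _ (hcG _) (hcG _)⟩

end Act

end Pool.Agent.H87.Col
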