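import Pool.Agent.H87.Col

/-!
A free group of rank continuum of isometries of the hyperbolic plane all of whose free
generators are parabolic.
-/

set_option autoImplicit false

namespace Pool.Agent.H87.Grp

open Matrix FreeGroup Pool.Agent.H87.Col
open scoped MatrixGroups

/-- The parabolic matrix fixing the direction `(1, y)`. -/
def M {A : Type*} [CommRing A] (y : A) : SL(2, A) :=
  ⟨!![1 - 2 * y, 2; -2 * y ^ 2, 1 + 2 * y], by rw [Matrix.det_fin_two_of]; ring⟩

/-- The underlying matrix of an element of `SL(2, A)`. -/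
def mat {A : Type*} [CommRing A] (g : SL(2, A)) : Matrix (Fin 2) (Fin 2) A := g.1

lemma mat_inj {A : Type*} [CommRing A] {g h : SL(2, A)} (e : mat g = mat h) : g = h :=
  Subtype.ext e

lemma mat_mul {A : Type*} [CommRing A] (g h : SL(2, A)) : mat (g * h) = mat g * mat h := rfl

lemma mat_one {A : Type*} [CommRing A] : mat (1 : SL(2, A)) = 1 := rfl

lemma mat_map {A B : Type*} [CommRing A] [CommRing B] (f : A →+* B) (g : SL(2, A)) (i j : Fin 2) :
    mat (SpecialLinearGroup.map f g) i j = f (mat g i j) := rfl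

lemma coe_M {A : Type*} [CommRing A] (y : A) :
    mat (M y : SL(2, A)) = !![1 - 2 * y, 2; -2 * y ^ 2, 1 + 2 * y] := rfl

lemma coe_M_inv {A : Type*} [CommRing A] (y : A) :
    mat ((M y)⁻¹ : SL(2, A)) = !![1 + 2 * y, -2; 2 * y ^ 2, 1 - 2 * y] := by
  have h : mat ((M y)⁻¹ : SL(2, A)) = Matrix.adjugate (mat (M y)) := rfl
  rw [h, coe_M, Matrix.adjugate_fin_two_of]
  congr 1
  ring_nf

lemma map_M {A B : Type*} [CommRing A] [CommRing B] (f : A →+* B) (y : A) :
    SpecialLinearGroup.map f (M y) = M (f y) := by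
  apply mat_inj
  ext i j
  rw [mat_map, coe_M, coe_M]
  have h2 : f 2 = 2 := map_ofNat f 2
  fin_cases i <;> fin_cases j <;> simp [h2]

/-- The zone of a letter. -/
def zone (l : ℕ × Bool) (v : Fin 2 → ℝ) : Prop :=
  if l.2 then 0 ≤ (v 1 - 4 * l.1 * v 0) * (v 0 - (v 1 - 4 * l.1 * v 0))
  else (v 1 - 4 * l.1 * v 0) * (v 0 + (v 1 - 4 * l.1 * v 0)) < 0

lemma zone_sq {l : ℕ × Bool} {v : Fin 2 → ℝ} (h : zone l v) :
    (v 1 - 4 * l.1 * v 0) ^ 2 ≤ v 0 ^ 2 := by
  obtain ⟨n, b⟩ := l
  cases b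
  · simp only [zone, Bool.false_eq_true, if_false] at h
    nlinarith [sq_nonneg (v 0 + (v 1 - 4 * n * v 0))]
  · simp only [zone, if_true] at h
    nlinarith [sq_nonneg (v 0 - (v 1 - 4 * n * v 0))]

lemma zone_disj {l l' : ℕ × Bool} {v : Fin 2 → ℝ} (hv : v ≠ 0) (h : zone l v) (h' : zone l' v) :
    l = l' := by
  by_cases hn : l.1 = l'.1
  · obtain ⟨n, b⟩ := l
    obtain ⟨n', b'⟩ := l'
    simp only at hn
    subst hn
    cases b <;> cases b'
    · rfl
    · exfalso
      simp only [zone, Bool.false_eq_true, if_false, if_true] at h h'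
      nlinarith [sq_nonneg (v 1 - 4 * n * v 0)]
    · exfalso
      simp only [zone, Bool.false_eq_true, if_false, if_true] at h h'
      nlinarith [sq_nonneg (v 1 - 4 * n * v 0)]
    · rfl
  · exfalso
    apply hv
    have h1 := zone_sq h
    have h2 := zone_sq h'
    have h3 : (1 : ℝ) ≤ ((l.1 : ℝ) - l'.1) ^ 2 := by
      have : (1 : ℤ) ≤ ((l.1 : ℤ) - l'.1) ^ 2 := by
        have h0 : (l.1 : ℤ) - l'.1 ≠ 0 := by omega
        have := Int.one_le_abs h0
        nlinarith [sq_abs ((l.1 : ℤ) - l'.1), abs_nonneg ((l.1 : ℤ) - l'.1)]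
      exact_mod_cast this
    have h4 : (4 * ((l.1 : ℝ) - l'.1) * v 0) ^ 2 ≤ 4 * v 0 ^ 2 := by
      nlinarith [sq_nonneg ((v 1 - 4 * l.1 * v 0) + (v 1 - 4 * l'.1 * v 0))]
    have h5 : v 0 ^ 2 ≤ 0 := by nlinarith [sq_nonneg (v 0)]
    have h6 : v 0 = 0 := by
      have := le_antisymm h5 (sq_nonneg _)
      simpa using this
    rw [h6] at h1
    have h7 : v 1 = 0 := by
      have : v 1 ^ 2 ≤ 0 := by nlinarith
      have := le_antisymm this (sq_nonneg _)
      simpa using this
    funext i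
    fin_cases i
    · exact h6
    · exact h7

/-- The matrices used for ping-pong. -/
noncomputable def a (n : ℕ) : SL(2, ℝ) := M (4 * n : ℝ)

/-- The matrix of a letter. -/
noncomputable def lm (l : ℕ × Bool) : SL(2, ℝ) := cond l.2 (a l.1) (a l.1)⁻¹

lemma lm_mulVec (l : ℕ × Bool) (v : Fin 2 → ℝ) :
    mat (lm l) *ᵥ v =
      ![v 0 + (cond l.2 2 (-2)) * (v 1 - 4 * l.1 * v 0),
        v 1 + (cond l.2 2 (-2)) * (v 1 - 4 * l.1 * v 0) * (4 * l.1)] := by
  obtain ⟨n, b⟩ := l
  cases b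
  · simp only [lm, a, cond_false, coe_M_inv]
    funext i
    fin_cases i
    · simp [Matrix.mulVec, dotProduct]; ring
    · simp [Matrix.mulVec, dotProduct]; ring
  · simp only [lm, a, cond_true, coe_M]
    funext i
    fin_cases i
    · simp [Matrix.mulVec, dotProduct]; ring
    · simp [Matrix.mulVec, dotProduct]; ring

lemma zone_step {l : ℕ × Bool} {v : Fin 2 → ℝ} (h : ¬ zone (linv l) v) :
    zone l (mat (lm l) *ᵥ v) := by
  rw [lm_mulVec]
  obtain ⟨n, b⟩ := l
  cases b
  · simp only [zone, linv, Bool.not_false, if_true, Bool.false_eq_true, if_false, cond_false,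
      Matrix.cons_val_zero, Matrix.cons_val_one, not_le] at h ⊢
    calc _ = (v 1 - 4 * n * v 0) * (v 0 - (v 1 - 4 * n * v 0)) := by ring
      _ < 0 := h
  · simp only [zone, linv, Bool.not_true, Bool.false_eq_true, if_true, if_false, cond_true,
      Matrix.cons_val_zero, Matrix.cons_val_one, not_lt] at h ⊢
    calc 0 ≤ (v 1 - 4 * n * v 0) * (v 0 + (v 1 - 4 * n * v 0)) := h
      _ = _ := by ring

lemma SL_mulVec_ne_zero (g : SL(2, ℝ)) {v : Fin 2 → ℝ} (hv : v ≠ 0) :
    mat g *ᵥ v ≠ 0 := by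
  intro e
  apply hv
  have : mat (g⁻¹ : SL(2, ℝ)) *ᵥ (mat g *ᵥ v) = v := by
    rw [Matrix.mulVec_mulVec, ← mat_mul, inv_mul_cancel, mat_one, Matrix.one_mulVec]
  rw [← this, e, Matrix.mulVec_zero]

lemma v0_notin (l : ℕ × Bool) : ¬ zone l ![1, 2] := by
  obtain ⟨n, b⟩ := l
  rcases Nat.eq_zero_or_pos n with rfl | hn
  · cases b <;> simp [zone]
    all_goals norm_num
  · have h1 : (1 : ℝ) ≤ n := by exact_mod_cast hn
    cases b
    · simp only [zone, Bool.false_eq_true, if_false, Matrix.cons_val_zero, Matrix.cons_val_one]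
      nlinarith
    · simp only [zone, if_true, Matrix.cons_val_zero, Matrix.cons_val_one]
      nlinarith

lemma v0_ne : (![1, 2] : Fin 2 → ℝ) ≠ 0 := by
  intro h
  have := congrFun h 0
  simp at this

lemma lift_cons (l : ℕ × Bool) (L : List (ℕ × Bool)) :
    FreeGroup.lift a (FreeGroup.mk (l :: L)) = lm l * FreeGroup.lift a (FreeGroup.mk L) := by
  simp [FreeGroup.lift_mk, lm]

lemma zone_word : ∀ (L : List (ℕ × Bool)) (l : ℕ × Bool), IsReduced (l :: L) →
    zone l (mat (FreeGroup.lift a (FreeGroup.mk (l :: L))) *ᵥ ![1, 2]) := by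
  intro L
  induction L with
  | nil =>
    intro l _
    rw [lift_cons, mat_mul, ← Matrix.mulVec_mulVec]
    apply zone_step
    have : FreeGroup.lift a (FreeGroup.mk []) = 1 := by
      rw [← FreeGroup.one_eq_mk, _root_.map_one]
    rw [this, mat_one, Matrix.one_mulVec]
    exact v0_notin _
  | cons l' L ih =>
    intro l h
    rw [lift_cons, mat_mul, ← Matrix.mulVec_mulVec]
    apply zone_step
    intro hz
    have h1 := ih l' (red_of_cons h)
    have h2 := zone_disj (SL_mulVec_ne_zero _ v0_ne) h1 hz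
    have h3 := (isReduced_cons_cons.1 h).1
    change jOK l l' at h3
    rw [jOK_iff, h2, linv_linv] at h3
    exact h3 rfl

lemma lift_a_ne_one {L : List (ℕ × Bool)} (hL : IsReduced L) (hL0 : L ≠ []) :
    FreeGroup.lift a (FreeGroup.mk L) ≠ 1 := by
  obtain ⟨l, L', rfl⟩ := List.exists_cons_of_ne_nil hL0
  intro e
  have h := zone_word L' l hL
  rw [e, mat_one, Matrix.one_mulVec] at h
  exact v0_notin _ h

lemma red_map {X : Type*} (π : X → ℕ) : ∀ L : List (X × Bool), IsReduced L →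
    (∀ a ∈ L, ∀ b ∈ L, π a.1 = π b.1 → a.1 = b.1) →
    IsReduced (L.map fun l => (π l.1, l.2)) := by
  intro L
  induction L with
  | nil => intro _ _; exact IsReduced.nil
  | cons a L ih =>
    intro h hπ
    have h1 := ih (red_of_cons h) (fun a ha b hb => hπ a (by simp [ha]) b (by simp [hb]))
    rw [List.map_cons]
    apply red_cons h1
    intro b hb
    cases L with
    | nil => simp at hb
    | cons c L' =>
      simp only [List.map_cons, List.head?_cons, Option.mem_def, Option.some.injEq] at hb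
      subst hb
      intro e
      simp only at e ⊢
      exact (isReduced_cons_cons.1 h).1 (hπ a (by simp) c (by simp) e)

theorem lift_M_injective {X : Type*} {ξ : X → ℝ} (hξ : AlgebraicIndependent ℚ ξ) :
    Function.Injective (FreeGroup.lift fun x => (M (ξ x) : SL(2, ℝ))) := by
  classical
  rw [injective_iff_map_eq_one]
  intro w hw
  by_contra hw1
  have hL0 : w.toWord ≠ [] := fun e => hw1 (FreeGroup.toWord_eq_nil_iff.1 e)
  have hL : IsReduced w.toWord := isReduced_toWord
  -- the generic word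
  have hcomp : ∀ {B : Type} [CommRing B] (f : MvPolynomial X ℚ →+* B),
      SpecialLinearGroup.map f
        (FreeGroup.lift (fun x => (M (MvPolynomial.X x) : SL(2, MvPolynomial X ℚ))) w)
        = FreeGroup.lift (fun x => (M (f (MvPolynomial.X x)) : SL(2, B))) w := by
    intro B _ f
    have : (SpecialLinearGroup.map f).comp
        (FreeGroup.lift (fun x => (M (MvPolynomial.X x) : SL(2, MvPolynomial X ℚ))))
        = FreeGroup.lift (fun x => (M (f (MvPolynomial.X x)) : SL(2, B))) := by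
      ext x : 1
      simp [map_M]
    exact DFunLike.congr_fun this w
  have h1 := hcomp ((MvPolynomial.aeval ξ : MvPolynomial X ℚ →ₐ[ℚ] ℝ) : MvPolynomial X ℚ →+* ℝ)
  simp only [RingHom.coe_coe, MvPolynomial.aeval_X] at h1
  rw [hw] at h1
  have h2 : FreeGroup.lift (fun x => (M (MvPolynomial.X x) : SL(2, MvPolynomial X ℚ))) w = 1 := by
    apply mat_inj
    apply Matrix.ext
    intro i j
    have h3 := congrArg (fun m : SL(2, ℝ) => mat m i j) h1
    simp only [mat_map, mat_one, RingHom.coe_coe] at h3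
    have h4 : (1 : Matrix (Fin 2) (Fin 2) ℝ) i j
        = MvPolynomial.aeval ξ ((1 : Matrix (Fin 2) (Fin 2) (MvPolynomial X ℚ)) i j) := by
      by_cases hij : i = j
      · subst hij; simp
      · simp [Matrix.one_apply_ne hij]
    rw [h4] at h3
    rw [mat_one]
    exact hξ h3
  -- specialise
  have hfin : ({x | ∃ l ∈ w.toWord, l.1 = x} : Set X).Finite := by
    have : ({x | ∃ l ∈ w.toWord, l.1 = x} : Set X) = Prod.fst '' {l | l ∈ w.toWord} := by
      ext x; simp
    rw [this]
    exact (List.finite_toSet _).image _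
  obtain ⟨π, hπ⟩ : ∃ π : X → ℕ, Set.InjOn π {x | ∃ l ∈ w.toWord, l.1 = x} := by
    have := hfin.countable
    rwa [Set.countable_iff_exists_injOn] at this
  have h5 := hcomp (MvPolynomial.eval₂Hom (algebraMap ℚ ℝ) (fun x => (4 * (π x : ℝ))))
  rw [h2, _root_.map_one] at h5
  simp only [MvPolynomial.coe_eval₂Hom, MvPolynomial.eval₂_X] at h5
  have h6 : FreeGroup.lift (fun x => (M (4 * (π x : ℝ)) : SL(2, ℝ))) w
      = FreeGroup.lift a (FreeGroup.mk (w.toWord.map fun l => (π l.1, l.2))) := by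
    conv_lhs => rw [← FreeGroup.mk_toWord (x := w)]
    simp only [FreeGroup.lift_mk, List.map_map]
    rfl
  rw [h6] at h5
  refine lift_a_ne_one (red_map π _ hL ?_) ?_ h5.symm
  · intro a ha b hb e
    exact hπ ⟨a, ha, rfl⟩ ⟨b, hb, rfl⟩ e
  · simpa using hL0

/-- Any index type of size at most the continuum indexes algebraically independent reals. -/
theorem exists_algInd (X : Type) (hX : Cardinal.mk X ≤ Cardinal.continuum) :
    ∃ ξ : X → ℝ, AlgebraicIndependent ℚ ξ := by
  obtain ⟨s, hs⟩ := exists_isTranscendenceBasis ℚ ℝ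
  have hcard : Cardinal.continuum ≤ Cardinal.mk s := by
    by_contra hlt
    rw [not_le] at hlt
    have h1 : Cardinal.mk ℝ ≤ max (Cardinal.mk (Algebra.adjoin ℚ (Set.range ((↑) : s → ℝ))))
        Cardinal.aleph0 := by
      have : Algebra.IsAlgebraic (Algebra.adjoin ℚ (Set.range ((↑) : s → ℝ))) ℝ := hs.isAlgebraic
      exact Algebra.IsAlgebraic.cardinalMk_le_max _ _
    have h2 : Cardinal.mk (Algebra.adjoin ℚ (Set.range ((↑) : s → ℝ)))
        = Cardinal.mk (MvPolynomial s ℚ) :=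
      (Cardinal.mk_congr hs.1.aevalEquiv.toEquiv).symm
    have h3 : Cardinal.mk (MvPolynomial s ℚ) ≤ max (max (Cardinal.mk ℚ) (Cardinal.mk s))
        Cardinal.aleph0 := MvPolynomial.cardinalMk_le_max
    rw [h2, Cardinal.mk_real] at h1
    have h4 : max (max (Cardinal.mk ℚ) (Cardinal.mk s)) Cardinal.aleph0 < Cardinal.continuum := by
      refine max_lt (max_lt ?_ hlt) Cardinal.aleph0_lt_continuum
      rw [Cardinal.mk_denumerable]
      exact Cardinal.aleph0_lt_continuum
    exact absurd (h1.trans (max_le_max h3 le_rfl)) (by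
      rw [not_le]; exact max_lt h4 Cardinal.aleph0_lt_continuum)
  obtain ⟨f⟩ := (Cardinal.le_def _ _).1 (hX.trans hcard)
  exact ⟨fun x => (f x : ℝ), hs.1.comp f f.injective⟩

/-- Equations for a fixed point. -/
lemma fix_eqs (g : SL(2, ℝ)) (z : UpperHalfPlane) (h : g • z = z) :
    mat g 0 0 - mat g 1 1 = 2 * mat g 1 0 * z.re ∧
      mat g 0 1 = - mat g 1 0 * (z.re ^ 2 + z.im ^ 2) := by
  have h1 : (z : ℂ) = (((mat g 0 0 : ℝ) : ℂ) * (z : ℂ) + ((mat g 0 1 : ℝ) : ℂ)) /
      (((mat g 1 0 : ℝ) : ℂ) * (z : ℂ) + ((mat g 1 1 : ℝ) : ℂ)) := by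
    have h1 := UpperHalfPlane.coe_specialLinearGroup_apply g z
    rw [h] at h1
    exact h1
  have hdet : (mat g).det = 1 := g.2
  rw [Matrix.det_fin_two] at hdet
  have hd : ((mat g 1 0 : ℝ) : ℂ) * (z : ℂ) + ((mat g 1 1 : ℝ) : ℂ) ≠ 0 := by
    intro e
    have hd1 := congrArg Complex.im e
    have hd2 := congrArg Complex.re e
    simp at hd1 hd2
    have hz := z.im_pos
    rcases hd1 with h0 | h0
    · rw [h0] at hd2
      simp at hd2
      rw [h0, hd2] at hdet
      simp at hdet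
    · exact hz.ne' h0
  rw [eq_div_iff hd] at h1
  have him := congrArg Complex.im h1
  have hre := congrArg Complex.re h1
  simp at him hre
  have hz := z.im_pos
  have e1 : mat g 0 0 - mat g 1 1 = 2 * mat g 1 0 * z.re := by
    have : z.im * (mat g 0 0 - mat g 1 1 - 2 * mat g 1 0 * z.re) = 0 := by nlinarith
    rcases mul_eq_zero.1 this with h0 | h0
    · exact absurd h0 hz.ne'
    · linarith
  refine ⟨e1, ?_⟩
  have e2 : mat g 0 0 = mat g 1 1 + 2 * mat g 1 0 * z.re := by linarith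
  rw [e2] at hre
  nlinarith

lemma fix_comm (g h : SL(2, ℝ)) (z : UpperHalfPlane) (hg : g • z = z) (hh : h • z = z) :
    g * h = h * g := by
  obtain ⟨g1, g2⟩ := fix_eqs g z hg
  obtain ⟨h1, h2⟩ := fix_eqs h z hh
  have g3 : mat g 0 0 = mat g 1 1 + 2 * mat g 1 0 * z.re := by linarith
  have h3 : mat h 0 0 = mat h 1 1 + 2 * mat h 1 0 * z.re := by linarith
  apply mat_inj
  apply Matrix.ext
  intro i j
  rw [mat_mul, mat_mul]
  fin_cases i <;> fin_cases j
  · simp only [Matrix.mul_apply, Fin.sum_univ_two, Fin.zero_eta, Fin.isValue]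
    rw [g2, h2]; ring
  · simp only [Matrix.mul_apply, Fin.sum_univ_two, Fin.zero_eta, Fin.isValue, Fin.mk_one]
    rw [g3, h3, g2, h2]; ring
  · simp only [Matrix.mul_apply, Fin.sum_univ_two, Fin.zero_eta, Fin.isValue, Fin.mk_one]
    rw [g3, h3]; ring
  · simp only [Matrix.mul_apply, Fin.sum_univ_two, Fin.isValue, Fin.mk_one]
    rw [g2, h2]; ring

lemma M_pow (y : ℝ) (n : ℕ) : mat ((M y) ^ n : SL(2, ℝ))
    = !![1 - 2 * n * y, 2 * n; -2 * n * y ^ 2, 1 + 2 * n * y] := by
  induction n with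
  | zero => rw [pow_zero, mat_one]; simp [Matrix.one_fin_two]
  | succ n ih =>
    rw [pow_succ, mat_mul, ih, coe_M]
    ext i j
    fin_cases i <;> fin_cases j <;> simp [Matrix.mul_apply] <;> ring

lemma M_pow_no_fix (y : ℝ) (n : ℕ) (hn : n ≠ 0) (z : UpperHalfPlane) : (M y) ^ n • z ≠ z := by
  intro h
  obtain ⟨h1, h2⟩ := fix_eqs _ z h
  rw [M_pow] at h1 h2
  simp at h1 h2
  have hn' : (n : ℝ) ≠ 0 := by exact_mod_cast hn
  have hz := z.im_pos
  have e1 : y = y ^ 2 * z.re := by
    have : (n : ℝ) * (y - y ^ 2 * z.re) = 0 := by linarith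
    rcases mul_eq_zero.1 this with h0 | h0
    · exact absurd h0 hn'
    · linarith
  have e2 : 1 = y ^ 2 * (z.re ^ 2 + z.im ^ 2) := by
    have : (n : ℝ) * (1 - y ^ 2 * (z.re ^ 2 + z.im ^ 2)) = 0 := by linarith
    rcases mul_eq_zero.1 this with h0 | h0
    · exact absurd h0 hn'
    · linarith
  have hy : y ≠ 0 := by rintro rfl; simp at e2
  have e3 : y * z.re = 1 := by
    have : y * (y * z.re - 1) = 0 := by nlinarith
    rcases mul_eq_zero.1 this with h0 | h0
    · exact absurd h0 hy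
    · linarith
  have e4 : y ^ 2 * z.im ^ 2 = 0 := by nlinarith
  have e5 : 0 < y ^ 2 * z.im ^ 2 := by positivity
  exact absurd e4 e5.ne'

end Pool.Agent.H87.Grp
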