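import Mathlib

/-!
Compact sets of finite sets of naturals with large rank, and the non-separation argument.
-/

set_option autoImplicit false

namespace Pool.Agent.H87.Hur

open Set Filter Ordinal

/-- The Cantor space of subsets of `ℕ`. -/
abbrev K := ℕ → Bool

/-- The compact metrizable space `P(ℕ) × P(ℕ)^ℕ`. -/
abbrev E := K × (ℕ → K)

/-- The point codes a finite subset of `ℕ`. -/
def Fin' (x : K) : Prop := {n | x n = true}.Finite

/-- The Borel set `(Q × P(ℕ)^ℕ) ∪ (P(ℕ) × Q^ℕ)`. -/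
def BE : Set E := {p | Fin' p.1 ∨ ∀ n, Fin' (p.2 n)}

/-- The set of those `z ⊆ ℕ` along which `d` is strictly decreasing. -/
def MM (d : ℕ → Ordinal.{0}) : Set K :=
  {z | ∀ i j, i < j → z i = true → z j = true → d j < d i}

lemma isClosed_bool {Y : Type*} [TopologicalSpace Y] {f : Y → Bool} (hf : Continuous f)
    (s : Set Bool) : IsClosed (f ⁻¹' s) :=
  (isClosed_discrete s).preimage hf

lemma MM_closed (d : ℕ → Ordinal.{0}) : IsClosed (MM d) := by
  have : MM d = ⋂ i, ⋂ j, {z : K | i < j → z i = true → z j = true → d j < d i} := by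
    ext z; simp [MM]
  rw [this]
  refine isClosed_iInter fun i => isClosed_iInter fun j => ?_
  have h2 : {z : K | i < j → z i = true → z j = true → d j < d i}
      = (fun z : K => (z i, z j)) ⁻¹' {p | i < j → p.1 = true → p.2 = true → d j < d i} := rfl
  rw [h2]
  exact (isClosed_discrete _).preimage ((continuous_apply i).prodMk (continuous_apply j))

lemma MM_zero (d : ℕ → Ordinal.{0}) : (fun _ => false) ∈ MM d := by
  intro i j _ h
  simp at h

lemma MM_fin {d : ℕ → Ordinal.{0}} {z : K} (hz : z ∈ MM d) : Fin' z := by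
  by_contra hinf
  have hinf' : {n | z n = true}.Infinite := hinf
  have : Infinite {n | z n = true} := hinf'.to_subtype
  let e := Nat.orderEmbeddingOfSet {n | z n = true}
  have he : ∀ n, z (e n) = true := fun n => by
    have : e n ∈ Set.range e := ⟨n, rfl⟩
    rw [Nat.orderEmbeddingOfSet_range] at this
    exact this
  exact not_strictAnti_of_wellFoundedLT (fun n => d (e n)) (fun a b hab =>
    hz (e a) (e b) (e.strictMono hab) (he a) (he b))

/-- truncation -/
def tr (N : ℕ) (x : K) : Finset ℕ := (Finset.range N).filter (fun i => x i = true)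

lemma mem_tr {N : ℕ} {x : K} {i : ℕ} : i ∈ tr N x ↔ i < N ∧ x i = true := by
  simp [tr]

lemma tr_eq_iff {N : ℕ} {x y : K} : tr N x = tr N y ↔ ∀ i < N, x i = y i := by
  constructor
  · intro h i hi
    have := congrArg (fun s => i ∈ s) h
    simp only [mem_tr, hi, true_and, eq_iff_iff] at this
    cases hx : x i <;> cases hy : y i <;> simp_all
  · intro h
    ext i
    rw [mem_tr, mem_tr]
    constructor
    · rintro ⟨h1, h2⟩; exact ⟨h1, by rw [← h i h1]; exact h2⟩
    · rintro ⟨h1, h2⟩; exact ⟨h1, by rw [h i h1]; exact h2⟩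

/-- nodes -/
abbrev Node := ℕ × Finset ℕ × Finset ℕ

/-- `a` extends `b` properly in both coordinates, inside `Φ`. -/
def rel (Φ : Set (K × K)) (a b : Node) : Prop :=
  b.1 < a.1 ∧ ∃ p ∈ Φ, tr a.1 p.1 = a.2.1 ∧ tr a.1 p.2 = a.2.2 ∧ tr b.1 p.1 = b.2.1 ∧
    tr b.1 p.2 = b.2.2 ∧ (∃ i, b.1 ≤ i ∧ i < a.1 ∧ p.1 i = true) ∧
    (∃ i, b.1 ≤ i ∧ i < a.1 ∧ p.2 i = true)

lemma not_fin_of_unbounded {x : K} (h : ∀ n, ∃ i, n ≤ i ∧ x i = true) : ¬ Fin' x := by
  intro hf
  obtain ⟨m, hm⟩ := hf.bddAbove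
  obtain ⟨i, hi, hx⟩ := h (m + 1)
  have : i ≤ m := hm hx
  omega

lemma exists_ge_of_not_fin {x : K} (h : ¬ Fin' x) (n : ℕ) : ∃ i, n ≤ i ∧ x i = true := by
  by_contra hcon
  push Not at hcon
  apply h
  refine (Set.finite_Iio n).subset ?_
  intro i hi
  by_contra hni
  exact hcon i (not_lt.1 hni) hi

lemma isClosed_tr (N : ℕ) (s : Finset ℕ) : IsClosed {x : K | tr N x = s} := by
  have : {x : K | tr N x = s} = ⋂ i, {x : K | (i < N ∧ x i = true) ↔ i ∈ s} := by
    ext x
    simp only [mem_ofPred_eq, mem_iInter]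
    constructor
    · intro h i; rw [← h, mem_tr]
    · intro h; ext i; rw [mem_tr]; exact h i
  rw [this]
  refine isClosed_iInter fun i => ?_
  exact isClosed_bool (continuous_apply i) {b | (i < N ∧ b = true) ↔ i ∈ s}

lemma rel_wf {Φ : Set (K × K)} (hΦ : IsCompact Φ) (hno : ∀ p ∈ Φ, Fin' p.1 ∨ Fin' p.2) :
    WellFounded (rel Φ) := by
  rw [wellFounded_iff_isEmpty_descending_chain]
  refine ⟨fun ⟨f, hf⟩ => ?_⟩
  let C : ℕ → Set (K × K) := fun n => {p | p ∈ Φ ∧ tr (f n).1 p.1 = (f n).2.1 ∧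
    tr (f n).1 p.2 = (f n).2.2}
  have hmono : ∀ n, (f n).1 < (f (n + 1)).1 := fun n => (hf n).1
  have hge : ∀ n, n ≤ (f n).1 := by
    intro n
    induction n with
    | zero => exact Nat.zero_le _
    | succ n ih => have := hmono n; omega
  have hC : (⋂ n, C n).Nonempty := by
    apply IsCompact.nonempty_iInter_of_sequence_nonempty_isCompact_isClosed
    · rintro n p ⟨hp, h1, h2⟩
      obtain ⟨hlt, q, hq, e1, e2, e3, e4, -, -⟩ := hf n
      refine ⟨hp, ?_, ?_⟩
      · rw [← e3, tr_eq_iff]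
        rw [← e1, tr_eq_iff] at h1
        exact fun i hi => h1 i (hi.trans hlt)
      · rw [← e4, tr_eq_iff]
        rw [← e2, tr_eq_iff] at h2
        exact fun i hi => h2 i (hi.trans hlt)
    · intro n
      obtain ⟨-, q, hq, -, -, e3, e4, -, -⟩ := hf n
      exact ⟨q, hq, e3, e4⟩
    · have : C 0 = Φ ∩ ({p | tr (f 0).1 p.1 = (f 0).2.1} ∩ {p | tr (f 0).1 p.2 = (f 0).2.2}) := rfl
      rw [this]
      exact hΦ.inter_right (((isClosed_tr _ _).preimage continuous_fst).inter
        ((isClosed_tr _ _).preimage continuous_snd))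
    · intro n
      have : C n = Φ ∩ ({p | tr (f n).1 p.1 = (f n).2.1} ∩ {p | tr (f n).1 p.2 = (f n).2.2}) := rfl
      rw [this]
      exact hΦ.isClosed.inter (((isClosed_tr _ _).preimage continuous_fst).inter
        ((isClosed_tr _ _).preimage continuous_snd))
  obtain ⟨p, hp⟩ := hC
  rw [mem_iInter] at hp
  have h1 : ¬ Fin' p.1 := by
    apply not_fin_of_unbounded
    intro n
    obtain ⟨-, q, hq, e1, -, -, -, ⟨i, hi1, hi2, hi3⟩, -⟩ := hf n
    refine ⟨i, (hge n).trans hi1, ?_⟩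
    have h := (hp (n + 1)).2.1
    rw [← e1, tr_eq_iff] at h
    rw [h i hi2]; exact hi3
  have h2 : ¬ Fin' p.2 := by
    apply not_fin_of_unbounded
    intro n
    obtain ⟨-, q, hq, -, e2, -, -, -, ⟨i, hi1, hi2, hi3⟩⟩ := hf n
    refine ⟨i, (hge n).trans hi1, ?_⟩
    have h := (hp (n + 1)).2.2
    rw [← e2, tr_eq_iff] at h
    rw [h i hi2]; exact hi3
  rcases hno p (hp 0).1 with h | h
  · exact h1 h
  · exact h2 h

lemma rank_lt_omega_one {α : Type} [Countable α] (r : α → α → Prop) [hwf : IsWellFounded α r]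
    (a : α) : IsWellFounded.rank r a < ω₁ := by
  induction a using hwf.wf.induction with
  | _ a ih =>
    rw [IsWellFounded.rank_eq]
    apply Ordinal.iSup_lt_omega_one
    rintro ⟨b, hb⟩
    exact (Cardinal.isSuccLimit_omega 1).succ_lt (ih b hb)

lemma rank_ge {Φ : Set (K × K)} [IsWellFounded Node (rel Φ)] {x : K} (hx : ¬ Fin' x)
    {d : ℕ → Ordinal.{0}} (hxd : ∀ z ∈ MM d, (x, z) ∈ Φ) {α : Ordinal.{0}}
    (hd : ∀ β < α, ∀ N, ∃ n, N ≤ n ∧ d n = β) :
    ∀ β ≤ α, ∀ (N : ℕ) (u : K), u ∈ MM d → (∀ i, u i = true → i < N) →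
      (∀ i, u i = true → β ≤ d i) → β ≤ IsWellFounded.rank (rel Φ) (N, tr N x, tr N u) := by
  intro β
  induction β using Ordinal.induction with
  | _ β ih =>
    intro hβ N u hu huN hud
    apply le_of_forall_lt
    intro β' hβ'
    obtain ⟨n', hn', hdn'⟩ := hd β' (hβ'.trans_le hβ) N
    obtain ⟨i, hi, hxi⟩ := exists_ge_of_not_fin hx N
    let u' : K := Function.update u n' true
    have hu'1 : ∀ j, u' j = true → j = n' ∨ u j = true := by
      intro j hj
      by_cases h : j = n'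
      · exact Or.inl h
      · right; simpa [u', Function.update_of_ne h] using hj
    have hu'2 : u' n' = true := by simp [u']
    have hu' : u' ∈ MM d := by
      intro a b hab ha hb
      rcases hu'1 a ha with ha | ha <;> rcases hu'1 b hb with hb | hb
      · omega
      · have := huN b hb; omega
      · rw [hb, hdn']; exact hβ'.trans_le (hud a ha)
      · exact hu a b hab ha hb
    let N' := max n' i + 1
    have hNN' : N < N' := by simp only [N']; omega
    have h1 := ih β' hβ' (hβ'.le.trans hβ) N' u' hu' (by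
      intro j hj
      rcases hu'1 j hj with h | h
      · simp only [N']; omega
      · exact (huN j h).trans hNN') (by
      intro j hj
      rcases hu'1 j hj with h | h
      · rw [h, hdn']
      · exact hβ'.le.trans (hud j h))
    refine h1.trans_lt (IsWellFounded.rank_lt_of_rel ?_)
    refine ⟨hNN', (x, u'), hxd u' hu', rfl, rfl, rfl, ?_, ⟨i, hi, by simp only [N']; omega, hxi⟩,
      ⟨n', hn', by simp only [N']; omega, hu'2⟩⟩
    rw [tr_eq_iff]
    intro j hj
    simp only [u']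
    rw [Function.update_of_ne]
    omega

lemma baire_step {M : Set K} (hM : IsClosed M) (hne : M.Nonempty) (F : ℕ → Set (ℕ → K))
    (hF : ∀ k, IsClosed (F k)) (hcov : ∀ z : ℕ → K, (∀ n, z n ∈ M) → ∃ k, z ∈ F k) :
    ∃ k m, ∀ w ∈ M, ∃ z ∈ F k, z m = w := by
  have : CompactSpace M := isCompact_iff_compactSpace.1 hM.isCompact
  have : Nonempty M := hne.to_subtype
  let Y := ℕ → M
  let ι : Y → (ℕ → K) := fun y n => (y n).1
  have hι : Continuous ι := continuous_pi fun n => continuous_subtype_val.comp (continuous_apply n)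
  obtain ⟨k, y0, hy0⟩ := nonempty_interior_of_iUnion_of_closed (X := Y)
    (f := fun k => ι ⁻¹' (F k)) (fun k => (hF k).preimage hι) (by
      ext y
      simp only [mem_iUnion, mem_preimage, mem_univ, iff_true]
      exact hcov _ (fun n => (y n).2))
  obtain ⟨I, u, hu, hI⟩ := isOpen_pi_iff.1 isOpen_interior y0 hy0
  obtain ⟨m, hm⟩ := Infinite.exists_notMem_finset I
  refine ⟨k, m, fun w hw => ?_⟩
  let y : Y := Function.update y0 m ⟨w, hw⟩
  have hy : y ∈ (I : Set ℕ).pi u := by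
    intro a ha
    have : a ≠ m := by rintro rfl; exact hm ha
    simp only [y]
    rw [Function.update_of_ne this]
    exact (hu a ha).2
  refine ⟨ι y, interior_subset (s := ι ⁻¹' F k) (hI hy), ?_⟩
  simp [ι, y]

/-- No countable family of compact subsets of `BE` covers all the sets `{x α} × (MM (d α))^ℕ`. -/
theorem no_sep (x : Ordinal.{0} → K) (hx : ∀ α < ω₁, ¬ Fin' (x α)) (d : Ordinal.{0} → ℕ → Ordinal.{0})
    (hd : ∀ α < ω₁, ∀ β < α, ∀ N, ∃ n, N ≤ n ∧ d α n = β) (F : ℕ → Set E)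
    (hF : ∀ k, IsCompact (F k)) (hFB : ∀ k, F k ⊆ BE)
    (hcov : ∀ α < ω₁, ∀ z : ℕ → K, (∀ n, z n ∈ MM (d α)) → ∃ k, (x α, z) ∈ F k) : False := by
  let Φ : ℕ × ℕ → Set (K × K) := fun q => (fun p : E => (p.1, p.2 q.2)) '' F q.1
  have hΦ : ∀ q, IsCompact (Φ q) := fun q => (hF q.1).image
    (continuous_fst.prodMk ((continuous_apply q.2).comp continuous_snd))
  have hno : ∀ q, ∀ p ∈ Φ q, Fin' p.1 ∨ Fin' p.2 := by
    rintro q p ⟨p', hp', rfl⟩
    rcases hFB _ hp' with h | h
    · exact Or.inl h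
    · exact Or.inr (h _)
  have : ∀ q, IsWellFounded Node (rel (Φ q)) := fun q => ⟨rel_wf (hΦ q) (hno q)⟩
  let ρ : ℕ × ℕ → Ordinal.{0} := fun q => IsWellFounded.rank (rel (Φ q)) (0, ∅, ∅)
  let σ : Ordinal.{0} := ⨆ q, Order.succ (ρ q)
  have hσ : σ < ω₁ := Ordinal.iSup_lt_omega_one
    (fun q => (Cardinal.isSuccLimit_omega 1).succ_lt (rank_lt_omega_one _ _))
  obtain ⟨k, m, hkm⟩ := baire_step (MM_closed (d σ)) ⟨_, MM_zero _⟩
    (fun k => (fun z : ℕ → K => ((x σ, z) : E)) ⁻¹' (F k))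
    (fun k => (hF k).isClosed.preimage (by fun_prop)) (fun z hz => hcov σ hσ z hz)
  have h1 : ∀ z ∈ MM (d σ), (x σ, z) ∈ Φ (k, m) := by
    intro w hw
    obtain ⟨z, hz, hzm⟩ := hkm w hw
    exact ⟨(x σ, z), hz, by simp [hzm]⟩
  have h2 := rank_ge (Φ := Φ (k, m)) (hx σ hσ) h1 (hd σ hσ) σ le_rfl 0 (fun _ => false)
    (MM_zero _) (by simp) (by simp)
  have h3 : IsWellFounded.rank (rel (Φ (k, m))) (0, tr 0 (x σ), tr 0 (fun _ => false))
      = ρ (k, m) := rfl
  rw [h3] at h2
  have h4 : Order.succ (ρ (k, m)) ≤ σ := Ordinal.le_iSup (fun q => Order.succ (ρ q)) (k, m)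
  exact absurd (h2.trans_lt (Order.lt_succ (ρ (k, m)))) (not_lt.2 h4)

lemma exists_d {α : Ordinal.{0}} (hα : α < ω₁) :
    ∃ d : ℕ → Ordinal.{0}, ∀ β < α, ∀ N, ∃ n, N ≤ n ∧ d n = β := by
  have hc : (Set.Iio α).Countable := by
    rw [← Cardinal.le_aleph0_iff_set_countable, Cardinal.mk_Iio_ordinal]
    have h : α.card < Cardinal.aleph 1 := by
      rw [← Cardinal.lt_ord]
      simpa using hα
    rw [Cardinal.lt_aleph_one_iff] at h
    rw [← Cardinal.lift_aleph0.{1, 0}, Cardinal.lift_le]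
    exact h
  by_cases hne : (Set.Iio α).Nonempty
  · obtain ⟨e, he⟩ := hc.exists_eq_range hne
    refine ⟨fun n => e (Nat.unpair n).1, ?_⟩
    intro β hβ N
    have : β ∈ Set.range e := by rw [← he]; exact hβ
    obtain ⟨k, hk⟩ := this
    exact ⟨Nat.pair k N, Nat.right_le_pair _ _, by simp [hk]⟩
  · refine ⟨fun _ => 0, fun β hβ => absurd ⟨β, hβ⟩ hne⟩

end Pool.Agent.H87.Hur
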