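import Pool.Agent.H87.HurA

/-!
The Hurewicz property of the sets `Q × P(ℕ)^ℕ ∪ ⋃_{α < ω₁} {x α} × (MM (d α))^ℕ`.
-/

set_option autoImplicit false

namespace Pool.Agent.H87.Hur

open Set Filter Ordinal

/-- `S` can be handled in all selection tasks for open covers (by ambient open sets) of `X`. -/
def Star (X S : Set E) : Prop :=
  ∀ 𝒰 : ℕ → Set (Set E), (∀ n, ∀ O ∈ 𝒰 n, IsOpen O) → (∀ n, X ⊆ ⋃₀ 𝒰 n) →
    ∃ 𝓕 : ℕ → Set (Set E), (∀ n, 𝓕 n ⊆ 𝒰 n ∧ (𝓕 n).Finite) ∧
      ∀ y ∈ S, ∀ᶠ n in atTop, y ∈ ⋃₀ 𝓕 n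

lemma compact_select {C : Set E} (hC : IsCompact C) {𝒰 : Set (Set E)} (hU : ∀ O ∈ 𝒰, IsOpen O)
    (hcov : C ⊆ ⋃₀ 𝒰) : ∃ 𝓕 : Set (Set E), 𝓕 ⊆ 𝒰 ∧ 𝓕.Finite ∧ C ⊆ ⋃₀ 𝓕 := by
  obtain ⟨T, hT⟩ := hC.elim_finite_subcover (fun O : 𝒰 => O.1) (fun O => hU O.1 O.2) (by
    rwa [← sUnion_eq_iUnion])
  refine ⟨(fun O : 𝒰 => O.1) '' (T : Set 𝒰), ?_, T.finite_toSet.image _, ?_⟩
  · rintro _ ⟨O, -, rfl⟩
    exact O.2
  · intro p hp
    have := hT hp
    simp only [mem_iUnion] at this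
    obtain ⟨O, hO, hp⟩ := this
    exact ⟨O.1, ⟨O, hO, rfl⟩, hp⟩

lemma star_mono {X S S' : Set E} (h : Star X S) (hS : S' ⊆ S) : Star X S' := by
  intro 𝒰 h1 h2
  obtain ⟨𝓕, h3, h4⟩ := h 𝒰 h1 h2
  exact ⟨𝓕, h3, fun y hy => h4 y (hS hy)⟩

lemma star_union {X S S' : Set E} (h : Star X S) (h' : Star X S') : Star X (S ∪ S') := by
  intro 𝒰 h1 h2
  obtain ⟨𝓕, h3, h4⟩ := h 𝒰 h1 h2
  obtain ⟨𝓕', h3', h4'⟩ := h' 𝒰 h1 h2
  refine ⟨fun n => 𝓕 n ∪ 𝓕' n, fun n => ⟨union_subset (h3 n).1 (h3' n).1,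
    (h3 n).2.union (h3' n).2⟩, ?_⟩
  rintro y (hy | hy)
  · filter_upwards [h4 y hy] with n hn
    exact sUnion_subset_sUnion subset_union_left hn
  · filter_upwards [h4' y hy] with n hn
    exact sUnion_subset_sUnion subset_union_right hn

lemma star_countable_compact {X : Set E} (C : ℕ → Set E) (hC : ∀ i, IsCompact (C i))
    (hCX : ∀ i, C i ⊆ X) : Star X (⋃ i, C i) := by
  intro 𝒰 h1 h2
  have : ∀ n, ∃ 𝓕 : Set (Set E), 𝓕 ⊆ 𝒰 n ∧ 𝓕.Finite ∧ (⋃ i ∈ Finset.range (n + 1), C i) ⊆ ⋃₀ 𝓕 := by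
    intro n
    apply compact_select
    · exact (Finset.range (n + 1)).isCompact_biUnion (fun i _ => hC i)
    · exact h1 n
    · exact (iUnion₂_subset fun i _ => hCX i).trans (h2 n)
  choose 𝓕 h3 h4 h5 using this
  refine ⟨𝓕, fun n => ⟨h3 n, h4 n⟩, ?_⟩
  intro y hy
  obtain ⟨i, hi⟩ := mem_iUnion.1 hy
  filter_upwards [eventually_ge_atTop i] with n hn
  apply h5 n
  simp only [mem_iUnion]
  exact ⟨i, by simp; omega, hi⟩

lemma star_countable {X : Set E} {ι : Type*} (I : Set ι) (hI : I.Countable) (C : ι → Set E)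
    (hC : ∀ i ∈ I, IsCompact (C i)) (hCX : ∀ i ∈ I, C i ⊆ X) : Star X (⋃ i ∈ I, C i) := by
  by_cases hne : I.Nonempty
  · obtain ⟨e, he⟩ := hI.exists_eq_range hne
    have hmem : ∀ n, e n ∈ I := fun n => by rw [he]; exact ⟨n, rfl⟩
    have := star_countable_compact (fun n => C (e n)) (fun n => hC _ (hmem n))
      (fun n => hCX _ (hmem n))
    refine star_mono this ?_
    intro y hy
    simp only [mem_iUnion] at hy ⊢
    obtain ⟨i, hi, hy⟩ := hy
    rw [he] at hi
    obtain ⟨n, rfl⟩ := hi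
    exact ⟨n, hy⟩
  · rw [Set.not_nonempty_iff_eq_empty] at hne
    subst hne
    intro 𝒰 _ _
    exact ⟨fun _ => ∅, fun n => ⟨empty_subset _, finite_empty⟩, by simp⟩

/-- The characteristic function of a finite set. -/
def chi (s : Finset ℕ) : K := fun n => decide (n ∈ s)

lemma star_base {X : Set E} (hX : {p : E | Fin' p.1} ⊆ X) : Star X {p : E | Fin' p.1} := by
  have h1 : {p : E | Fin' p.1} = ⋃ s ∈ (Set.univ : Set (Finset ℕ)), {p : E | p.1 = chi s} := by
    ext p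
    simp only [mem_ofPred_eq, mem_univ, iUnion_true, mem_iUnion]
    constructor
    · intro h
      refine ⟨h.toFinset, ?_⟩
      funext n
      by_cases hn : p.1 n = true
      · simp [chi, hn]
      · simp [chi, hn]
    · rintro ⟨s, hs⟩
      rw [hs]
      have : {n | chi s n = true} = (s : Set ℕ) := by ext n; simp [chi]
      rw [Fin', this]
      exact s.finite_toSet
  rw [h1] at hX ⊢
  refine star_countable _ (Set.to_countable _) _ (fun s _ => ?_) (fun s hs => ?_)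
  · have : {p : E | p.1 = chi s} = Prod.fst ⁻¹' {chi s} := rfl
    rw [this]
    exact (isClosed_singleton.preimage continuous_fst).isCompact
  · refine Subset.trans ?_ hX
    intro p hp
    simp only [mem_iUnion]
    exact ⟨s, trivial, hp⟩

/-- The fibre sets. -/
def Cset (x : K) (d : ℕ → Ordinal.{0}) : Set E := {p | p.1 = x ∧ ∀ n, p.2 n ∈ MM d}

lemma Cset_compact (x : K) (d : ℕ → Ordinal.{0}) : IsCompact (Cset x d) := by
  have : Cset x d = (Prod.fst ⁻¹' {x}) ∩ ⋂ n, (fun p : E => p.2 n) ⁻¹' (MM d) := by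
    ext p; simp [Cset]
  rw [this]
  refine IsClosed.isCompact ?_
  refine (isClosed_singleton.preimage continuous_fst).inter (isClosed_iInter fun n => ?_)
  exact (MM_closed d).preimage ((continuous_apply n).comp continuous_snd)

/-- The set `X`. -/
def XE (x : Ordinal.{0} → K) (d : Ordinal.{0} → ℕ → Ordinal.{0}) : Set E :=
  {p | Fin' p.1} ∪ ⋃ α ∈ Set.Iio ω₁, Cset (x α) (d α)

lemma XE_subset_BE (x : Ordinal.{0} → K) (d : Ordinal.{0} → ℕ → Ordinal.{0}) :
    XE x d ⊆ BE := by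
  rintro p (hp | hp)
  · exact Or.inl hp
  · simp only [mem_iUnion] at hp
    obtain ⟨α, _, h1, h2⟩ := hp
    exact Or.inr fun n => MM_fin (h2 n)

/-- Case (b): all `ω₁`-families of functions are bounded. -/
lemma star_of_bounded (x : Ordinal.{0} → K) (d : Ordinal.{0} → ℕ → Ordinal.{0})
    (hb : ∀ u : Ordinal.{0} → ℕ → ℕ, ∃ g : ℕ → ℕ, ∀ α < ω₁, ∀ᶠ n in atTop, u α n ≤ g n) :
    Star (XE x d) (XE x d) := by
  refine star_union (star_base subset_union_left) ?_
  intro 𝒰 h1 h2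
  -- countable subcovers
  have h3 : ∀ n, ∃ e : ℕ → Set E, (∀ i, e i ∈ 𝒰 n) ∧ XE x d ⊆ ⋃ i, e i := by
    intro n
    obtain ⟨T, hTc, hTs, hTU⟩ := TopologicalSpace.isOpen_sUnion_countable (𝒰 n) (h1 n)
    have hne : T.Nonempty := by
      have hx : ((fun _ => false, fun _ _ => false) : E) ∈ XE x d := by
        left
        simp [Fin']
      have := h2 n hx
      rw [← hTU] at this
      obtain ⟨O, hO, _⟩ := this
      exact ⟨O, hO⟩
    obtain ⟨e, he⟩ := hTc.exists_eq_range hne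
    refine ⟨e, fun i => hTs (by rw [he]; exact ⟨i, rfl⟩), ?_⟩
    rw [← sUnion_range, ← he, hTU]
    exact h2 n
  choose e he1 he2 using h3
  have h4 : ∀ (α : Ordinal.{0}) (n : ℕ), ∃ j : ℕ, α < ω₁ → Cset (x α) (d α) ⊆
      ⋃ i ∈ Finset.range j, e n i := by
    intro α n
    by_cases hα : α < ω₁
    · have hsub : Cset (x α) (d α) ⊆ ⋃ i, e n i := by
        refine Subset.trans ?_ (he2 n)
        intro p hp
        right
        simp only [mem_iUnion]
        exact ⟨α, hα, hp⟩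
      obtain ⟨t, ht⟩ := (Cset_compact (x α) (d α)).elim_finite_subcover (e n)
        (fun i => h1 n _ (he1 n i)) hsub
      refine ⟨t.sup id + 1, fun _ => ht.trans ?_⟩
      intro p hp
      simp only [mem_iUnion] at hp ⊢
      obtain ⟨i, hi, hp⟩ := hp
      refine ⟨i, ?_, hp⟩
      rw [Finset.mem_range]
      have : i ≤ t.sup id := Finset.le_sup (f := id) hi
      omega
    · exact ⟨0, fun h => absurd h hα⟩
  choose u hu using h4
  obtain ⟨g, hg⟩ := hb u
  refine ⟨fun n => e n '' (Finset.range (g n) : Set ℕ), fun n => ⟨?_, ?_⟩, ?_⟩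
  · rintro O ⟨i, -, rfl⟩
    exact he1 n i
  · exact (Finset.finite_toSet _).image _
  · intro p hp
    simp only [mem_iUnion] at hp
    obtain ⟨α, hα, hp⟩ := hp
    filter_upwards [hg α hα] with n hn
    have := hu α n hα hp
    simp only [mem_iUnion, Finset.mem_range] at this
    obtain ⟨i, hi, hpi⟩ := this
    exact ⟨e n i, ⟨i, by simpa using hi.trans_le hn, rfl⟩, hpi⟩

/-- Neighbourhoods of the base: the sets missing a long interval are covered. -/
lemma claimA {X : Set E} (hX : {p : E | Fin' p.1} ⊆ X) {𝒰 : Set (Set E)}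
    (hU : ∀ O ∈ 𝒰, IsOpen O) (hcov : X ⊆ ⋃₀ 𝒰) (a : ℕ) :
    ∃ (𝓕 : Set (Set E)) (h : ℕ), 𝓕 ⊆ 𝒰 ∧ 𝓕.Finite ∧ a < h ∧
      ∀ p : E, (∀ i, a ≤ i → i < h → p.1 i = false) → p ∈ ⋃₀ 𝓕 := by
  have hclosed : ∀ h : ℕ, IsClosed {p : E | ∀ i, a ≤ i → i < h → p.1 i = false} := by
    intro h
    have : {p : E | ∀ i, a ≤ i → i < h → p.1 i = false}
        = ⋂ i, (fun p : E => p.1 i) ⁻¹' {b | a ≤ i → i < h → b = false} := by
      ext p; simp
    rw [this]
    exact isClosed_iInter fun i => isClosed_bool ((continuous_apply i).comp continuous_fst) _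
  have hclosed' : IsClosed {p : E | ∀ i, a ≤ i → p.1 i = false} := by
    have : {p : E | ∀ i, a ≤ i → p.1 i = false}
        = ⋂ i, (fun p : E => p.1 i) ⁻¹' {b | a ≤ i → b = false} := by
      ext p; simp
    rw [this]
    exact isClosed_iInter fun i => isClosed_bool ((continuous_apply i).comp continuous_fst) _
  have hsub : {p : E | ∀ i, a ≤ i → p.1 i = false} ⊆ ⋃₀ 𝒰 := by
    refine Subset.trans ?_ hcov
    refine Subset.trans ?_ hX
    intro p hp
    refine (Set.finite_Iio a).subset ?_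
    intro i hi
    by_contra hni
    have := hp i (not_lt.1 hni)
    simp only [mem_ofPred_eq] at hi
    rw [this] at hi
    exact absurd hi (by simp)
  obtain ⟨𝓕, h1, h2, h3⟩ := compact_select hclosed'.isCompact hU hsub
  have hWopen : IsOpen (⋃₀ 𝓕) := isOpen_sUnion fun O hO => hU O (h1 hO)
  by_contra hcon
  push Not at hcon
  have hne : (⋂ h : ℕ, ({p : E | ∀ i, a ≤ i → i < h → p.1 i = false} ∩ (⋃₀ 𝓕)ᶜ)).Nonempty := by
    apply IsCompact.nonempty_iInter_of_sequence_nonempty_isCompact_isClosed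
    · rintro h p ⟨hp, hp'⟩
      exact ⟨fun i hi hi' => hp i hi (by omega), hp'⟩
    · intro h
      by_cases hah : a < h
      · obtain ⟨p, hp, hp'⟩ := hcon 𝓕 h h1 h2 hah
        exact ⟨p, hp, hp'⟩
      · obtain ⟨p, hp, hp'⟩ := hcon 𝓕 (a + 1) h1 h2 (by omega)
        exact ⟨p, fun i hi hi' => by omega, hp'⟩
    · exact ((hclosed 0).inter hWopen.isClosed_compl).isCompact
    · intro h
      exact (hclosed h).inter hWopen.isClosed_compl
  obtain ⟨p, hp⟩ := hne
  rw [mem_iInter] at hp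
  exact (hp 0).2 (h3 (fun i hi => (hp (i + 1)).1 i hi (by omega)))

lemma pigeon {G f : ℕ → ℕ} (hG : StrictMono G) (hf : Monotone f) {n k : ℕ} (hnk : n < k)
    (h : f (2 * k) ≤ G k) :
    ∃ j, n ≤ j ∧ j < 2 * k ∧ ∀ i, f j ≤ i → i < f (j + 1) → i ∉ Set.range G := by
  by_contra hcon
  push Not at hcon
  have h1 : ∀ j : ℕ, ∃ t : ℕ, n ≤ j → j < 2 * k → f j ≤ G t ∧ G t < f (j + 1) := by
    intro j
    by_cases hj : n ≤ j ∧ j < 2 * k
    · obtain ⟨i, hi1, hi2, t, rfl⟩ := hcon j hj.1 hj.2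
      exact ⟨t, fun _ _ => ⟨hi1, hi2⟩⟩
    · exact ⟨0, fun h1 h2 => absurd ⟨h1, h2⟩ hj⟩
  choose t ht using h1
  obtain ⟨j, hj, j', hj', hne, heq⟩ := Finset.exists_ne_map_eq_of_card_lt_of_maps_to
    (s := Finset.Ico n (2 * k)) (t := Finset.range k) (f := t) (by simp; omega) (by
      intro j hj
      rw [Finset.coe_Ico, Set.mem_Ico] at hj
      rw [Finset.coe_range, Set.mem_Iio]
      have := (ht j hj.1 hj.2).2
      have h2 : f (j + 1) ≤ f (2 * k) := hf (by omega)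
      exact hG.lt_iff_lt.1 (this.trans_le (h2.trans h)))
  rw [Finset.mem_Ico] at hj hj'
  have e1 := ht j hj.1 hj.2
  have e2 := ht j' hj'.1 hj'.2
  rcases lt_or_gt_of_ne hne with hlt | hlt
  · have h3 : f (j + 1) ≤ f j' := hf hlt
    rw [heq] at e1
    omega
  · have h3 : f (j' + 1) ≤ f j := hf hlt
    rw [heq] at e1
    omega

/-- Case (a): an eventually increasing unbounded family of length `ω₁`. -/
lemma star_of_scale (G : Ordinal.{0} → ℕ → ℕ) (hG : ∀ α < ω₁, StrictMono (G α))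
    (hGi : ∀ α < ω₁, ∀ β < α, ∀ᶠ n in atTop, G β n ≤ G α n)
    (hGu : ∀ g : ℕ → ℕ, ∃ α < ω₁, ∃ᶠ n in atTop, g n < G α n)
    (x : Ordinal.{0} → K) (hx : ∀ α < ω₁, ∀ i, x α i = true ↔ i ∈ Set.range (G α))
    (d : Ordinal.{0} → ℕ → Ordinal.{0}) :
    Star (XE x d) (XE x d) := by
  intro 𝒰 h1 h2
  have hA : ∀ n a, ∃ (𝓕 : Set (Set E)) (h : ℕ), 𝓕 ⊆ 𝒰 n ∧ 𝓕.Finite ∧ a < h ∧
      ∀ p : E, (∀ i, a ≤ i → i < h → p.1 i = false) → p ∈ ⋃₀ 𝓕 :=
    fun n a => claimA subset_union_left (h1 n) (h2 n) a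
  choose 𝓐 h hA1 hA2 hA3 hA4 using hA
  let H : ℕ → ℕ := fun a => (Finset.range (a + 1)).sup (fun n => h n a)
  have hH : ∀ n a, n ≤ a → h n a ≤ H a := fun n a hna =>
    Finset.le_sup (f := fun n => h n a) (Finset.mem_range.2 (by omega))
  let f : ℕ → ℕ := fun j => Nat.rec 0 (fun _ r => H r) j
  have hfs : ∀ j, f (j + 1) = H (f j) := fun j => rfl
  have hflt : ∀ j, f j < f (j + 1) := fun j => by
    rw [hfs]
    exact (hA3 0 (f j)).trans_le (hH 0 (f j) (Nat.zero_le _))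
  have hfm : StrictMono f := strictMono_nat_of_lt_succ hflt
  have hfge : ∀ j, j ≤ f j := fun j => hfm.le_apply
  obtain ⟨α₀, hα₀, hfreq⟩ := hGu (fun k => f (2 * k))
  have hk : ∀ n, ∃ k, n < k ∧ f (2 * k) < G α₀ k := by
    intro n
    obtain ⟨k, hk1, hk2⟩ := (frequently_atTop.1 hfreq) (n + 1)
    exact ⟨k, by omega, hk2⟩
  choose k hk1 hk2 using hk
  have hktend : Tendsto k atTop atTop :=
    tendsto_atTop_mono (fun n => (hk1 n).le) tendsto_id
  -- the countable part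
  have hcount : Star (XE x d) ({p | Fin' p.1} ∪ ⋃ α ∈ Set.Iio α₀, Cset (x α) (d α)) := by
    refine star_union (star_base subset_union_left) (star_countable _ ?_ _
      (fun α _ => Cset_compact _ _) (fun α hα => ?_))
    · rw [← Cardinal.le_aleph0_iff_set_countable, Cardinal.mk_Iio_ordinal]
      have h : α₀.card < Cardinal.aleph 1 := by
        rw [← Cardinal.lt_ord]
        simpa using hα₀
      rw [Cardinal.lt_aleph_one_iff] at h
      rw [← Cardinal.lift_aleph0.{1, 0}, Cardinal.lift_le]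
      exact h
    · refine Subset.trans ?_ subset_union_right
      intro p hp
      simp only [mem_iUnion]
      exact ⟨α, lt_trans (mem_Iio.1 hα) hα₀, hp⟩
  obtain ⟨𝓑, hB1, hB2⟩ := hcount 𝒰 h1 h2
  refine ⟨fun n => 𝓑 n ∪ ⋃ j ∈ Finset.range (2 * k n), 𝓐 n (f j), fun n => ⟨?_, ?_⟩, ?_⟩
  · refine union_subset (hB1 n).1 (iUnion₂_subset fun j _ => hA1 n (f j))
  · refine (hB1 n).2.union ?_
    exact Set.Finite.biUnion (Finset.finite_toSet _) (fun j _ => hA2 n (f j))
  · intro p hp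
    have hcase : p ∈ ({p | Fin' p.1} ∪ ⋃ α ∈ Set.Iio α₀, Cset (x α) (d α)) ∨
        ∃ α, α₀ ≤ α ∧ α < ω₁ ∧ p.1 = x α := by
      rcases hp with hp | hp
      · exact Or.inl (Or.inl hp)
      · simp only [mem_iUnion] at hp
        obtain ⟨α, hα, hp⟩ := hp
        by_cases hlt : α < α₀
        · left; right
          simp only [mem_iUnion]
          exact ⟨α, hlt, hp⟩
        · right
          exact ⟨α, not_lt.1 hlt, hα, hp.1⟩
    rcases hcase with hp | ⟨α, hα1, hα2, hpα⟩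
    · filter_upwards [hB2 p hp] with n hn
      exact sUnion_subset_sUnion subset_union_left hn
    · have hev : ∀ᶠ m in atTop, G α₀ m ≤ G α m := by
        rcases hα1.eq_or_lt with rfl | hlt
        · exact Eventually.of_forall fun m => le_rfl
        · exact hGi α hα2 α₀ hlt
      filter_upwards [hktend.eventually hev] with n hn
      obtain ⟨j, hj1, hj2, hj3⟩ := pigeon (hG α hα2) hfm.monotone (hk1 n)
        ((hk2 n).le.trans hn)
      have hmem : p ∈ ⋃₀ 𝓐 n (f j) := by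
        apply hA4 n (f j)
        intro i hi1 hi2
        have hi3 : i < f (j + 1) := hi2.trans_le (hH n (f j) (hj1.trans (hfge j)))
        have := hj3 i hi1 hi3
        rw [← hx α hα2] at this
        rw [hpα]
        simpa using this
      obtain ⟨O, hO, hpO⟩ := hmem
      refine ⟨O, Or.inr ?_, hpO⟩
      simp only [mem_iUnion]
      exact ⟨j, Finset.mem_range.2 hj2, hO⟩

/-- A countable family of functions has a strictly increasing eventual bound. -/
lemma exists_dom (S : Set (ℕ → ℕ)) (hS : S.Countable) :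
    ∃ G : ℕ → ℕ, StrictMono G ∧ ∀ u ∈ S, ∀ᶠ n in atTop, u n ≤ G n := by
  by_cases hne : S.Nonempty
  · obtain ⟨e, he⟩ := hS.exists_eq_range hne
    let s : ℕ → ℕ := fun m => 1 + ∑ i ∈ Finset.range (m + 1), e i m
    refine ⟨fun n => ∑ m ∈ Finset.range (n + 1), s m, ?_, ?_⟩
    · apply strictMono_nat_of_lt_succ
      intro n
      have h1 : ∑ m ∈ Finset.range (n + 1 + 1), s m
          = ∑ m ∈ Finset.range (n + 1), s m + s (n + 1) := Finset.sum_range_succ _ _
      have h2 : 1 ≤ s (n + 1) := Nat.le_add_right _ _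
      change ∑ m ∈ Finset.range (n + 1), s m < ∑ m ∈ Finset.range (n + 1 + 1), s m
      omega
    · intro u hu
      rw [he] at hu
      obtain ⟨i, rfl⟩ := hu
      filter_upwards [eventually_ge_atTop i] with n hn
      have h1 : e i n ≤ ∑ i ∈ Finset.range (n + 1), e i n :=
        Finset.single_le_sum (f := fun i => e i n) (fun _ _ => Nat.zero_le _)
          (Finset.mem_range.2 (by omega))
      have h2 : s n ≤ ∑ m ∈ Finset.range (n + 1), s m :=
        Finset.single_le_sum (f := s) (fun _ _ => Nat.zero_le _)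
          (Finset.mem_range.2 (by omega))
      have h3 : ∑ i ∈ Finset.range (n + 1), e i n ≤ s n := Nat.le_add_left _ _
      omega
  · exact ⟨id, strictMono_id, fun u hu => absurd ⟨u, hu⟩ hne⟩

open Classical in
/-- A chosen dominating function. -/
noncomputable def dom (S : Set (ℕ → ℕ)) : ℕ → ℕ :=
  if h : S.Countable then Classical.choose (exists_dom S h) else id

lemma dom_spec {S : Set (ℕ → ℕ)} (hS : S.Countable) :
    StrictMono (dom S) ∧ ∀ u ∈ S, ∀ᶠ n in atTop, u n ≤ dom S n := by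
  rw [dom, dif_pos hS]
  exact Classical.choose_spec (exists_dom S hS)

/-- The scale built from `u`. -/
noncomputable def scale (u : Ordinal.{0} → ℕ → ℕ) : Ordinal.{0} → ℕ → ℕ :=
  WellFounded.fix (C := fun _ => ℕ → ℕ) (r := (· < ·)) wellFounded_lt
    (fun α ih => dom (insert (u α) (Set.range (fun β : Set.Iio α => ih β β.2))))

lemma scale_eq (u : Ordinal.{0} → ℕ → ℕ) (α : Ordinal.{0}) :
    scale u α = dom (insert (u α) (Set.range (fun β : Set.Iio α => scale u β))) := by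
  rw [scale, WellFounded.fix_eq]

lemma countable_Iio {α : Ordinal.{0}} (hα : α < ω₁) : (Set.Iio α).Countable := by
  rw [← Cardinal.le_aleph0_iff_set_countable, Cardinal.mk_Iio_ordinal]
  have h : α.card < Cardinal.aleph 1 := by
    rw [← Cardinal.lt_ord]
    simpa using hα
  rw [Cardinal.lt_aleph_one_iff] at h
  rw [← Cardinal.lift_aleph0.{1, 0}, Cardinal.lift_le]
  exact h

lemma scale_spec (u : Ordinal.{0} → ℕ → ℕ) {α : Ordinal.{0}} (hα : α < ω₁) :
    StrictMono (scale u α) ∧ (∀ᶠ n in atTop, u α n ≤ scale u α n) ∧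
      ∀ β < α, ∀ᶠ n in atTop, scale u β n ≤ scale u α n := by
  have hc : (insert (u α) (Set.range (fun β : Set.Iio α => scale u β))).Countable := by
    refine Set.Countable.insert _ ?_
    have := (countable_Iio hα).to_subtype
    exact Set.countable_range _
  obtain ⟨h1, h2⟩ := dom_spec hc
  rw [← scale_eq] at h1 h2
  exact ⟨h1, h2 _ (mem_insert _ _), fun β hβ => h2 _ (mem_insert_of_mem _ ⟨⟨β, hβ⟩, rfl⟩)⟩

/-- **Main existence theorem** in `E`. -/
theorem exists_XE : ∃ (x : Ordinal.{0} → K) (d : Ordinal.{0} → ℕ → Ordinal.{0}),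
    (∀ α < ω₁, ¬ Fin' (x α)) ∧ (∀ α < ω₁, ∀ β < α, ∀ N, ∃ n, N ≤ n ∧ d α n = β) ∧
    Star (XE x d) (XE x d) := by
  classical
  have hd : ∀ α : Ordinal.{0}, ∃ d : ℕ → Ordinal.{0}, α < ω₁ →
      ∀ β < α, ∀ N, ∃ n, N ≤ n ∧ d n = β := by
    intro α
    by_cases hα : α < ω₁
    · obtain ⟨d, hd⟩ := exists_d hα
      exact ⟨d, fun _ => hd⟩
    · exact ⟨fun _ => 0, fun h => absurd h hα⟩
  choose d hd using hd
  by_cases hb : ∀ u : Ordinal.{0} → ℕ → ℕ, ∃ g : ℕ → ℕ, ∀ α < ω₁, ∀ᶠ n in atTop, u α n ≤ g n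
  · refine ⟨fun _ _ => true, d, fun α _ => ?_, hd, star_of_bounded _ _ hb⟩
    exact not_fin_of_unbounded fun n => ⟨n, le_rfl, rfl⟩
  · push Not at hb
    obtain ⟨u, hu⟩ := hb
    have hrange : ∀ α < ω₁, ∀ n, ∃ i, n ≤ i ∧ i ∈ Set.range (scale u α) := by
      intro α hα n
      exact ⟨scale u α n, (scale_spec u hα).1.le_apply, n, rfl⟩
    refine ⟨fun α i => decide (i ∈ Set.range (scale u α)), d, fun α hα => ?_, hd,
      star_of_scale (scale u) (fun α hα => (scale_spec u hα).1)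
        (fun α hα => (scale_spec u hα).2.2) ?_ _ (fun α hα i => by simp) d⟩
    · apply not_fin_of_unbounded
      intro n
      obtain ⟨i, hi, hi'⟩ := hrange α hα n
      exact ⟨i, hi, by simpa using hi'⟩
    · intro g
      obtain ⟨α, hα, hfr⟩ := hu g
      refine ⟨α, hα, ?_⟩
      refine (hfr.and_eventually (scale_spec u hα).2.1).mono ?_
      rintro n ⟨h1, h2⟩
      omega

end Pool.Agent.H87.Hur
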