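import Pool.Agent.H87.Star
import Pool.Agent.H87.Grp

set_option autoImplicit false

/-!
Proper systems of congruences in the hyperbolic plane, solved with elements of `SL(2, ℝ)`.
-/

namespace Pool.Agent.H87.OwnC

/-- the isometry of the hyperbolic plane given by an element of `SL(2, ℝ)` -/
noncomputable def mob (g : Matrix.SpecialLinearGroup (Fin 2) ℝ) :
    IsometryEquiv UpperHalfPlane UpperHalfPlane := IsometryEquiv.constSMul g

lemma mob_mul (g h : Matrix.SpecialLinearGroup (Fin 2) ℝ) (S : Set UpperHalfPlane) :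
    mob (g * h) '' S = mob g '' (mob h '' S) := by
  rw [← Set.image_comp]
  congr 1
  funext z
  exact mul_smul g h z

lemma mob_inv (g : Matrix.SpecialLinearGroup (Fin 2) ℝ) (S : Set UpperHalfPlane) :
    mob g⁻¹ '' (mob g '' S) = S := by
  rw [← mob_mul, inv_mul_cancel]
  have : (mob 1 : UpperHalfPlane → UpperHalfPlane) = id := by
    funext z
    exact one_smul (Matrix.SpecialLinearGroup (Fin 2) ℝ) z
  rw [this, Set.image_id]

theorem base (I M : Type) (L R : M → Set I) (hI : Nonempty I)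
    (hM : Cardinal.mk M ≤ Cardinal.continuum)
    (hLR : ∀ i, (L i).Nonempty ∧ L i ≠ Set.univ ∧ (R i).Nonempty ∧ R i ≠ Set.univ) :
    ∃ A : I → Set UpperHalfPlane,
      Pairwise (fun j k => Disjoint (A j) (A k)) ∧ (⋃ j, A j) = Set.univ ∧
      ∀ i, ∃ g : Matrix.SpecialLinearGroup (Fin 2) ℝ,
        mob g '' (⋃ j ∈ L i, A j) = ⋃ j ∈ R i, A j := by
  classical
  obtain ⟨i₀⟩ := hI
  -- the normalised family of sets
  let nrm : Set I → Set I := fun S => if i₀ ∈ S then S else Sᶜ
  let 𝒞 : Set (Set I) := Set.range (fun m : M ⊕ M => nrm (Sum.elim L R m))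
  have hLR' : ∀ m : M ⊕ M, (Sum.elim L R m).Nonempty ∧ Sum.elim L R m ≠ Set.univ := by
    rintro (m | m)
    · exact ⟨(hLR m).1, (hLR m).2.1⟩
    · exact ⟨(hLR m).2.2.1, (hLR m).2.2.2⟩
  have h𝒞 : ∀ C ∈ 𝒞, i₀ ∈ C ∧ C ≠ Set.univ := by
    rintro C ⟨m, rfl⟩
    obtain ⟨h1, h2⟩ := hLR' m
    by_cases h : i₀ ∈ Sum.elim L R m
    · simp only [nrm, h, if_true]
      exact ⟨trivial, h2⟩
    · simp only [nrm, h, if_false]
      refine ⟨h, ?_⟩
      intro e
      rw [Set.compl_univ_iff] at e
      exact h1.ne_empty e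
  -- the group
  have hcard : Cardinal.mk (Option 𝒞) ≤ Cardinal.continuum := by
    rw [Cardinal.mk_option]
    refine Cardinal.add_le_of_le Cardinal.aleph0_le_continuum ?_
      (Cardinal.one_le_aleph0.trans Cardinal.aleph0_le_continuum)
    refine Cardinal.mk_range_le.trans ?_
    rw [Cardinal.mk_sum, Cardinal.lift_id]
    exact Cardinal.add_le_of_le Cardinal.aleph0_le_continuum hM hM
  obtain ⟨ξ, hξ⟩ := H87.Grp.exists_algInd (Option 𝒞) hcard
  let f : FreeGroup (Option 𝒞) →* Matrix.SpecialLinearGroup (Fin 2) ℝ :=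
    FreeGroup.lift fun x => H87.Grp.M (ξ x)
  have hf : Function.Injective f := H87.Grp.lift_M_injective hξ
  let _ : MulAction (FreeGroup (Option 𝒞)) UpperHalfPlane := MulAction.compHom UpperHalfPlane f
  have hsmul : ∀ (w : FreeGroup (Option 𝒞)) (z : UpperHalfPlane), w • z = f w • z := fun _ _ => rfl
  obtain ⟨c, hc1, hc2⟩ := H87.Star.star_colouring (Ω := UpperHalfPlane) h𝒞 (by
      intro z g h hg hh
      rw [hsmul] at hg hh
      apply hf
      rw [map_mul, map_mul]
      exact H87.Grp.fix_comm _ _ z hg hh) (by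
      intro n z hn e
      rw [hsmul, map_pow] at e
      have e' : f (FreeGroup.of none) = H87.Grp.M (ξ none) := FreeGroup.lift_apply_of
      rw [e'] at e
      exact H87.Grp.M_pow_no_fix _ n hn z e)
  let P : Set UpperHalfPlane := {z | (c z).1 = true}
  let AS : Set I → Set UpperHalfPlane := fun S => {z | (c z).2 ∈ S}
  have hAS : ∀ S : Set I, (⋃ j ∈ S, {z | (c z).2 = j}) = AS S := by
    intro S
    ext z
    simp [AS]
  have himg : ∀ (w : FreeGroup (Option 𝒞)) (S : Set UpperHalfPlane) (z : UpperHalfPlane),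
      z ∈ mob (f w) '' S ↔ w⁻¹ • z ∈ S := by
    intro w S z
    constructor
    · rintro ⟨y, hy, rfl⟩
      have : mob (f w) y = w • y := rfl
      rw [this, inv_smul_smul]; exact hy
    · intro h
      exact ⟨_, h, smul_inv_smul w z⟩
  have htP : mob (f (FreeGroup.of none)) '' P = Pᶜ := by
    ext z
    rw [himg]
    have := hc1 ((FreeGroup.of (none : Option 𝒞))⁻¹ • z)
    rw [smul_inv_smul] at this
    simp only [P, Set.mem_ofPred_eq, Set.mem_compl_iff]
    rw [this]
    simp
  have hgC : ∀ C : 𝒞, mob (f (FreeGroup.of (some C))) '' P = AS C := by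
    intro C
    ext z
    rw [himg]
    have := hc2 ((FreeGroup.of (some C))⁻¹ • z) C
    rw [smul_inv_smul] at this
    exact this
  have key : ∀ m : M ⊕ M, ∃ h : Matrix.SpecialLinearGroup (Fin 2) ℝ,
      mob h '' P = AS (Sum.elim L R m) := by
    intro m
    let C : 𝒞 := ⟨nrm (Sum.elim L R m), m, rfl⟩
    by_cases h : i₀ ∈ Sum.elim L R m
    · refine ⟨f (FreeGroup.of (some C)), ?_⟩
      rw [hgC]
      simp only [C, nrm, h, if_true]
    · refine ⟨f (FreeGroup.of (some C)) * f (FreeGroup.of none), ?_⟩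
      rw [mob_mul, htP, Set.image_compl_eq
        (mob (f (FreeGroup.of (some C)))).bijective, hgC]
      simp only [C, nrm, h, if_false, AS]
      ext z
      simp
  refine ⟨fun j => {z | (c z).2 = j}, ?_, ?_, ?_⟩
  · intro j k hjk
    rw [Set.disjoint_left]
    intro z hz hz'
    exact hjk (hz.symm.trans hz')
  · ext z
    simp
  · intro i
    obtain ⟨h1, hh1⟩ := key (Sum.inl i)
    obtain ⟨h2, hh2⟩ := key (Sum.inr i)
    simp only [Sum.elim_inl] at hh1
    simp only [Sum.elim_inr] at hh2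
    refine ⟨h2 * h1⁻¹, ?_⟩
    rw [hAS, hAS, ← hh1, ← hh2, mob_mul, mob_inv]

/-- with nonempty, pairwise congruent parts -/
theorem full (I M : Type) (L R : M → Set I) (hI : Nonempty I)
    (hIc : Cardinal.mk I ≤ Cardinal.continuum) (hM : Cardinal.mk M ≤ Cardinal.continuum)
    (hLR : ∀ i, (L i).Nonempty ∧ L i ≠ Set.univ ∧ (R i).Nonempty ∧ R i ≠ Set.univ) :
    ∃ A : I → Set UpperHalfPlane,
      Pairwise (fun j k => Disjoint (A j) (A k)) ∧ (⋃ j, A j) = Set.univ ∧
      (∀ j k, ∃ g : Matrix.SpecialLinearGroup (Fin 2) ℝ, mob g '' A j = A k) ∧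
      ∀ i, ∃ g : Matrix.SpecialLinearGroup (Fin 2) ℝ,
        mob g '' (⋃ j ∈ L i, A j) = ⋃ j ∈ R i, A j := by
  classical
  rcases subsingleton_or_nontrivial I with hs | hn
  · -- one set: there are no congruences
    obtain ⟨i₀⟩ := hI
    refine ⟨fun _ => Set.univ, fun j k hjk => absurd (Subsingleton.elim j k) hjk, ?_, ?_, ?_⟩
    · exact Set.iUnion_eq_univ_iff.2 fun z => ⟨i₀, trivial⟩
    · intro j k
      exact ⟨1, Set.image_univ_of_surjective (mob 1).surjective⟩
    · intro i
      exact absurd (Set.eq_univ_iff_forall.2 fun j => by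
        obtain ⟨j', hj'⟩ := (hLR i).1
        rwa [Subsingleton.elim j j']) (hLR i).2.1
  · obtain ⟨A, h1, h2, h3⟩ := base I (M ⊕ (I × I)) (Sum.elim L fun p => {p.1})
      (Sum.elim R fun p => {p.2}) hI (by
        simp only [Cardinal.mk_sum, Cardinal.lift_id, Cardinal.mk_prod]
        refine Cardinal.add_le_of_le Cardinal.aleph0_le_continuum hM ?_
        exact (mul_le_mul' hIc hIc).trans Cardinal.continuum_mul_self.le) (by
        have hne : ∀ j : I, ({j} : Set I) ≠ Set.univ := by
          intro j e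
          obtain ⟨k, hk⟩ := exists_ne j
          have : k ∈ ({j} : Set I) := by rw [e]; trivial
          exact hk this
        rintro (i | p)
        · exact hLR i
        · exact ⟨Set.singleton_nonempty _, hne _, Set.singleton_nonempty _, hne _⟩)
    refine ⟨A, h1, h2, ?_, ?_⟩
    · intro j k
      obtain ⟨g, hg⟩ := h3 (Sum.inr (j, k))
      refine ⟨g, ?_⟩
      simpa using hg
    · intro i
      obtain ⟨g, hg⟩ := h3 (Sum.inl i)
      exact ⟨g, hg⟩

end Pool.Agent.H87.OwnC
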