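import Pool.Agent.H87.Col

/-!
The star-shaped constraint system attached to a family of nonempty proper subsets.
-/

set_option autoImplicit false

namespace Pool.Agent.H87.Star

open FreeGroup Pool.Agent.H87.Col

section Path

variable {X K : Type*} (R : X × Bool → K → K → Prop)

/-- Consistent colourings of the ends of a path. -/
def Path : List (X × Bool) → K → K → Prop
  | [], k, k' => k = k'
  | l :: L, k, k' => ∃ k₁, Path L k k₁ ∧ R l k₁ k'

variable {R}

lemma path_append {A B : List (X × Bool)} {k k' : K} :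
    Path R (A ++ B) k k' ↔ ∃ k₁, Path R B k k₁ ∧ Path R A k₁ k' := by
  induction A generalizing k' with
  | nil => simp [Path]
  | cons a A ih =>
    simp only [List.cons_append, Path]
    constructor
    · rintro ⟨k₁, h1, h2⟩
      obtain ⟨k₂, h3, h4⟩ := ih.1 h1
      exact ⟨k₂, h3, k₁, h4, h2⟩
    · rintro ⟨k₂, h3, k₁, h4, h2⟩
      exact ⟨k₁, ih.2 ⟨k₂, h3, h4⟩, h2⟩

lemma path_singleton {l : X × Bool} {k k' : K} : Path R [l] k k' ↔ R l k k' := by
  simp [Path]

lemma path_invRev (hsymm : ∀ l k k', R l k k' → R (linv l) k' k) {L : List (X × Bool)} {k k' : K}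
    (h : Path R L k k') : Path R (invRev L) k' k := by
  induction L generalizing k' with
  | nil => simp only [Path] at h; subst h; simp [Path]
  | cons a L ih =>
    obtain ⟨k₁, h1, h2⟩ := h
    rw [FreeGroup.invRev_cons, path_append]
    refine ⟨k₁, ?_, ih h1⟩
    have : invRev [a] = [linv a] := rfl
    rw [this, path_singleton]
    exact hsymm _ _ _ h2

lemma path_total (htot : ∀ l k, ∃ k', R l k k') (L : List (X × Bool)) (k : K) :
    ∃ k', Path R L k k' := by
  induction L with
  | nil => exact ⟨k, rfl⟩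
  | cons a L ih =>
    obtain ⟨k₁, h1⟩ := ih
    obtain ⟨k', h2⟩ := htot a k₁
    exact ⟨k', k₁, h1, h2⟩

lemma path_seq {L : List (X × Bool)} {k k' : K} (h : Path R L k k') :
    ∃ κ : ℕ → K, κ 0 = k ∧ κ L.length = k' ∧
      ∀ L₁ l L₂, L = L₁ ++ l :: L₂ → R l (κ L₂.length) (κ (L₂.length + 1)) := by
  induction L generalizing k' with
  | nil =>
    refine ⟨fun _ => k, rfl, h, ?_⟩
    intro L₁ l L₂ e
    simp at e
  | cons a L ih =>
    obtain ⟨k₁, h1, h2⟩ := h
    obtain ⟨κ, hκ0, hκ1, hκ⟩ := ih h1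
    refine ⟨fun n => if n ≤ L.length then κ n else k', by simp [hκ0], by simp, ?_⟩
    intro L₁ l L₂ e
    cases L₁ with
    | nil =>
      simp only [List.nil_append, List.cons.injEq] at e
      obtain ⟨rfl, rfl⟩ := e
      simp only [le_refl, if_true, add_le_iff_nonpos_right, nonpos_iff_eq_zero, one_ne_zero,
        if_false]
      rw [hκ1]; exact h2
    | cons b L₁ =>
      simp only [List.cons_append, List.cons.injEq] at e
      obtain ⟨rfl, rfl⟩ := e
      have h3 : L₂.length ≤ (L₁ ++ l :: L₂).length := by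
        rw [List.length_append, List.length_cons]; omega
      have h4 : L₂.length + 1 ≤ (L₁ ++ l :: L₂).length := by
        rw [List.length_append, List.length_cons]; omega
      simp only [h3, h4, if_true]
      exact hκ L₁ l L₂ rfl

end Path

variable {I : Type*} (𝒞 : Set (Set I))

/-- Colours are pairs `(p, j)`: a bit `p` (membership in the base set) and an index `j`. -/
def R : Option 𝒞 × Bool → (Bool × I) → (Bool × I) → Prop
  | (none, _), k, k' => k'.1 = !k.1
  | (some C, true), k, k' => (k.1 = true ↔ k'.2 ∈ (C : Set I))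
  | (some C, false), k, k' => (k'.1 = true ↔ k.2 ∈ (C : Set I))

lemma R_symm (l : Option 𝒞 × Bool) (k k' : Bool × I) (h : R 𝒞 l k k') :
    R 𝒞 (linv l) k' k := by
  obtain ⟨_ | C, _ | _⟩ := l
  · simp only [R, linv] at h ⊢; simp [h]
  · simp only [R, linv] at h ⊢; simp [h]
  · exact h
  · exact h

variable {𝒞}

lemma R_total {i₀ : I} (h𝒞 : ∀ C ∈ 𝒞, i₀ ∈ C ∧ C ≠ Set.univ) (l : Option 𝒞 × Bool)
    (k : Bool × I) : ∃ k', R 𝒞 l k k' := by
  obtain ⟨p, j⟩ := k
  obtain ⟨_ | C, _ | _⟩ := l
  · exact ⟨(!p, j), rfl⟩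
  · exact ⟨(!p, j), rfl⟩
  · by_cases hj : j ∈ (C : Set I)
    · exact ⟨(true, j), by simp [R, hj]⟩
    · exact ⟨(false, j), by simp [R, hj]⟩
  · obtain ⟨h1, h2⟩ := h𝒞 C C.2
    cases p with
    | true => exact ⟨(true, i₀), by simp [R, h1]⟩
    | false =>
      obtain ⟨j', hj'⟩ := (Set.ne_univ_iff_exists_notMem _).1 h2
      exact ⟨(true, j'), by simp [R, hj']⟩

/-- Two different sets of the family can be separated in a flexible way. -/
lemma flexible {i₀ : I} (h𝒞 : ∀ C ∈ 𝒞, i₀ ∈ C ∧ C ≠ Set.univ) {C D : Set I} (hC : C ∈ 𝒞)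
    (hD : D ∈ 𝒞) (hne : D ≠ C) :
    ∃ κ : Bool, ∀ π : Bool, ∃ j : I, (j ∈ C ↔ π = true) ∧ (j ∈ D ↔ κ = true) := by
  obtain ⟨hC1, hC2⟩ := h𝒞 C hC
  obtain ⟨hD1, hD2⟩ := h𝒞 D hD
  by_cases hDC : D ⊆ C
  · refine ⟨false, fun π => ?_⟩
    cases π with
    | true =>
      obtain ⟨j, h1, h2⟩ := Set.exists_of_ssubset (hDC.ssubset_of_ne hne)
      exact ⟨j, by simp [h1], by simp [h2]⟩
    | false =>
      obtain ⟨j, hj⟩ := (Set.ne_univ_iff_exists_notMem _).1 hC2
      exact ⟨j, by simp [hj], by simpa using fun h => hj (hDC h)⟩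
  · refine ⟨true, fun π => ?_⟩
    cases π with
    | true => exact ⟨i₀, by simp [hC1], by simp [hD1]⟩
    | false =>
      obtain ⟨j, h1, h2⟩ := Set.not_subset.1 hDC
      exact ⟨j, by simp [h2], by simp [h1]⟩

lemma closed_aux {i₀ : I} (h𝒞 : ∀ C ∈ 𝒞, i₀ ∈ C ∧ C ≠ Set.univ) (C : 𝒞)
    (W : List (Option 𝒞 × Bool)) (hW : ∀ a ∈ W.getLast?, jOK a (some C, true)) :
    ∃ k, Path (R 𝒞) (W ++ [(some C, true)]) k k := by
  have hCC := h𝒞 C C.2
  have hj : ∀ π : Bool, ∃ j : I, (j ∈ (C : Set I) ↔ π = true) := by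
    intro π
    cases π with
    | true => exact ⟨i₀, by simp [hCC.1]⟩
    | false =>
      obtain ⟨j', hj'⟩ := (Set.ne_univ_iff_exists_notMem _).1 hCC.2
      exact ⟨j', by simp [hj']⟩
  rcases List.eq_nil_or_concat' W with rfl | ⟨W', l', rfl⟩
  · refine ⟨(true, i₀), ?_⟩
    rw [List.nil_append, path_singleton]
    simp [R, hCC.1]
  · simp only [List.getLast?_append, List.getLast?_singleton, Option.some_or, Option.mem_def,
      Option.some.injEq, forall_eq'] at hW
    -- it suffices to find the colours around the letter `l'`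
    suffices h : ∃ k₂ : Bool × I, ∀ π : Bool, ∃ k₁ : Bool × I,
        (π = true ↔ k₁.2 ∈ (C : Set I)) ∧ R 𝒞 l' k₁ k₂ by
      obtain ⟨k₂, h2⟩ := h
      obtain ⟨k, hk⟩ := path_total (R_total h𝒞) W' k₂
      obtain ⟨k₁, h3, h4⟩ := h2 k.1
      refine ⟨k, path_append.2 ⟨k₁, ?_, path_append.2 ⟨k₂, path_singleton.2 h4, hk⟩⟩⟩
      rw [path_singleton]
      exact h3
    obtain ⟨_ | D, b⟩ := l'
    · refine ⟨(false, i₀), fun π => ?_⟩
      obtain ⟨j, hj'⟩ := hj π
      exact ⟨(true, j), hj'.symm, by cases b <;> simp [R]⟩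
    · cases b with
      | true =>
        refine ⟨(true, i₀), fun π => ?_⟩
        obtain ⟨j, hj'⟩ := hj π
        refine ⟨(true, j), hj'.symm, ?_⟩
        have := (h𝒞 D D.2).1
        simp [R, this]
      | false =>
        have hne : (D : Set I) ≠ C := by
          intro e
          have := hW (congrArg some (Subtype.ext e))
          simp at this
        obtain ⟨κ, hκ⟩ := flexible h𝒞 C.2 D.2 hne
        refine ⟨(κ, i₀), fun π => ?_⟩
        obtain ⟨j, h1, h2⟩ := hκ π
        exact ⟨(true, j), h1.symm, h2.symm⟩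

lemma closed_pos {i₀ : I} (h𝒞 : ∀ C ∈ 𝒞, i₀ ∈ C ∧ C ≠ Set.univ) (C : 𝒞)
    (U : List (Option 𝒞 × Bool)) (hU : IsCyclicallyReduced U) (hC : (some C, true) ∈ U) :
    ∃ k, Path (R 𝒞) U k k := by
  obtain ⟨A, B, rfl⟩ := List.append_of_mem hC
  have h1 : ∀ a ∈ (B ++ A).getLast?, jOK a (some C, true) := by
    intro a ha
    rcases List.eq_nil_or_concat' A with rfl | ⟨A', a', rfl⟩
    · rcases List.eq_nil_or_concat' B with rfl | ⟨B', b', rfl⟩
      · simp at ha
      · have hb : a = b' := by simpa using ha.symm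
        subst hb
        exact hU.2 a (by
          rw [List.nil_append, ← List.cons_append, List.getLast?_append]; simp)
          (some C, true) (by simp)
    · have hb : a = a' := by
        rw [← List.append_assoc, List.getLast?_append] at ha
        simpa using ha.symm
      subst hb
      have h2 : IsReduced ([a] ++ [(some C, true)]) :=
        red_mid (A := A') (C := B) hU.isReduced (by simp)
      simp only [List.cons_append, List.nil_append, isReduced_cons_cons] at h2
      exact h2.1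
  obtain ⟨k, hk⟩ := closed_aux h𝒞 C (B ++ A) h1
  rw [List.append_assoc, path_append] at hk
  obtain ⟨k₁, h3, h4⟩ := hk
  refine ⟨k₁, ?_⟩
  have : A ++ (some C, true) :: B = (A ++ [(some C, true)]) ++ B := by simp
  rw [this, path_append]
  exact ⟨k, h4, h3⟩

lemma cyc_invRev {X : Type*} {U : List (X × Bool)} (hU : IsCyclicallyReduced U) :
    IsCyclicallyReduced (invRev U) := by
  refine ⟨red_invRev hU.isReduced, ?_⟩
  intro a ha b hb
  rw [getLast?_invRev] at ha
  rw [head?_invRev] at hb
  simp only [Option.mem_def, Option.map_eq_some_iff] at ha hb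
  obtain ⟨h, hh, rfl⟩ := ha
  obtain ⟨s, hs, rfl⟩ := hb
  have h1 := hU.2 s hs h hh
  change jOK s h at h1
  change jOK (linv h) (linv s)
  rw [jOK_iff] at h1 ⊢
  rw [linv_linv]
  exact fun e => h1 e.symm

lemma closed_some {i₀ : I} (h𝒞 : ∀ C ∈ 𝒞, i₀ ∈ C ∧ C ≠ Set.univ) (C : 𝒞) (b : Bool)
    (U : List (Option 𝒞 × Bool)) (hU : IsCyclicallyReduced U) (hC : (some C, b) ∈ U) :
    ∃ k, Path (R 𝒞) U k k := by
  cases b with
  | true => exact closed_pos h𝒞 C U hU hC
  | false =>
    have h1 : (some C, true) ∈ invRev U := by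
      simp only [FreeGroup.invRev, List.mem_reverse, List.mem_map]
      exact ⟨_, hC, rfl⟩
    obtain ⟨k, hk⟩ := closed_pos h𝒞 C _ (cyc_invRev hU) h1
    refine ⟨k, ?_⟩
    have := path_invRev (R_symm 𝒞) hk
    rwa [FreeGroup.invRev_invRev] at this

lemma eq_replicate_of_none {X : Type*} (x : X) : ∀ (U : List (X × Bool)), IsReduced U →
    (∀ l ∈ U, l.1 = x) → U ≠ [] → ∃ b, U = List.replicate U.length (x, b) := by
  intro U
  induction U with
  | nil => intro _ _ h; exact absurd rfl h
  | cons a U ih =>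
    intro hU hx _
    by_cases hU0 : U = []
    · subst hU0
      refine ⟨a.2, ?_⟩
      have := hx a (by simp)
      simp [← this]
    · obtain ⟨b, hb⟩ := ih (red_of_cons hU) (fun l hl => hx l (by simp [hl])) hU0
      refine ⟨b, ?_⟩
      have h1 := hx a (by simp)
      cases U with
      | nil => exact absurd rfl hU0
      | cons c U' =>
        have h2 := (isReduced_cons_cons.1 hU).1
        have h3 : c = (x, b) := by
          rw [List.length_cons, List.replicate_succ, List.cons.injEq] at hb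
          exact hb.1
        have h4 : a = (x, b) := by
          rw [h3] at h2
          exact Prod.ext h1 (h2 h1)
        rw [List.length_cons, List.replicate_succ, ← hb, h4]

lemma mk_replicate {X : Type*} (a : X × Bool) (n : ℕ) :
    (FreeGroup.mk (List.replicate n a) : FreeGroup X) = (FreeGroup.mk [a]) ^ n := by
  induction n with
  | zero => simp [FreeGroup.one_eq_mk]
  | succ n ih =>
    rw [List.replicate_succ, pow_succ', ← ih, FreeGroup.mul_mk]
    rfl

/-- **Star theorem.**  Let `𝒞` be a family of proper subsets of `I` all containing `i₀`, and let the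
free group on `{t} ∪ 𝒞` act with commutative point stabilisers such that no positive power of `t`
has a fixed point.  Then there are a set `P` and a partition such that `t` maps `P` onto its
complement, and for every `C ∈ 𝒞` the generator of `C` maps `P` onto the union of the parts with
index in `C`. -/
theorem star_colouring {Ω : Type*} [MulAction (FreeGroup (Option 𝒞)) Ω]
    {i₀ : I} (h𝒞 : ∀ C ∈ 𝒞, i₀ ∈ C ∧ C ≠ Set.univ)
    (hc : ∀ (z : Ω) (g h : FreeGroup (Option 𝒞)), g • z = z → h • z = z → g * h = h * g)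
    (ht : ∀ (n : ℕ) (z : Ω), n ≠ 0 → (FreeGroup.of (none : Option 𝒞)) ^ n • z ≠ z) :
    ∃ c : Ω → Bool × I,
      (∀ ω, (c (FreeGroup.of (none : Option 𝒞) • ω)).1 = !(c ω).1) ∧
      (∀ ω (C : 𝒞), ((c ω).1 = true ↔ (c (FreeGroup.of (some C) • ω)).2 ∈ (C : Set I))) := by
  have : Nonempty (Bool × I) := ⟨(true, i₀)⟩
  obtain ⟨c, hcol⟩ := exists_colouring (R 𝒞) hc (R_symm 𝒞) (R_total h𝒞) (by
    intro U hU0 hU ⟨z, hz⟩
    have hmem : ∃ (C : 𝒞) (b : Bool), (some C, b) ∈ U := by
      by_contra hcon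
      push Not at hcon
      obtain ⟨b, hb⟩ := eq_replicate_of_none (none : Option 𝒞) U hU.isReduced (by
        rintro ⟨x, b⟩ hl
        cases x with
        | none => rfl
        | some C => exact absurd hl (hcon C b)) hU0
      have hlen : U.length ≠ 0 := by simpa using hU0
      rw [hb, mk_replicate] at hz
      cases b with
      | true => exact ht _ z hlen hz
      | false =>
        apply ht _ z hlen
        have e : (FreeGroup.mk [((none : Option 𝒞), false)]) = (FreeGroup.of (none : Option 𝒞))⁻¹ := by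
          have := mk_linv ((none : Option 𝒞), true)
          exact this
        rw [e, inv_pow] at hz
        nth_rewrite 1 [← hz]
        rw [smul_inv_smul]
    obtain ⟨C, b, hCb⟩ := hmem
    obtain ⟨k, hk⟩ := closed_some h𝒞 C b U hU hCb
    obtain ⟨κ, h0, h1, h2⟩ := path_seq hk
    exact ⟨κ, by rw [h0, h1], h2⟩)
  refine ⟨c, ?_, ?_⟩
  · intro ω
    exact hcol ω (none, true)
  · intro ω C
    exact hcol ω (some C, true)

end Pool.Agent.H87.Star
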