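import Mathlib

/-!
# Definitions: transitive models of ZF + DC, colourings and ultrafilters in such models

Models are transitive classes `M` of sets, i.e. `M : Set ZFSet` (this includes transitive sets).
-/

set_option autoImplicit false

namespace Pool.Agent.H87.Ultra

universe u

/-- Formulas of the first-order language of set theory, with variables `x_0, x_1, x_2, …`. -/
inductive Fml : Type
  /-- `x_i ∈ x_j` -/
  | mem (i j : ℕ)
  /-- `x_i = x_j` -/
  | eq (i j : ℕ)
  /-- negation -/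
  | not (φ : Fml)
  /-- conjunction -/
  | and (φ ψ : Fml)
  /-- `∀ x_i, φ` -/
  | all (i : ℕ) (φ : Fml)

/-- Satisfaction of a formula in the structure `(N, E)` under the assignment `v` of the
variables. -/
def Sat {N : Type*} (E : N → N → Prop) : Fml → (ℕ → N) → Prop
  | .mem i j, v => E (v i) (v j)
  | .eq i j, v => v i = v j
  | .not φ, v => ¬ Sat E φ v
  | .and φ ψ, v => Sat E φ v ∧ Sat E ψ v
  | .all i φ, v => ∀ a : N, Sat E φ (Function.update v i a)

/-- `s` is the successor `n ∪ {n}` in the structure `(N, E)`. -/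
def IsSuccOf {N : Type*} (E : N → N → Prop) (s n : N) : Prop :=
  ∀ w, E w s ↔ E w n ∨ w = n

/-- `x` contains the empty set and is closed under successor, in the structure `(N, E)`. -/
def IsInductive {N : Type*} (E : N → N → Prop) (x : N) : Prop :=
  (∃ e, (∀ w, ¬ E w e) ∧ E e x) ∧ ∀ n, E n x → ∃ s, IsSuccOf E s n ∧ E s x

/-- `o` is the set of natural numbers (the least inductive set), in the structure `(N, E)`. -/
def IsOmega {N : Type*} (E : N → N → Prop) (o : N) : Prop :=
  IsInductive E o ∧ ∀ x, IsInductive E x → ∀ n, E n o → E n x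

/-- `p` is the Kuratowski pair `{{a}, {a, b}}`, in the structure `(N, E)`. -/
def IsPairOf {N : Type*} (E : N → N → Prop) (p a b : N) : Prop :=
  ∀ w, E w p ↔ (∀ z, E z w ↔ z = a) ∨ (∀ z, E z w ↔ z = a ∨ z = b)

/-- `(a, b) ∈ r`, in the structure `(N, E)`. -/
def PairMem {N : Type*} (E : N → N → Prop) (a b r : N) : Prop :=
  ∃ p, IsPairOf E p a b ∧ E p r

/-- The structure `(N, E)` satisfies all axioms of ZF and the axiom of dependent choices. -/
structure ModelsZFDC {N : Type*} (E : N → N → Prop) : Prop where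
  extensionality : ∀ x y, (∀ z, E z x ↔ E z y) → x = y
  foundation : ∀ x, (∃ y, E y x) → ∃ y, E y x ∧ ∀ z, E z x → ¬ E z y
  pairing : ∀ x y, ∃ z, ∀ w, E w z ↔ w = x ∨ w = y
  union : ∀ x, ∃ z, ∀ w, E w z ↔ ∃ y, E y x ∧ E w y
  powerset : ∀ x, ∃ z, ∀ y, E y z ↔ ∀ w, E w y → E w x
  infinity : ∃ x, IsInductive E x
  separation : ∀ (φ : Fml) (v : ℕ → N) (x : N),
    ∃ z, ∀ w, E w z ↔ E w x ∧ Sat E φ (Function.update v 0 w)
  replacement : ∀ (φ : Fml) (v : ℕ → N) (x : N),
    (∀ w, E w x → ∃! y, Sat E φ (Function.update (Function.update v 0 w) 1 y)) →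
    ∃ z, ∀ y, E y z ↔
      ∃ w, E w x ∧ Sat E φ (Function.update (Function.update v 0 w) 1 y)
  dependentChoice : ∀ A R, (∃ a, E a A) → (∀ a, E a A → ∃ b, E b A ∧ PairMem E a b R) →
    ∀ o, IsOmega E o → ∃ f, (∀ n, E n o → ∃! a, PairMem E n a f) ∧
      ∀ n s a b, E n o → IsSuccOf E s n → PairMem E n a f → PairMem E s b f →
        E a A ∧ E b A ∧ PairMem E a b R

/-- `M` is a transitive class (possibly a set) and `(M, ∈)` is a model of ZF + DC. -/
structure IsTransitiveModelZFDC (M : Set ZFSet.{u}) : Prop where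
  transitive : ∀ x ∈ M, ∀ y ∈ x, y ∈ M
  models : ModelsZFDC (fun x y : M => (x : ZFSet.{u}) ∈ (y : ZFSet.{u}))

/-- The von Neumann numerals. -/
def num : ℕ → ZFSet.{u}
  | 0 => ∅
  | n + 1 => insert (num n) (num n)

/-- The point `a` of the Cantor space `2^ℕ`, as a subset of `ω`. -/
noncomputable def sub (a : ℕ → Bool) : ZFSet.{u} :=
  ZFSet.sep (fun x => ∃ n, a n = true ∧ x = num n) ZFSet.omega

/-- The Polish space `9 × 2^ℕ × 2^ℕ`, on which the graph lives. -/
abbrev Vertex : Type := Fin 9 × (ℕ → Bool) × (ℕ → Bool)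

/-- The point `(i, a, b)` of `9 × 2^ℕ × 2^ℕ`, as a set: the ordered triple of the numeral `i` and
of the subsets of `ω` given by `a` and `b`. -/
noncomputable def code (x : Vertex) : ZFSet.{u} :=
  ZFSet.pair (num x.1) (ZFSet.pair (sub x.2.1) (sub x.2.2))

/-- A graph on a Polish space whose edge relation is a Borel subset of the square. -/
def IsBorelGraph {X : Type*} [TopologicalSpace X] (G : SimpleGraph X) : Prop :=
  PolishSpace X ∧ @MeasurableSet (X × X) (borel (X × X)) {p | G.Adj p.1 p.2}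

/-- Some well-order gives every vertex only finitely many smaller neighbours. -/
def CountableColouringNumber {X : Type*} (G : SimpleGraph X) : Prop :=
  ∃ r : X → X → Prop, IsWellOrder X r ∧ ∀ y, {x | r x y ∧ G.Adj x y}.Finite

/-- `M` contains a `k`-colouring of (its version of) the graph `G`: there is a set `c ∈ M` that is
a function defined on all vertices belonging to `M`, with values in `k = {0, …, k - 1}`, which
gives different values to adjacent vertices. -/
def ContainsColouring (M : Set ZFSet.{u}) (G : SimpleGraph Vertex) (k : ℕ) : Prop :=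
  ∃ c ∈ M, (∀ p ∈ c, ∃ x, code x ∈ M ∧ ∃ i < k, p = ZFSet.pair (code x) (num i)) ∧
    (∀ x, code x ∈ M → ∃! i, i < k ∧ ZFSet.pair (code x) (num i) ∈ c) ∧
    ∀ x y i, code x ∈ M → code y ∈ M → G.Adj x y → i < k →
      ¬ (ZFSet.pair (code x) (num i) ∈ c ∧ ZFSet.pair (code y) (num i) ∈ c)

/-- `M` contains a nonprincipal ultrafilter on `ω`: a set `U ∈ M` of subsets of `ω` which is, in
`M`, a filter that contains one of `A`, `ω \ A` for every `A ⊆ ω` and contains no singleton. -/
def ContainsNonprincipalUltrafilter (M : Set ZFSet.{u}) : Prop :=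
  ∃ U ∈ M, (∀ A ∈ U, A ⊆ ZFSet.omega) ∧ ZFSet.omega ∈ U ∧ ∅ ∉ U ∧
    (∀ A ∈ U, ∀ B ∈ U, A ∩ B ∈ U) ∧
    (∀ A ∈ U, ∀ B ∈ M, A ⊆ B → B ⊆ ZFSet.omega → B ∈ U) ∧
    (∀ A ∈ M, A ⊆ ZFSet.omega → A ∈ U ∨ ZFSet.omega \ A ∈ U) ∧
    ∀ n ∈ ZFSet.omega, {n} ∉ U

end Pool.Agent.H87.Ultra
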