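import Pool.Agent.H87.UltraDefs

/-!
The graph whose 3-colourings encode nonprincipal ultrafilters.
-/

set_option autoImplicit false

namespace Pool.Agent.H87.Ultra

/-- The empty subset of `ℕ`. -/
def bot : ℕ → Bool := fun _ => false
/-- The full subset of `ℕ`. -/
def top : ℕ → Bool := fun _ => true
/-- Complement. -/
def neg (a : ℕ → Bool) : ℕ → Bool := fun n => !a n
/-- Intersection. -/
def inf (a b : ℕ → Bool) : ℕ → Bool := fun n => a n && b n
/-- Singletons. -/
def sing (m : ℕ) : ℕ → Bool := fun n => decide (n = m)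

lemma neg_ne (a : ℕ → Bool) : neg a ≠ a := by
  intro h
  have := congrFun h 0
  simp [neg] at this

lemma neg_neg (a : ℕ → Bool) : neg (neg a) = a := by
  funext n; simp [neg]

/-- The (oriented) edges. The vertices `(0,∅,∅)`, `(1,∅,∅)`, `(2,∅,∅)` are the palette
false/true/neutral, `(3,a,∅)` is the literal `a ∈ U`, and `(4,a,b)`, …, `(8,a,b)` form the gadget
for `¬ (a ∈ U ∧ b ∈ U ∧ a ∩ b ∉ U)`. -/
inductive Edge : Vertex → Vertex → Prop
  | p01 : Edge (0, bot, bot) (1, bot, bot)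
  | p02 : Edge (0, bot, bot) (2, bot, bot)
  | p12 : Edge (1, bot, bot) (2, bot, bot)
  | lit (a) : Edge (2, bot, bot) (3, a, bot)
  | neg (a) : Edge (3, a, bot) (3, neg a, bot)
  | top : Edge (0, bot, bot) (3, top, bot)
  | sing (m) : Edge (1, bot, bot) (3, sing m, bot)
  | g4 (a b) : Edge (3, Ultra.neg a, bot) (4, a, b)
  | g5 (a b) : Edge (3, Ultra.neg b, bot) (5, a, b)
  | g45 (a b) : Edge (4, a, b) (5, a, b)
  | g46 (a b) : Edge (4, a, b) (6, a, b)
  | g56 (a b) : Edge (5, a, b) (6, a, b)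
  | g67 (a b) : Edge (6, a, b) (7, a, b)
  | g17 (a b) : Edge (1, bot, bot) (7, a, b)
  | g8 (a b) : Edge (3, inf a b, bot) (8, a, b)
  | g78 (a b) : Edge (7, a, b) (8, a, b)
  | g18 (a b) : Edge (1, bot, bot) (8, a, b)

lemma Edge.ne {x y : Vertex} (h : Edge x y) : x ≠ y := by
  intro hxy
  cases h with
  | neg a =>
    simp only [Prod.mk.injEq, true_and, and_true] at hxy
    exact neg_ne a hxy.symm
  | _ => simp at hxy

/-- The graph. -/
def graph : SimpleGraph Vertex where
  Adj x y := Edge x y ∨ Edge y x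
  symm := ⟨fun _ _ h => h.symm⟩
  loopless := ⟨fun _ h => (h.elim id id).ne rfl⟩

/-! ### Every 3-colouring gives a nonprincipal ultrafilter -/

lemma third : ∀ x y z w : Fin 3, x ≠ y → y ≠ z → x ≠ z → w = x ∨ w = y ∨ w = z := by decide

section Colouring

variable {P : Set (ℕ → Bool)} {col : Vertex → Fin 3}

/-- `col` is proper on the vertices with both components in `P`. -/
def Proper (P : Set (ℕ → Bool)) (col : Vertex → Fin 3) : Prop :=
  ∀ x y : Vertex, x.2.1 ∈ P → x.2.2 ∈ P → y.2.1 ∈ P → y.2.2 ∈ P → Edge x y → col x ≠ col y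

/-- `a` belongs to the ultrafilter. -/
def InU (col : Vertex → Fin 3) (a : ℕ → Bool) : Prop := col (3, a, bot) = col (1, bot, bot)

variable (hP0 : bot ∈ P) (hPneg : ∀ a ∈ P, neg a ∈ P) (hPinf : ∀ a ∈ P, ∀ b ∈ P, inf a b ∈ P)
  (hc : Proper P col)

include hP0 hc

lemma lit_cases {a : ℕ → Bool} (ha : a ∈ P) :
    col (3, a, bot) = col (0, bot, bot) ∨ col (3, a, bot) = col (1, bot, bot) := by
  have h01 := hc _ _ hP0 hP0 hP0 hP0 Edge.p01
  have h02 := hc _ _ hP0 hP0 hP0 hP0 Edge.p02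
  have h12 := hc _ _ hP0 hP0 hP0 hP0 Edge.p12
  have h2 := hc _ _ hP0 hP0 ha hP0 (Edge.lit a)
  rcases third _ _ _ (col (3, a, bot)) h01 h12 h02 with h | h | h
  · exact Or.inl h
  · exact Or.inr h
  · exact absurd h.symm h2

lemma not_inU {a : ℕ → Bool} (ha : a ∈ P) (h : ¬ InU col a) :
    col (3, a, bot) = col (0, bot, bot) :=
  (lit_cases hP0 hc ha).resolve_right h

include hPneg

lemma inU_neg {a : ℕ → Bool} (ha : a ∈ P) : InU col (neg a) ↔ ¬ InU col a := by
  have h01 := hc _ _ hP0 hP0 hP0 hP0 Edge.p01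
  have hne := hc _ _ ha hP0 (hPneg a ha) hP0 (Edge.neg a)
  constructor
  · intro h h'
    unfold InU at h h'
    exact hne (h'.trans h.symm)
  · intro h
    have h1 := not_inU hP0 hc ha h
    by_contra h2
    have h3 := not_inU hP0 hc (hPneg a ha) h2
    exact hne (h1.trans h3.symm)

lemma inU_top : InU col top := by
  have hT : top ∈ P := by
    have := hPneg bot hP0
    exact this
  rcases lit_cases hP0 hc hT with h | h
  · exact absurd h.symm (hc _ _ hP0 hP0 hT hP0 Edge.top)
  · exact h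

include hPinf

lemma inU_inf {a b : ℕ → Bool} (ha : a ∈ P) (hb : b ∈ P) (hUa : InU col a) (hUb : InU col b) :
    InU col (inf a b) := by
  have h01 := hc _ _ hP0 hP0 hP0 hP0 Edge.p01
  have h02 := hc _ _ hP0 hP0 hP0 hP0 Edge.p02
  have h12 := hc _ _ hP0 hP0 hP0 hP0 Edge.p12
  have hna : col (3, neg a, bot) = col (0, bot, bot) :=
    not_inU hP0 hc (hPneg a ha) fun h => (inU_neg hP0 hPneg hc ha).1 h hUa
  have hnb : col (3, neg b, bot) = col (0, bot, bot) :=
    not_inU hP0 hc (hPneg b hb) fun h => (inU_neg hP0 hPneg hc hb).1 h hUb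
  by_contra hcon
  have hi := not_inU hP0 hc (hPinf a ha b hb) hcon
  have e4 := hc _ _ (hPneg a ha) hP0 ha hb (Edge.g4 a b)
  have e5 := hc _ _ (hPneg b hb) hP0 ha hb (Edge.g5 a b)
  have e45 := hc _ _ ha hb ha hb (Edge.g45 a b)
  have e46 := hc _ _ ha hb ha hb (Edge.g46 a b)
  have e56 := hc _ _ ha hb ha hb (Edge.g56 a b)
  have e67 := hc _ _ ha hb ha hb (Edge.g67 a b)
  have e17 := hc _ _ hP0 hP0 ha hb (Edge.g17 a b)
  have e8 := hc _ _ (hPinf a ha b hb) hP0 ha hb (Edge.g8 a b)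
  have e78 := hc _ _ ha hb ha hb (Edge.g78 a b)
  have e18 := hc _ _ hP0 hP0 ha hb (Edge.g18 a b)
  rw [hna] at e4
  rw [hnb] at e5
  rw [hi] at e8
  generalize col (0, bot, bot) = f at *
  generalize col (1, bot, bot) = t at *
  generalize col (2, bot, bot) = n at *
  generalize col (4, a, b) = x4 at *
  generalize col (5, a, b) = x5 at *
  generalize col (6, a, b) = x6 at *
  generalize col (7, a, b) = x7 at *
  generalize col (8, a, b) = x8 at *
  have h6 : x6 = f := by
    rcases third _ _ _ x4 h01 h12 h02 with h | h | h <;>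
    rcases third _ _ _ x5 h01 h12 h02 with h' | h' | h' <;>
    rcases third _ _ _ x6 h01 h12 h02 with h'' | h'' | h'' <;> simp_all
  have h7 : x7 = n := by
    rcases third _ _ _ x7 h01 h12 h02 with h | h | h <;> simp_all
  have h8 : x8 = n := by
    rcases third _ _ _ x8 h01 h12 h02 with h | h | h <;> simp_all
  exact e78 (h7.trans h8.symm)

omit hPneg hPinf in
lemma not_inU_sing {m : ℕ} (hm : sing m ∈ P) : ¬ InU col (sing m) := fun h =>
  hc _ _ hP0 hP0 hm hP0 (Edge.sing m) h.symm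

end Colouring

end Pool.Agent.H87.Ultra
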