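import Pool.Agent.H87.UltraGraph

/-!
The graph is Borel, has chromatic number 3 and countable colouring number.
-/

set_option autoImplicit false

namespace Pool.Agent.H87.Ultra

/-! ### Chromatic number -/

open Classical in
/-- The colouring given by an ultrafilter. -/
noncomputable def colOf (U : Ultrafilter ℕ) : Vertex → Fin 3 := fun x =>
  let a := x.2.1
  let b := x.2.2
  let A : Prop := {n | neg a n = true} ∈ U
  let B : Prop := {n | neg b n = true} ∈ U
  if x.1 = 0 then 0 else if x.1 = 1 then 1 else if x.1 = 2 then 2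
  else if x.1 = 3 then (if {n | a n = true} ∈ U then 1 else 0)
  else if x.1 = 4 then (if A then 0 else if B then 2 else 1)
  else if x.1 = 5 then (if A then 2 else if B then 0 else 2)
  else if x.1 = 6 then (if A ∨ B then 1 else 0)
  else if x.1 = 7 then (if A ∨ B then 0 else 2)
  else (if A ∨ B then 2 else 0)

lemma mem_neg_iff (U : Ultrafilter ℕ) (a : ℕ → Bool) :
    {n | neg a n = true} ∈ U ↔ {n | a n = true} ∉ U := by
  have : {n | neg a n = true} = {n | a n = true}ᶜ := by
    ext n; simp [neg]
  rw [this, Ultrafilter.compl_mem_iff_notMem]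

lemma colOf_ne (U : Ultrafilter ℕ) (hU : ∀ m, {n : ℕ | sing m n = true} ∉ U) {x y : Vertex}
    (h : Edge x y) : colOf U x ≠ colOf U y := by
  cases h with
  | p01 => simp [colOf]
  | p02 => simp [colOf]
  | p12 => simp [colOf]
  | lit a =>
    simp only [colOf]
    split_ifs <;> simp_all
  | neg a =>
    have h := mem_neg_iff U a
    by_cases h1 : {n | a n = true} ∈ U <;> simp [colOf, h, h1]
  | top =>
    have : {n | top n = true} ∈ U := by
      have : {n | top n = true} = Set.univ := by ext n; simp [top]
      rw [this]; exact Filter.univ_mem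
    simp [colOf, this]
  | sing m =>
    simp [colOf, hU m]
  | g4 a b =>
    by_cases h1 : {n | neg a n = true} ∈ U <;> by_cases h2 : {n | neg b n = true} ∈ U <;>
      simp [colOf, h1, h2]
  | g5 a b =>
    by_cases h1 : {n | neg a n = true} ∈ U <;> by_cases h2 : {n | neg b n = true} ∈ U <;>
      simp [colOf, h1, h2]
  | g45 a b =>
    by_cases h1 : {n | neg a n = true} ∈ U <;> by_cases h2 : {n | neg b n = true} ∈ U <;>
      simp [colOf, h1, h2]
  | g46 a b =>
    by_cases h1 : {n | neg a n = true} ∈ U <;> by_cases h2 : {n | neg b n = true} ∈ U <;>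
      simp [colOf, h1, h2]
  | g56 a b =>
    by_cases h1 : {n | neg a n = true} ∈ U <;> by_cases h2 : {n | neg b n = true} ∈ U <;>
      simp [colOf, h1, h2]
  | g67 a b =>
    by_cases h1 : {n | neg a n = true} ∈ U <;> by_cases h2 : {n | neg b n = true} ∈ U <;>
      simp [colOf, h1, h2]
  | g17 a b =>
    by_cases h1 : {n | neg a n = true} ∈ U <;> by_cases h2 : {n | neg b n = true} ∈ U <;>
      simp [colOf, h1, h2]
  | g8 a b =>
    have h3 : {n | neg a n = true} ∉ U → {n | neg b n = true} ∉ U →
        {n | inf a b n = true} ∈ U := by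
      intro h1 h2
      rw [mem_neg_iff, not_not] at h1 h2
      refine Filter.mem_of_superset (Filter.inter_mem h1 h2) ?_
      rintro n ⟨hn, hn'⟩
      simp only [Set.mem_ofPred_eq, inf, Bool.and_eq_true] at hn hn' ⊢
      exact ⟨hn, hn'⟩
    by_cases h1 : {n | neg a n = true} ∈ U
    · simp only [colOf, h1]
      split_ifs <;> simp_all
    · by_cases h2 : {n | neg b n = true} ∈ U
      · simp only [colOf, h2]
        split_ifs <;> simp_all
      · simp [colOf, h1, h2, h3 h1 h2]
  | g78 a b =>
    by_cases h1 : {n | neg a n = true} ∈ U <;> by_cases h2 : {n | neg b n = true} ∈ U <;>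
      simp [colOf, h1, h2]
  | g18 a b =>
    by_cases h1 : {n | neg a n = true} ∈ U <;> by_cases h2 : {n | neg b n = true} ∈ U <;>
      simp [colOf, h1, h2]

lemma colorable_three : graph.Colorable 3 := by
  let U : Ultrafilter ℕ := Filter.hyperfilter ℕ
  have hU : ∀ m, {n : ℕ | sing m n = true} ∉ U := by
    intro m
    have : {n : ℕ | sing m n = true} = {m} := by
      ext n; simp [sing]
    rw [this]
    exact (Set.finite_singleton m).notMem_hyperfilter
  refine ⟨SimpleGraph.Coloring.mk (colOf U) ?_⟩
  intro x y hxy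
  rcases hxy with h | h
  · exact colOf_ne U hU h
  · exact (colOf_ne U hU h).symm

lemma not_colorable_two : ¬ graph.Colorable 2 := by
  rintro ⟨c⟩
  have h1 : c (0, bot, bot) ≠ c (1, bot, bot) := c.valid (Or.inl Edge.p01)
  have h2 : c (0, bot, bot) ≠ c (2, bot, bot) := c.valid (Or.inl Edge.p02)
  have h3 : c (1, bot, bot) ≠ c (2, bot, bot) := c.valid (Or.inl Edge.p12)
  revert h1 h2 h3
  generalize c (0, bot, bot) = x
  generalize c (1, bot, bot) = y
  generalize c (2, bot, bot) = z
  revert x y z
  decide

lemma chromaticNumber_eq : graph.chromaticNumber = 3 := by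
  apply le_antisymm
  · exact colorable_three.chromaticNumber_le
  · by_contra hcon
    rw [not_le] at hcon
    have h2 : graph.chromaticNumber ≤ 2 := by
      have : (3 : ℕ∞) = 2 + 1 := by norm_num
      rw [this] at hcon
      exact Order.le_of_lt_add_one hcon
    exact not_colorable_two (SimpleGraph.chromaticNumber_le_iff_colorable.1 (by exact_mod_cast h2))

/-! ### Colouring number -/

lemma countableColouringNumber : CountableColouringNumber graph := by
  classical
  refine ⟨Prod.Lex (· < ·) WellOrderingRel, inferInstance, ?_⟩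
  rintro ⟨j, a, b⟩
  refine Set.Finite.subset (s := ({(0, bot, bot), (1, bot, bot), (2, bot, bot), (3, neg a, bot),
    (3, neg b, bot), (3, inf a b, bot), (4, a, b), (5, a, b), (6, a, b), (7, a, b)} :
      Set Vertex)) (by
      exact Set.toFinite _) ?_
  rintro ⟨i, a', b'⟩ ⟨hlt, hadj⟩
  rw [Prod.lex_def] at hlt
  have hij : i ≤ j := by
    rcases hlt with h | h
    · exact le_of_lt h
    · exact le_of_eq h.1
  rcases hadj with h | h
  · cases h <;> simp [neg_neg]
  · cases h
    all_goals try (exact absurd hij (by decide))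
    all_goals simp

/-! ### The graph is Borel -/

lemma continuous_neg : Continuous neg :=
  continuous_pi fun n => (continuous_of_discreteTopology (f := fun x : Bool => !x)).comp
    (continuous_apply n)

lemma continuous_inf : Continuous fun p : (ℕ → Bool) × (ℕ → Bool) => inf p.1 p.2 := by
  refine continuous_pi fun n => ?_
  have h : Continuous fun x : Bool × Bool => (x.1 && x.2) := continuous_of_discreteTopology
  have h1 : Continuous fun p : (ℕ → Bool) × (ℕ → Bool) => (p.1 n, p.2 n) :=
    ((continuous_apply n).comp continuous_fst).prodMk ((continuous_apply n).comp continuous_snd)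
  exact h.comp h1

lemma closed_schema {f g : Vertex × Vertex → Vertex} (hf : Continuous f) (hg : Continuous g) :
    IsClosed {p : Vertex × Vertex | p.1 = f p ∧ p.2 = g p} :=
  (isClosed_eq continuous_fst hf).inter (isClosed_eq continuous_snd hg)

lemma continuous_mk (i : Fin 9) {f g : Vertex × Vertex → (ℕ → Bool)} (hf : Continuous f)
    (hg : Continuous g) : Continuous fun p => ((i, f p, g p) : Vertex) :=
  continuous_const.prodMk (hf.prodMk hg)

/-- the components of the two endpoints -/
lemma c12 : Continuous fun p : Vertex × Vertex => p.1.2.1 :=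
  continuous_fst.comp (continuous_snd.comp continuous_fst)
lemma c21 : Continuous fun p : Vertex × Vertex => p.2.2.1 :=
  continuous_fst.comp (continuous_snd.comp continuous_snd)
lemma c22 : Continuous fun p : Vertex × Vertex => p.2.2.2 :=
  continuous_snd.comp (continuous_snd.comp continuous_snd)

lemma edge_eq : {p : Vertex × Vertex | Edge p.1 p.2} =
    {p | p.1 = (0, bot, bot) ∧ p.2 = (1, bot, bot)} ∪
    {p | p.1 = (0, bot, bot) ∧ p.2 = (2, bot, bot)} ∪
    {p | p.1 = (1, bot, bot) ∧ p.2 = (2, bot, bot)} ∪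
    {p | p.1 = (2, bot, bot) ∧ p.2 = (3, p.2.2.1, bot)} ∪
    {p | p.1 = (3, p.1.2.1, bot) ∧ p.2 = (3, neg p.1.2.1, bot)} ∪
    {p | p.1 = (0, bot, bot) ∧ p.2 = (3, top, bot)} ∪
    (⋃ m : ℕ, {p | p.1 = (1, bot, bot) ∧ p.2 = (3, sing m, bot)}) ∪
    {p | p.1 = (3, neg p.2.2.1, bot) ∧ p.2 = (4, p.2.2.1, p.2.2.2)} ∪
    {p | p.1 = (3, neg p.2.2.2, bot) ∧ p.2 = (5, p.2.2.1, p.2.2.2)} ∪
    {p | p.1 = (4, p.2.2.1, p.2.2.2) ∧ p.2 = (5, p.2.2.1, p.2.2.2)} ∪
    {p | p.1 = (4, p.2.2.1, p.2.2.2) ∧ p.2 = (6, p.2.2.1, p.2.2.2)} ∪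
    {p | p.1 = (5, p.2.2.1, p.2.2.2) ∧ p.2 = (6, p.2.2.1, p.2.2.2)} ∪
    {p | p.1 = (6, p.2.2.1, p.2.2.2) ∧ p.2 = (7, p.2.2.1, p.2.2.2)} ∪
    {p | p.1 = (1, bot, bot) ∧ p.2 = (7, p.2.2.1, p.2.2.2)} ∪
    {p | p.1 = (3, inf p.2.2.1 p.2.2.2, bot) ∧ p.2 = (8, p.2.2.1, p.2.2.2)} ∪
    {p | p.1 = (7, p.2.2.1, p.2.2.2) ∧ p.2 = (8, p.2.2.1, p.2.2.2)} ∪
    {p | p.1 = (1, bot, bot) ∧ p.2 = (8, p.2.2.1, p.2.2.2)} := by
  ext ⟨⟨i, a, b⟩, ⟨j, a', b'⟩⟩
  simp only [Set.mem_union, Set.mem_iUnion, Set.mem_ofPred_eq, Prod.mk.injEq]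
  constructor
  · intro h
    cases h <;> simp
  · rintro ((((((((((((((((h | h) | h) | h) | h) | h) | ⟨m, h⟩) | h) | h) | h) | h) | h) | h) | h) |
      h) | h) | h) <;> obtain ⟨⟨rfl, h1, h2⟩, rfl, h3, h4⟩ := h <;> subst_vars
    · exact Edge.p01
    · exact Edge.p02
    · exact Edge.p12
    · exact Edge.lit _
    · exact Edge.neg _
    · exact Edge.top
    · exact Edge.sing _
    · exact Edge.g4 _ _
    · exact Edge.g5 _ _
    · exact Edge.g45 _ _
    · exact Edge.g46 _ _
    · exact Edge.g56 _ _
    · exact Edge.g67 _ _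
    · exact Edge.g17 _ _
    · exact Edge.g8 _ _
    · exact Edge.g78 _ _
    · exact Edge.g18 _ _

lemma measurable_edge : @MeasurableSet (Vertex × Vertex) (borel (Vertex × Vertex))
    {p | Edge p.1 p.2} := by
  let _ : MeasurableSpace (Vertex × Vertex) := borel _
  have : BorelSpace (Vertex × Vertex) := ⟨rfl⟩
  have hb : Continuous fun _ : Vertex × Vertex => bot := continuous_const
  have k0 := continuous_mk 0 hb hb
  have k1 := continuous_mk 1 hb hb
  have k2 := continuous_mk 2 hb hb
  have k3 := continuous_mk 3 c21 hb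
  have k4 := continuous_mk 4 c21 c22
  have k5 := continuous_mk 5 c21 c22
  have k6 := continuous_mk 6 c21 c22
  have k7 := continuous_mk 7 c21 c22
  have k8 := continuous_mk 8 c21 c22
  have e12 := continuous_mk 3 (continuous_neg.comp c12) hb
  have e13 := continuous_mk 3 c12 hb
  have e21 := continuous_mk 3 (continuous_neg.comp c21) hb
  have e22 := continuous_mk 3 (continuous_neg.comp c22) hb
  have ei := continuous_mk 3 (continuous_inf.comp (c21.prodMk c22)) hb
  have et := continuous_mk 3 (continuous_const (y := top) : Continuous fun _ : Vertex × Vertex => top) hb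
  have es := fun m : ℕ => continuous_mk 3
    (continuous_const (y := sing m) : Continuous fun _ : Vertex × Vertex => sing m) hb
  rw [edge_eq]
  refine MeasurableSet.union (MeasurableSet.union (MeasurableSet.union (MeasurableSet.union
    (MeasurableSet.union (MeasurableSet.union (MeasurableSet.union (MeasurableSet.union
    (MeasurableSet.union (MeasurableSet.union (MeasurableSet.union (MeasurableSet.union
    (MeasurableSet.union (MeasurableSet.union (MeasurableSet.union (MeasurableSet.union
    ?_ ?_) ?_) ?_) ?_) ?_) ?_) ?_) ?_) ?_) ?_) ?_) ?_) ?_) ?_) ?_) ?_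
  · exact (closed_schema k0 k1).measurableSet
  · exact (closed_schema k0 k2).measurableSet
  · exact (closed_schema k1 k2).measurableSet
  · exact (closed_schema k2 k3).measurableSet
  · exact (closed_schema e13 e12).measurableSet
  · exact (closed_schema k0 et).measurableSet
  · exact MeasurableSet.iUnion fun m => (closed_schema k1 (es m)).measurableSet
  · exact (closed_schema e21 k4).measurableSet
  · exact (closed_schema e22 k5).measurableSet
  · exact (closed_schema k4 k5).measurableSet
  · exact (closed_schema k4 k6).measurableSet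
  · exact (closed_schema k5 k6).measurableSet
  · exact (closed_schema k6 k7).measurableSet
  · exact (closed_schema k1 k7).measurableSet
  · exact (closed_schema ei k8).measurableSet
  · exact (closed_schema k7 k8).measurableSet
  · exact (closed_schema k1 k8).measurableSet

lemma isBorelGraph : IsBorelGraph graph := by
  refine ⟨inferInstance, ?_⟩
  let _ : MeasurableSpace (Vertex × Vertex) := borel _
  have : BorelSpace (Vertex × Vertex) := ⟨rfl⟩
  have h1 : MeasurableSet {p : Vertex × Vertex | Edge p.1 p.2} := measurable_edge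
  have h2 : MeasurableSet {p : Vertex × Vertex | Edge p.2 p.1} :=
    continuous_swap.measurable h1
  exact h1.union h2

end Pool.Agent.H87.Ultra
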