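import Pool.Agent.H87.UltraGraph

/-!
Inside a transitive model of ZF, a 3-colouring of the graph gives a nonprincipal ultrafilter.
-/

set_option autoImplicit false

namespace Pool.Agent.H87.Ultra

universe u

/-! ### Numerals -/

lemma mk_ofNat (n : ℕ) : ZFSet.mk (PSet.ofNat.{u} n) = num.{u} n := by
  induction n with
  | zero => rfl
  | succ n ih =>
    change insert (ZFSet.mk (PSet.ofNat n)) (ZFSet.mk (PSet.ofNat n)) = insert (num n) (num n)
    rw [ih]

lemma num_mem_omega (n : ℕ) : num.{u} n ∈ ZFSet.omega.{u} := by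
  induction n with
  | zero => exact ZFSet.omega_zero
  | succ n ih => exact ZFSet.omega_succ ih

lemma mem_omega_iff {x : ZFSet.{u}} : x ∈ ZFSet.omega.{u} ↔ ∃ n, x = num n := by
  constructor
  · intro hx
    induction x using Quotient.inductionOn with
    | h x =>
      obtain ⟨⟨n⟩, hn⟩ := hx
      exact ⟨n, (ZFSet.sound hn).trans (mk_ofNat n)⟩
  · rintro ⟨n, rfl⟩
    exact num_mem_omega n

lemma mem_num_succ {x : ZFSet.{u}} {n : ℕ} : x ∈ num.{u} (n + 1) ↔ x = num n ∨ x ∈ num.{u} n := by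
  change x ∈ insert (num n) (num n) ↔ _
  rw [ZFSet.mem_insert_iff]

lemma num_transitive {n : ℕ} : ∀ x ∈ num.{u} n, ∀ y ∈ x, y ∈ num.{u} n := by
  induction n with
  | zero => intro x hx; exact absurd hx (ZFSet.notMem_empty _)
  | succ n ih =>
    intro x hx y hy
    rw [mem_num_succ] at hx ⊢
    rcases hx with rfl | hx
    · exact Or.inr hy
    · exact Or.inr (ih x hx y hy)

lemma num_mem_num {m n : ℕ} (h : m < n) : num.{u} m ∈ num.{u} n := by
  induction n with
  | zero => omega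
  | succ n ih =>
    rw [mem_num_succ]
    rcases Nat.lt_succ_iff_lt_or_eq.1 h with h | rfl
    · exact Or.inr (ih h)
    · exact Or.inl rfl

lemma num_injective : Function.Injective num.{u} := by
  intro m n h
  rcases lt_trichotomy m n with h' | h' | h'
  · exact absurd (h ▸ num_mem_num h') (ZFSet.mem_irrefl _)
  · exact h'
  · exact absurd (h ▸ num_mem_num h') (ZFSet.mem_irrefl _)

/-! ### Subsets of `ω` -/

lemma num_mem_sub {a : ℕ → Bool} {n : ℕ} : num.{u} n ∈ sub.{u} a ↔ a n = true := by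
  rw [sub, ZFSet.mem_sep]
  constructor
  · rintro ⟨-, m, hm, h⟩
    rwa [num_injective h]
  · intro h
    exact ⟨num_mem_omega n, n, h, rfl⟩

lemma mem_sub {a : ℕ → Bool} {x : ZFSet.{u}} : x ∈ sub.{u} a ↔ ∃ n, a n = true ∧ x = num n := by
  rw [sub, ZFSet.mem_sep]
  constructor
  · exact fun h => h.2
  · rintro ⟨n, hn, rfl⟩
    exact ⟨num_mem_omega n, n, hn, rfl⟩

lemma sub_subset (a : ℕ → Bool) : sub.{u} a ⊆ ZFSet.omega := fun _ h => (ZFSet.mem_sep.1 h).1

lemma sub_injective : Function.Injective sub.{u} := by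
  intro a b h
  funext n
  have h1 : (num.{u} n ∈ sub.{u} a) ↔ (num.{u} n ∈ sub.{u} b) := by rw [h]
  rw [num_mem_sub, num_mem_sub] at h1
  cases ha : a n <;> cases hb : b n <;> simp_all

open Classical in
lemma exists_sub {A : ZFSet.{u}} (hA : A ⊆ ZFSet.omega) : ∃ a, sub.{u} a = A := by
  refine ⟨fun n => decide (num n ∈ A), ?_⟩
  ext x
  rw [mem_sub]
  constructor
  · rintro ⟨n, hn, rfl⟩
    simpa using hn
  · intro hx
    obtain ⟨n, rfl⟩ := mem_omega_iff.1 (hA hx)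
    exact ⟨n, by simpa using hx, rfl⟩

lemma sub_bot : sub.{u} bot = ∅ := by
  rw [ZFSet.eq_empty]
  intro x hx
  obtain ⟨n, hn, -⟩ := mem_sub.1 hx
  exact absurd hn (by simp [bot])

lemma sub_top : sub.{u} top = ZFSet.omega := by
  ext x
  rw [mem_sub, mem_omega_iff]
  simp [top]

lemma sub_neg (a : ℕ → Bool) : sub.{u} (neg a) = ZFSet.omega \ sub a := by
  ext x
  rw [ZFSet.mem_sdiff, mem_sub, mem_omega_iff]
  constructor
  · rintro ⟨n, hn, rfl⟩
    refine ⟨⟨n, rfl⟩, ?_⟩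
    rw [num_mem_sub]
    simpa [neg] using hn
  · rintro ⟨⟨n, rfl⟩, hn⟩
    rw [num_mem_sub] at hn
    exact ⟨n, by simpa [neg] using hn, rfl⟩

lemma sub_inf (a b : ℕ → Bool) : sub.{u} (inf a b) = sub a ∩ sub b := by
  ext x
  rw [ZFSet.mem_inter, mem_sub]
  constructor
  · rintro ⟨n, hn, rfl⟩
    rw [num_mem_sub, num_mem_sub]
    simpa [inf] using hn
  · rintro ⟨h1, h2⟩
    obtain ⟨n, hn, rfl⟩ := mem_sub.1 h1
    rw [num_mem_sub] at h2
    exact ⟨n, by simp [inf, hn, h2], rfl⟩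

lemma sub_sing (m : ℕ) : sub.{u} (sing m) = {num m} := by
  ext x
  rw [mem_sub, ZFSet.mem_singleton]
  constructor
  · rintro ⟨n, hn, rfl⟩
    simp only [sing, decide_eq_true_eq] at hn
    rw [hn]
  · rintro rfl
    exact ⟨m, by simp [sing], rfl⟩

/-! ### Closure properties of transitive models -/

section Model

variable {M : Set ZFSet.{u}} (hM : IsTransitiveModelZFDC M)

include hM

lemma pair_mem' {x y : ZFSet.{u}} (hx : x ∈ M) (hy : y ∈ M) : ({x, y} : ZFSet) ∈ M := by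
  obtain ⟨⟨z, hz⟩, h⟩ := hM.models.pairing ⟨x, hx⟩ ⟨y, hy⟩
  have : ({x, y} : ZFSet) = z := by
    ext w
    rw [ZFSet.mem_pair]
    constructor
    · rintro (rfl | rfl)
      · exact (h ⟨w, hx⟩).2 (Or.inl rfl)
      · exact (h ⟨w, hy⟩).2 (Or.inr rfl)
    · intro hw
      have hwM := hM.transitive z hz w hw
      rcases (h ⟨w, hwM⟩).1 hw with h1 | h1
      · exact Or.inl (congrArg Subtype.val h1)
      · exact Or.inr (congrArg Subtype.val h1)
  rwa [this]

lemma singleton_mem' {x : ZFSet.{u}} (hx : x ∈ M) : ({x} : ZFSet) ∈ M := by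
  have := pair_mem' hM hx hx
  rwa [ZFSet.pair_eq_singleton] at this

lemma pair_mem {x y : ZFSet.{u}} (hx : x ∈ M) (hy : y ∈ M) : ZFSet.pair x y ∈ M :=
  pair_mem' hM (singleton_mem' hM hx) (pair_mem' hM hx hy)

lemma of_pair_mem {x y : ZFSet.{u}} (h : ZFSet.pair x y ∈ M) : x ∈ M ∧ y ∈ M := by
  have h1 : ({x, y} : ZFSet) ∈ M :=
    hM.transitive _ h _ (by rw [ZFSet.pair]; exact ZFSet.mem_pair.2 (Or.inr rfl))
  exact ⟨hM.transitive _ h1 _ (ZFSet.mem_pair.2 (Or.inl rfl)),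
    hM.transitive _ h1 _ (ZFSet.mem_pair.2 (Or.inr rfl))⟩

/-- Separation in terms of sets. -/
lemma sep_mem' (φ : Fml) (v : ℕ → M) {x : ZFSet.{u}} (hx : x ∈ M) :
    ZFSet.sep (fun w => ∃ hw : w ∈ M,
      Sat (fun x y : M => (x : ZFSet.{u}) ∈ (y : ZFSet.{u})) φ (Function.update v 0 ⟨w, hw⟩)) x
        ∈ M := by
  obtain ⟨⟨z, hz⟩, h⟩ := hM.models.separation φ v ⟨x, hx⟩
  convert hz using 1
  ext w
  rw [ZFSet.mem_sep]
  constructor
  · rintro ⟨hwx, hw, hs⟩
    exact (h ⟨w, hw⟩).2 ⟨hwx, hs⟩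
  · intro hwz
    have hwM := hM.transitive z hz w hwz
    obtain ⟨h1, h2⟩ := (h ⟨w, hwM⟩).1 hwz
    exact ⟨h1, hwM, h2⟩

lemma diff_mem {x y : ZFSet.{u}} (hx : x ∈ M) (hy : y ∈ M) : x \ y ∈ M := by
  have h := sep_mem' hM (.not (.mem 0 1)) (fun _ => ⟨y, hy⟩) hx
  convert h using 1
  ext w
  rw [ZFSet.mem_sdiff, ZFSet.mem_sep]
  simp only [Sat]
  constructor
  · rintro ⟨h1, h2⟩
    exact ⟨h1, hM.transitive _ hx _ h1, by simpa using h2⟩
  · rintro ⟨h1, hw, h2⟩
    exact ⟨h1, by simpa using h2⟩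

lemma inter_mem {x y : ZFSet.{u}} (hx : x ∈ M) (hy : y ∈ M) : x ∩ y ∈ M := by
  have h : x ∩ y = x \ (x \ y) := by
    ext w
    simp only [ZFSet.mem_inter, ZFSet.mem_sdiff]
    tauto
  rw [h]
  exact diff_mem hM hx (diff_mem hM hx hy)

end Model

/-! ### Derived formulas -/

/-- disjunction -/
def Fml.or (φ ψ : Fml) : Fml := .not (.and (.not φ) (.not ψ))
/-- implication -/
def Fml.imp (φ ψ : Fml) : Fml := .not (.and φ (.not ψ))
/-- equivalence -/
def Fml.iff (φ ψ : Fml) : Fml := .and (φ.imp ψ) (ψ.imp φ)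
/-- existential quantification -/
def Fml.ex (i : ℕ) (φ : Fml) : Fml := .not (.all i (.not φ))

section Sat

variable {N : Type*} {E : N → N → Prop}

@[simp] lemma sat_mem (i j : ℕ) (v : ℕ → N) : Sat E (.mem i j) v ↔ E (v i) (v j) := Iff.rfl
@[simp] lemma sat_eq (i j : ℕ) (v : ℕ → N) : Sat E (.eq i j) v ↔ v i = v j := Iff.rfl
@[simp] lemma sat_not (φ : Fml) (v : ℕ → N) : Sat E (.not φ) v ↔ ¬ Sat E φ v := Iff.rfl
@[simp] lemma sat_and (φ ψ : Fml) (v : ℕ → N) :
    Sat E (.and φ ψ) v ↔ Sat E φ v ∧ Sat E ψ v := Iff.rfl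
@[simp] lemma sat_all (i : ℕ) (φ : Fml) (v : ℕ → N) :
    Sat E (.all i φ) v ↔ ∀ a, Sat E φ (Function.update v i a) := Iff.rfl
@[simp] lemma sat_or (φ ψ : Fml) (v : ℕ → N) :
    Sat E (φ.or ψ) v ↔ Sat E φ v ∨ Sat E ψ v := by
  simp only [Fml.or, sat_not, sat_and]; tauto
@[simp] lemma sat_imp (φ ψ : Fml) (v : ℕ → N) :
    Sat E (φ.imp ψ) v ↔ (Sat E φ v → Sat E ψ v) := by
  simp only [Fml.imp, sat_not, sat_and]; tauto
@[simp] lemma sat_iff (φ ψ : Fml) (v : ℕ → N) :
    Sat E (φ.iff ψ) v ↔ (Sat E φ v ↔ Sat E ψ v) := by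
  simp only [Fml.iff, sat_imp, sat_and]; tauto
@[simp] lemma sat_ex (i : ℕ) (φ : Fml) (v : ℕ → N) :
    Sat E (.ex i φ) v ↔ ∃ a, Sat E φ (Function.update v i a) := by
  simp only [Fml.ex, sat_not, sat_all, not_forall, not_not]

/-- `x_s` is the successor of `x_n` -/
def succF (s n : ℕ) : Fml := .all 10 ((Fml.mem 10 s).iff ((Fml.mem 10 n).or (.eq 10 n)))

lemma sat_succF {s n : ℕ} (hs : s ≠ 10) (hn : n ≠ 10) (v : ℕ → N) :
    Sat E (succF s n) v ↔ IsSuccOf E (v s) (v n) := by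
  simp [succF, IsSuccOf, Function.update_of_ne hs, Function.update_of_ne hn]

/-- `x_y` is inductive -/
def indF (y : ℕ) : Fml :=
  .and (.ex 11 (.and (.all 12 (.not (.mem 12 11))) (.mem 11 y)))
    (.all 13 ((Fml.mem 13 y).imp (.ex 14 (.and (succF 14 13) (.mem 14 y)))))

lemma sat_indF {y : ℕ} (hy : y < 10) (v : ℕ → N) :
    Sat E (indF y) v ↔ IsInductive E (v y) := by
  have h11 : y ≠ 11 := by omega
  have h12 : y ≠ 12 := by omega
  have h13 : y ≠ 13 := by omega
  have h14 : y ≠ 14 := by omega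
  simp [indF, IsInductive, Function.update_of_ne h11, Function.update_of_ne h13,
    Function.update_of_ne h14, sat_succF]

/-- `x_p` is the pair of `x_a` and `x_b` -/
def pairF (p a b : ℕ) : Fml :=
  .all 8 ((Fml.mem 8 p).iff ((Fml.all 9 ((Fml.mem 9 8).iff (.eq 9 a))).or
    (.all 9 ((Fml.mem 9 8).iff ((Fml.eq 9 a).or (.eq 9 b))))))

lemma sat_pairF {p a b : ℕ} (hp : p < 8) (ha : a < 8) (hb : b < 8) (v : ℕ → N) :
    Sat E (pairF p a b) v ↔ IsPairOf E (v p) (v a) (v b) := by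
  have hp8 : p ≠ 8 := by omega
  have ha8 : a ≠ 8 := by omega
  have hb8 : b ≠ 8 := by omega
  have ha9 : a ≠ 9 := by omega
  have hb9 : b ≠ 9 := by omega
  simp [pairF, IsPairOf, Function.update_of_ne hp8, Function.update_of_ne ha8,
    Function.update_of_ne hb8, Function.update_of_ne ha9, Function.update_of_ne hb9]

end Sat

section Model2

variable {M : Set ZFSet.{u}} (hM : IsTransitiveModelZFDC M)

include hM

lemma isInductive_iff (x : M) :
    IsInductive (fun x y : M => (x : ZFSet.{u}) ∈ (y : ZFSet.{u})) x ↔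
      ∅ ∈ (x : ZFSet.{u}) ∧ ∀ n ∈ (x : ZFSet.{u}), insert n n ∈ (x : ZFSet.{u}) := by
  have hsucc : ∀ s n : M, IsSuccOf (fun x y : M => (x : ZFSet.{u}) ∈ (y : ZFSet.{u})) s n ↔
      (s : ZFSet.{u}) = insert (n : ZFSet.{u}) (n : ZFSet.{u}) := by
    intro s n
    constructor
    · intro h
      ext w
      rw [ZFSet.mem_insert_iff]
      constructor
      · intro hw
        have hwM := hM.transitive _ s.2 w hw
        rcases (h ⟨w, hwM⟩).1 hw with h1 | h1
        · exact Or.inr h1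
        · exact Or.inl (congrArg Subtype.val h1)
      · rintro (rfl | hw)
        · exact (h n).2 (Or.inr rfl)
        · exact (h ⟨w, hM.transitive _ n.2 w hw⟩).2 (Or.inl hw)
    · intro h w
      change (w : ZFSet) ∈ (s : ZFSet) ↔ _
      rw [h, ZFSet.mem_insert_iff]
      constructor
      · rintro (h1 | h1)
        · exact Or.inr (Subtype.ext h1)
        · exact Or.inl h1
      · rintro (h1 | h1)
        · exact Or.inr h1
        · exact Or.inl (congrArg Subtype.val h1)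
  constructor
  · rintro ⟨⟨e, he, hex⟩, h⟩
    refine ⟨?_, fun n hn => ?_⟩
    · have : (e : ZFSet) = ∅ := by
        rw [ZFSet.eq_empty]
        intro w hw
        exact he ⟨w, hM.transitive _ e.2 w hw⟩ hw
      rwa [this] at hex
    · obtain ⟨s, hs, hsx⟩ := h ⟨n, hM.transitive _ x.2 n hn⟩ hn
      rw [hsucc] at hs
      change (s : ZFSet) ∈ (x : ZFSet) at hsx
      rwa [hs] at hsx
  · rintro ⟨h0, h⟩
    refine ⟨⟨⟨∅, hM.transitive _ x.2 _ h0⟩, fun w => ZFSet.notMem_empty _, h0⟩, fun n hn => ?_⟩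
    have hs := h n hn
    exact ⟨⟨_, hM.transitive _ x.2 _ hs⟩, (hsucc _ _).2 rfl, hs⟩

lemma omega_mem : ZFSet.omega ∈ M := by
  obtain ⟨I, hI⟩ := hM.models.infinity
  set E := fun x y : M => (x : ZFSet.{u}) ∈ (y : ZFSet.{u}) with hE
  have hW := sep_mem' hM (.all 1 ((indF 1).imp (.mem 0 1))) (fun _ => I) I.2
  set W := ZFSet.sep (fun w => ∃ hw : w ∈ M,
      Sat E (.all 1 ((indF 1).imp (.mem 0 1))) (Function.update (fun _ => I) 0 ⟨w, hw⟩))
      (I : ZFSet.{u}) with hWdef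
  have hmem : ∀ w, w ∈ W ↔ w ∈ (I : ZFSet.{u}) ∧ ∀ y : M, IsInductive E y → w ∈ (y : ZFSet) := by
    intro w
    rw [hWdef, ZFSet.mem_sep]
    constructor
    · rintro ⟨h1, hw, h2⟩
      refine ⟨h1, fun y hy => ?_⟩
      rw [sat_all] at h2
      have h3 := h2 y
      rw [sat_imp, sat_indF (by omega)] at h3
      simpa using h3 (by simpa using hy)
    · rintro ⟨h1, h2⟩
      refine ⟨h1, hM.transitive _ I.2 w h1, ?_⟩
      rw [sat_all]
      intro y
      rw [sat_imp, sat_indF (by omega)]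
      intro hy
      simpa using h2 y (by simpa using hy)
  have hI' := (isInductive_iff hM I).1 hI
  have hWind0 : ∅ ∈ W := (hmem _).2 ⟨hI'.1, fun y hy => ((isInductive_iff hM y).1 hy).1⟩
  have hWind : ∀ n ∈ W, insert n n ∈ W := by
    intro n hn
    obtain ⟨h1, h2⟩ := (hmem _).1 hn
    exact (hmem _).2 ⟨hI'.2 n h1, fun y hy => ((isInductive_iff hM y).1 hy).2 n (h2 y hy)⟩
  have hnum : ∀ n, num.{u} n ∈ W := by
    intro n
    induction n with
    | zero => exact hWind0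
    | succ n ih => exact hWind _ ih
  have hle : ∀ w ∈ W, ∃ n, w = num n := by
    by_contra hcon
    push Not at hcon
    obtain ⟨w0, hw0, hw0'⟩ := hcon
    obtain ⟨w, ⟨hw, hw'⟩, hmin⟩ := ZFSet.mem_wf.has_min {w | w ∈ W ∧ ∀ n, w ≠ num n}
      ⟨w0, hw0, hw0'⟩
    have hwM : w ∈ M := hM.transitive _ hW w hw
    have hW' : W \ {w} ∈ M := diff_mem hM hW (singleton_mem' hM hwM)
    have hind : IsInductive E ⟨W \ {w}, hW'⟩ := by
      rw [hE, isInductive_iff hM]
      constructor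
      · rw [ZFSet.mem_sdiff, ZFSet.mem_singleton]
        exact ⟨hWind0, fun h => hw' 0 h.symm⟩
      · intro z hz
        rw [ZFSet.mem_sdiff, ZFSet.mem_singleton] at hz ⊢
        refine ⟨hWind z hz.1, fun h => ?_⟩
        by_cases hzn : ∃ n, z = num n
        · obtain ⟨n, rfl⟩ := hzn
          exact hw' (n + 1) h.symm
        · push Not at hzn
          exact hmin z ⟨hz.1, hzn⟩ (by rw [← h]; exact ZFSet.mem_insert z z)
    have h3 := ((hmem w).1 hw).2 _ hind
    change w ∈ W \ {w} at h3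
    rw [ZFSet.mem_sdiff, ZFSet.mem_singleton] at h3
    exact h3.2 rfl
  have : ZFSet.omega.{u} = W := by
    ext x
    rw [mem_omega_iff]
    constructor
    · rintro ⟨n, rfl⟩; exact hnum n
    · exact hle x
  rw [this]
  exact hW

lemma num_mem (n : ℕ) : num.{u} n ∈ M := hM.transitive _ (omega_mem hM) _ (num_mem_omega n)

lemma isPairOf_iff (p a b : M) :
    IsPairOf (fun x y : M => (x : ZFSet.{u}) ∈ (y : ZFSet.{u})) p a b ↔
      (p : ZFSet.{u}) = ZFSet.pair a b := by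
  have h1 : ∀ w : M, (∀ z : M, (z : ZFSet.{u}) ∈ (w : ZFSet.{u}) ↔ z = a) ↔
      (w : ZFSet.{u}) = {(a : ZFSet.{u})} := by
    intro w
    constructor
    · intro h
      ext z
      rw [ZFSet.mem_singleton]
      constructor
      · intro hz
        exact congrArg Subtype.val ((h ⟨z, hM.transitive _ w.2 z hz⟩).1 hz)
      · rintro rfl
        exact (h a).2 rfl
    · intro h z
      rw [h, ZFSet.mem_singleton, Subtype.ext_iff]
  have h2 : ∀ w : M, (∀ z : M, (z : ZFSet.{u}) ∈ (w : ZFSet.{u}) ↔ z = a ∨ z = b) ↔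
      (w : ZFSet.{u}) = {(a : ZFSet.{u}), (b : ZFSet.{u})} := by
    intro w
    constructor
    · intro h
      ext z
      rw [ZFSet.mem_pair]
      constructor
      · intro hz
        rcases (h ⟨z, hM.transitive _ w.2 z hz⟩).1 hz with h | h
        · exact Or.inl (congrArg Subtype.val h)
        · exact Or.inr (congrArg Subtype.val h)
      · rintro (rfl | rfl)
        · exact (h a).2 (Or.inl rfl)
        · exact (h b).2 (Or.inr rfl)
    · intro h z
      rw [h, ZFSet.mem_pair, Subtype.ext_iff, Subtype.ext_iff]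
  unfold IsPairOf
  simp only [h1, h2]
  constructor
  · intro h
    ext w
    rw [ZFSet.pair, ZFSet.mem_pair]
    constructor
    · intro hw
      exact (h ⟨w, hM.transitive _ p.2 w hw⟩).1 hw
    · rintro (rfl | rfl)
      · exact (h ⟨_, singleton_mem' hM a.2⟩).2 (Or.inl rfl)
      · exact (h ⟨_, pair_mem' hM a.2 b.2⟩).2 (Or.inr rfl)
  · intro h w
    rw [h, ZFSet.pair, ZFSet.mem_pair]

/-- The set of all `w ⊆ ω` in `M` with `((3, (w, ∅)), t) ∈ c`. -/
lemma ultra_mem {c t : ZFSet.{u}} (hc : c ∈ M) (ht : t ∈ M) :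
    ∃ U ∈ M, ∀ w, w ∈ U ↔ w ∈ M ∧ w ⊆ ZFSet.omega ∧
      ZFSet.pair (ZFSet.pair (num 3) (ZFSet.pair w ∅)) t ∈ c := by
  set E := fun x y : M => (x : ZFSet.{u}) ∈ (y : ZFSet.{u}) with hE
  have hO := omega_mem hM
  obtain ⟨⟨P, hP⟩, hP'⟩ := hM.models.powerset ⟨ZFSet.omega, hO⟩
  have hPmem : ∀ y : ZFSet.{u}, y ∈ P ↔ y ∈ M ∧ y ⊆ ZFSet.omega := by
    intro y
    constructor
    · intro hy
      have hyM := hM.transitive _ hP y hy
      refine ⟨hyM, fun w hw => ?_⟩
      exact (hP' ⟨y, hyM⟩).1 hy ⟨w, hM.transitive _ hyM w hw⟩ hw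
    · rintro ⟨hyM, hy⟩
      exact (hP' ⟨y, hyM⟩).2 fun w hw => hy hw
  have h0 : (∅ : ZFSet.{u}) ∈ M := num_mem hM 0
  let v : ℕ → M := fun i => if i = 1 then ⟨c, hc⟩ else if i = 2 then ⟨t, ht⟩ else
    if i = 3 then ⟨num 3, num_mem hM 3⟩ else ⟨∅, h0⟩
  let φ : Fml := .ex 5 (.ex 6 (.ex 7 (.and (.mem 5 1) (.and (pairF 5 6 2)
    (.and (pairF 6 3 7) (pairF 7 0 4))))))
  have hU := sep_mem' hM φ v hP
  refine ⟨_, hU, fun w => ?_⟩
  rw [ZFSet.mem_sep, hPmem]
  have hsat : ∀ hw : w ∈ M, Sat E φ (Function.update v 0 ⟨w, hw⟩) ↔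
      ZFSet.pair (ZFSet.pair (num 3) (ZFSet.pair w ∅)) t ∈ c := by
    intro hw
    simp only [φ, sat_ex, sat_and, sat_mem, sat_pairF (show 5 < 8 by omega) (show 6 < 8 by omega)
      (show 2 < 8 by omega), sat_pairF (show 6 < 8 by omega) (show 3 < 8 by omega)
      (show 7 < 8 by omega), sat_pairF (show 7 < 8 by omega) (show 0 < 8 by omega)
      (show 4 < 8 by omega), hE, isPairOf_iff hM]
    simp only [Function.update, v]
    simp
    intro _
    have k1 := pair_mem hM hw h0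
    have k2 := pair_mem hM (num_mem hM 3) k1
    exact ⟨k2, pair_mem hM k2 ht, k1⟩
  constructor
  · rintro ⟨⟨h1, h2⟩, hw, h3⟩
    exact ⟨h1, h2, (hsat hw).1 h3⟩
  · rintro ⟨h1, h2, h3⟩
    exact ⟨⟨h1, h2⟩, h1, (hsat h1).2 h3⟩

/-! ### The main theorem -/

lemma code_mem_iff {x : Vertex} : code.{u} x ∈ M ↔ sub.{u} x.2.1 ∈ M ∧ sub.{u} x.2.2 ∈ M := by
  constructor
  · intro h
    exact of_pair_mem hM (of_pair_mem hM h).2
  · rintro ⟨h1, h2⟩
    exact pair_mem hM (num_mem hM _) (pair_mem hM h1 h2)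

/-- A transitive model containing a 3-colouring of the graph contains a nonprincipal
ultrafilter. -/
theorem ultrafilter_of_colouring (h : ContainsColouring M graph 3) :
    ContainsNonprincipalUltrafilter M := by
  classical
  obtain ⟨c, hcM, -, hfun, hprop⟩ := h
  have hO := omega_mem hM
  have h0 : (∅ : ZFSet.{u}) ∈ M := num_mem hM 0
  -- the colour function
  have hcol : ∀ x : Vertex, ∃ i : Fin 3, code.{u} x ∈ M → ZFSet.pair (code x) (num i) ∈ c := by
    intro x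
    by_cases hx : code.{u} x ∈ M
    · obtain ⟨i, ⟨hi, hi'⟩, -⟩ := hfun x hx
      exact ⟨⟨i, hi⟩, fun _ => hi'⟩
    · exact ⟨0, fun h => absurd h hx⟩
  choose col hcol using hcol
  have hcoluniq : ∀ x : Vertex, code.{u} x ∈ M → ∀ i : Fin 3,
      ZFSet.pair (code x) (num i) ∈ c → col x = i := by
    intro x hx i hi
    obtain ⟨j, -, hj⟩ := hfun x hx
    have h1 := hj i ⟨i.2, hi⟩
    have h2 := hj (col x) ⟨(col x).2, hcol x hx⟩
    exact Fin.ext (h2.trans h1.symm)
  let P : Set (ℕ → Bool) := {a | sub.{u} a ∈ M}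
  have hP0 : bot ∈ P := by
    change sub.{u} bot ∈ M
    rw [sub_bot]; exact h0
  have hPneg : ∀ a ∈ P, neg a ∈ P := by
    intro a ha
    change sub.{u} (neg a) ∈ M
    rw [sub_neg]
    exact diff_mem hM hO ha
  have hPinf : ∀ a ∈ P, ∀ b ∈ P, inf a b ∈ P := by
    intro a ha b hb
    change sub.{u} (inf a b) ∈ M
    rw [sub_inf]
    exact inter_mem hM ha hb
  have hP : Proper P col := by
    intro x y hx1 hx2 hy1 hy2 hxy heq
    have hx : code.{u} x ∈ M := (code_mem_iff hM).2 ⟨hx1, hx2⟩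
    have hy : code.{u} y ∈ M := (code_mem_iff hM).2 ⟨hy1, hy2⟩
    refine hprop x y (col x) hx hy (Or.inl hxy) (col x).2 ⟨hcol x hx, ?_⟩
    rw [heq]
    exact hcol y hy
  -- the ultrafilter
  obtain ⟨U, hU, hUmem⟩ := ultra_mem hM hcM (num_mem hM (col (1, bot, bot)))
  have hUa : ∀ a ∈ P, (sub.{u} a ∈ U ↔ InU col a) := by
    intro a ha
    rw [hUmem]
    have hcode : code.{u} (3, a, bot) ∈ M := (code_mem_iff hM).2 ⟨ha, hP0⟩
    have e : code.{u} (3, a, bot) = ZFSet.pair (num 3) (ZFSet.pair (sub a) ∅) := by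
      rw [code, sub_bot]; rfl
    rw [← e]
    constructor
    · rintro ⟨-, -, h⟩
      exact hcoluniq _ hcode _ h
    · intro h
      refine ⟨ha, sub_subset a, ?_⟩
      have h' : col (3, a, bot) = col (1, bot, bot) := h
      rw [← h']
      exact hcol _ hcode
  have hrep : ∀ A ∈ M, A ⊆ ZFSet.omega → ∃ a ∈ P, sub.{u} a = A := by
    intro A hA hA'
    obtain ⟨a, rfl⟩ := exists_sub hA'
    exact ⟨a, hA, rfl⟩
  have hUsub : ∀ A ∈ U, A ∈ M ∧ A ⊆ ZFSet.omega := by
    intro A hA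
    have := (hUmem A).1 hA
    exact ⟨this.1, this.2.1⟩
  have htopP : top ∈ P := by
    change sub.{u} top ∈ M
    rw [sub_top]; exact hO
  have htopU : InU col top := inU_top hP0 hPneg hP
  have hbotU : ¬ InU col bot := by
    intro h
    have := (inU_neg hP0 hPneg hP htopP).1 (by
      have e : neg top = bot := by funext n; simp [neg, top, bot]
      rw [e]; exact h)
    exact this htopU
  have hinter : ∀ A ∈ U, ∀ B ∈ U, A ∩ B ∈ U := by
    intro A hA B hB
    obtain ⟨a, ha, rfl⟩ := hrep A (hUsub A hA).1 (hUsub A hA).2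
    obtain ⟨b, hb, rfl⟩ := hrep B (hUsub B hB).1 (hUsub B hB).2
    rw [← sub_inf, hUa _ (hPinf a ha b hb)]
    exact inU_inf hP0 hPneg hPinf hP ha hb ((hUa a ha).1 hA) ((hUa b hb).1 hB)
  have hempty : ∅ ∉ U := by
    rw [← sub_bot, hUa _ hP0]
    exact hbotU
  have hultra : ∀ A ∈ M, A ⊆ ZFSet.omega → A ∈ U ∨ ZFSet.omega \ A ∈ U := by
    intro A hA hA'
    obtain ⟨a, ha, rfl⟩ := hrep A hA hA'
    rw [← sub_neg, hUa _ ha, hUa _ (hPneg a ha), inU_neg hP0 hPneg hP ha]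
    exact em _
  refine ⟨U, hU, fun A hA => (hUsub A hA).2, ?_, hempty, hinter, ?_, hultra, ?_⟩
  · rw [← sub_top, hUa _ htopP]
    exact htopU
  · intro A hA B hB hAB hB'
    rcases hultra B hB hB' with h | h
    · exact h
    · exfalso
      have h1 := hinter A hA _ h
      have h2 : A ∩ (ZFSet.omega \ B) = ∅ := by
        rw [ZFSet.eq_empty]
        intro w hw
        rw [ZFSet.mem_inter, ZFSet.mem_sdiff] at hw
        exact hw.2.2 (hAB hw.1)
      rw [h2] at h1
      exact hempty h1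
  · intro n hn
    obtain ⟨m, rfl⟩ := mem_omega_iff.1 hn
    have hs : sing m ∈ P := by
      change sub.{u} (sing m) ∈ M
      rw [sub_sing]
      exact singleton_mem' hM (num_mem hM m)
    rw [← sub_sing, hUa _ hs]
    exact not_inU_sing hP0 hP hs

end Model2

end Pool.Agent.H87.Ultra
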